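import Mathlib

/-!
# Divergence and the quasi-redirecting poset of a finitely generated group

General definitions, for a group `G` with a set `S` of generators.
-/

open scoped NNReal

namespace QRPoset

section Word

variable {G : Type} [Group G]

/-- All letters of the list lie in `S` or have their inverse in `S`. -/
def WordIn (S : Set G) (l : List G) : Prop := ∀ a ∈ l, a ∈ S ∨ a⁻¹ ∈ S

/-- The word length of `g` with respect to `S`. -/
noncomputable def wlen (S : Set G) (g : G) : ℕ :=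
  sInf {n : ℕ | ∃ l : List G, l.length = n ∧ WordIn S l ∧ l.prod = g}

/-- The distance of two vertices in the Cayley graph. -/
noncomputable def wdist (S : Set G) (x y : G) : ℕ := wlen S (x⁻¹ * y)

/-- The edge path starting at `x` with labels `l` goes from `x` to `y` and all its vertices
are outside the open ball of radius `ρ` about `c`. -/
def Avoids (S : Set G) (c : G) (ρ : ℝ) (x y : G) (l : List G) : Prop :=
  WordIn S l ∧ x * l.prod = y ∧ ∀ i ≤ l.length, ρ ≤ (wdist S c (x * (l.take i).prod) : ℝ)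

/-- `div_γ(x, y, c; δ)`: the infimum of the lengths of the paths from `x` to `y` avoiding the open
ball about `c` of radius `δ r - γ`, where `r = min (d(c,x)) (d(c,y))`. -/
noncomputable def divPts (S : Set G) (γ δ : ℝ) (x y c : G) : ℕ∞ :=
  sInf {m : ℕ∞ | ∃ l : List G,
    Avoids S c (δ * (min (wdist S c x) (wdist S c y) : ℕ) - γ) x y l ∧ m = l.length}

/-- `Div_γ(n, δ)`. -/
noncomputable def Div (S : Set G) (γ δ : ℝ) (n : ℕ) : ℕ∞ :=
  sSup {m : ℕ∞ | ∃ x y c : G, wdist S x y ≤ n ∧ 0 < min (wdist S c x) (wdist S c y) ∧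
    m = divPts S γ δ x y c}

/-- The domination relation between growth functions. -/
def Dominated (f g : ℕ → ℕ∞) : Prop :=
  ∃ C : ℕ, ∀ n : ℕ, f n ≤ C * g (C * n + C) + C * n + C

/-- The divergence of the group is polynomial of degree `d` (for all admissible parameters). -/
def PolyDivergence (S : Set G) (d : ℕ) : Prop :=
  ∀ γ δ : ℝ, 0 < δ → δ ≤ 1 / 2 → 2 ≤ γ →
    Dominated (Div S γ δ) (fun n => ((n ^ d : ℕ) : ℕ∞)) ∧
    Dominated (fun n => ((n ^ d : ℕ) : ℕ∞)) (Div S γ δ)

end Word

section Ray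

variable {X : Type} [MetricSpace X]

/-- `(q, Q)`-quasi-geodesic rays. -/
def IsQG (q Q : ℝ) (α : ℝ≥0 → X) : Prop :=
  ∀ s t : ℝ≥0, dist s t / q - Q ≤ dist (α s) (α t) ∧ dist (α s) (α t) ≤ q * dist s t + Q

/-- `α` can be quasi-redirected to `β`. -/
def Redirects (α β : ℝ≥0 → X) : Prop :=
  ∃ q Q : ℝ, 1 ≤ q ∧ 0 ≤ Q ∧ ∀ r : ℝ, 0 < r → ∃ γ : ℝ≥0 → X, IsQG q Q γ ∧
    (∀ t : ℝ≥0, dist (α 0) (α t) < r → γ t = α t) ∧
    ∃ tβ tγ : ℝ≥0, 0 < tβ ∧ 0 < tγ ∧ ∀ t : ℝ≥0, tγ ≤ t → γ t = β (t + tβ)

variable (X) in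
/-- The quasi-geodesic rays of `X` (with arbitrary constants). -/
def QRay : Type := {α : ℝ≥0 → X // ∃ q Q : ℝ, 1 ≤ q ∧ 0 ≤ Q ∧ IsQG q Q α}

end Ray

section Cayley

variable {G : Type} [Group G]

/-- `X` is a model of the Cayley graph of `(G, S)`: it contains the vertex set `G` with the word
metric and every point is at distance at most `1` from a vertex. The Cayley graph with edges of
length `1` is such a space, and so is the vertex set itself. -/
def CayleyModel (S : Set G) {X : Type} [MetricSpace X] (ι : G → X) : Prop :=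
  (∀ g h : G, dist (ι g) (ι h) = (wdist S g h : ℝ)) ∧ ∀ x : X, ∃ g : G, dist x (ι g) ≤ 1

end Cayley

end QRPoset
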