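import Mathlib
import Pool.Agent.QRPoset.Defs

/-!
# The group `F₃ ⋊ ℤ`

`F` is free on `a, b, c`; `φ a = a`, `φ b = b a`, `φ c = c b`. The group `GG` is the semidirect
product `F ⋊ ℤ` (Macura's group with cubic divergence).
-/

namespace QRPoset

/-- The free group on three letters. -/
abbrev F : Type := FreeGroup (Fin 3)

def ga : F := FreeGroup.of 0
def gb : F := FreeGroup.of 1
def gc : F := FreeGroup.of 2

/-- The endomorphism `a ↦ a, b ↦ b a, c ↦ c b`. -/
def phiHom : F →* F := FreeGroup.lift ![ga, gb * ga, gc * gb]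

/-- The inverse endomorphism `a ↦ a, b ↦ b a⁻¹, c ↦ c a b⁻¹`. -/
def psiHom : F →* F := FreeGroup.lift ![ga, gb * ga⁻¹, gc * ga * gb⁻¹]

@[simp] lemma phiHom_a : phiHom ga = ga := by simp [phiHom, ga]
@[simp] lemma phiHom_b : phiHom gb = gb * ga := by simp [phiHom, gb]
@[simp] lemma phiHom_c : phiHom gc = gc * gb := by simp [phiHom, gc]
@[simp] lemma psiHom_a : psiHom ga = ga := by simp [psiHom, ga]
@[simp] lemma psiHom_b : psiHom gb = gb * ga⁻¹ := by simp [psiHom, gb]
@[simp] lemma psiHom_c : psiHom gc = gc * ga * gb⁻¹ := by simp [psiHom, gc]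

lemma hom_ext_F {M : Type} [Monoid M] {f g : F →* M} (ha : f ga = g ga) (hb : f gb = g gb)
    (hc : f gc = g gc) : f = g := by
  apply FreeGroup.ext_hom
  intro i
  fin_cases i
  · exact ha
  · exact hb
  · exact hc

/-- The automorphism `φ`. -/
def phi : MulAut F :=
  MonoidHom.toMulEquiv phiHom psiHom
    (by apply hom_ext_F <;> simp)
    (by apply hom_ext_F <;> simp)

@[simp] lemma phi_a : phi ga = ga := phiHom_a
@[simp] lemma phi_b : phi gb = gb * ga := phiHom_b
@[simp] lemma phi_c : phi gc = gc * gb := phiHom_c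

lemma phi_apply (w : F) : phi w = phiHom w := rfl

/-- The group `F ⋊ ℤ`. -/
@[ext] structure GG : Type where
  w : F
  k : ℤ

namespace GG

instance : Mul GG := ⟨fun g h => ⟨g.w * (phi ^ g.k) h.w, g.k + h.k⟩⟩
instance : One GG := ⟨⟨1, 0⟩⟩
instance : Inv GG := ⟨fun g => ⟨(phi ^ (-g.k)) g.w⁻¹, -g.k⟩⟩

@[simp] lemma mul_w (g h : GG) : (g * h).w = g.w * (phi ^ g.k) h.w := rfl
@[simp] lemma mul_k (g h : GG) : (g * h).k = g.k + h.k := rfl
@[simp] lemma one_w : (1 : GG).w = 1 := rfl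
@[simp] lemma one_k : (1 : GG).k = 0 := rfl
@[simp] lemma inv_w (g : GG) : (g⁻¹).w = (phi ^ (-g.k)) g.w⁻¹ := rfl
@[simp] lemma inv_k (g : GG) : (g⁻¹).k = -g.k := rfl

instance : Group GG := Group.ofLeftAxioms
  (by
    intro x y z
    ext1
    · simp only [mul_w, mul_k, map_mul, zpow_add, MulAut.mul_apply, mul_assoc]
    · simp [add_assoc])
  (by intro x; ext1 <;> simp)
  (by
    intro x
    ext1
    · simp only [mul_w, inv_w, inv_k, one_w, ← map_mul]
      simp
    · simp)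

end GG

/-- `t` -/
def tt : GG := ⟨1, 1⟩
/-- `a` -/
def xa : GG := ⟨ga, 0⟩
/-- `b` -/
def xb : GG := ⟨gb, 0⟩
/-- `c` -/
def xc : GG := ⟨gc, 0⟩

open GG

/-- The generating set `{t, a, b, c}`. -/
def SS : Set GG := {tt, xa, xb, xc}

/-- `U k = c⁻¹ φ^k(c)`. -/
def U (k : ℤ) : F := gc⁻¹ * (phi ^ k) gc

lemma phi_inv_a : phi⁻¹ ga = ga := by
  rw [MulAut.inv_def, MulEquiv.symm_apply_eq, phi_a]

lemma phi_inv_b : phi⁻¹ gb = gb * ga⁻¹ := by
  rw [MulAut.inv_def, MulEquiv.symm_apply_eq]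
  simp

@[simp] lemma phi_zpow_a (k : ℤ) : (phi ^ k) ga = ga := by
  induction k using Int.induction_on with
  | zero => simp
  | succ n ih => rw [zpow_add_one, MulAut.mul_apply, phi_a, ih]
  | pred n ih => rw [zpow_sub_one, MulAut.mul_apply, phi_inv_a, ih]

@[simp] lemma phi_zpow_b (k : ℤ) : (phi ^ k) gb = gb * ga ^ k := by
  induction k using Int.induction_on with
  | zero => simp
  | succ n ih =>
    rw [zpow_add_one, MulAut.mul_apply, phi_b, map_mul, ih, phi_zpow_a, zpow_add_one, mul_assoc]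
  | pred n ih =>
    rw [zpow_sub_one, MulAut.mul_apply, phi_inv_b, map_mul, ih, map_inv, phi_zpow_a,
      zpow_sub_one, mul_assoc]

lemma phi_zpow_c (k : ℤ) : (phi ^ k) gc = gc * U k := by
  simp [U]

@[simp] lemma U_zero : U 0 = 1 := by simp [U]

lemma U_succ (k : ℤ) : U (k + 1) = U k * (gb * ga ^ k) := by
  rw [U, zpow_add_one, MulAut.mul_apply, phi_c, map_mul, phi_zpow_b, U, mul_assoc]

/-- The vertex `(w, k)`. -/
def vt (w : F) (k : ℤ) : GG := ⟨w, k⟩

@[simp] lemma vt_w (w : F) (k : ℤ) : (vt w k).w = w := rfl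
@[simp] lemma vt_k (w : F) (k : ℤ) : (vt w k).k = k := rfl

lemma vt_eta (g : GG) : vt g.w g.k = g := rfl

lemma vt_mul (w w' : F) (k k' : ℤ) : vt w k * vt w' k' = vt (w * (phi ^ k) w') (k + k') := rfl

lemma tt_zpow (k : ℤ) : tt ^ k = vt 1 k := by
  induction k using Int.induction_on with
  | zero => rfl
  | succ n ih =>
    rw [zpow_add_one, ih]
    ext1 <;> simp [tt]
  | pred n ih =>
    rw [zpow_sub_one, ih]
    ext1
    · simp [tt]
    · simp [tt]; ring

/-- The inclusion of `F`. -/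
def inF : F →* GG where
  toFun w := vt w 0
  map_one' := rfl
  map_mul' x y := by ext1 <;> simp

@[simp] lemma inF_w (w : F) : (inF w).w = w := rfl
@[simp] lemma inF_k (w : F) : (inF w).k = 0 := rfl

lemma xa_eq : xa = inF ga := rfl
lemma xb_eq : xb = inF gb := rfl
lemma xc_eq : xc = inF gc := rfl

/-- The level homomorphism `t ↦ 1, a, b, c ↦ 0`. -/
def level : GG →* Multiplicative ℤ where
  toFun g := Multiplicative.ofAdd g.k
  map_one' := rfl
  map_mul' _ _ := rfl

end QRPoset
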