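import Mathlib
import Pool.Agent.QRPoset.Base

/-!
# Word length facts
-/

namespace QRPoset

section General

variable {G : Type} [Group G] {S : Set G}

lemma WordIn.nil : WordIn S ([] : List G) := by intro a ha; simp at ha

lemma WordIn.append {l m : List G} (hl : WordIn S l) (hm : WordIn S m) : WordIn S (l ++ m) := by
  intro a ha
  rcases List.mem_append.1 ha with h | h
  · exact hl a h
  · exact hm a h

lemma WordIn.singleton {s : G} (hs : s ∈ S ∨ s⁻¹ ∈ S) : WordIn S [s] := by
  intro a ha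
  simp at ha
  subst ha
  exact hs

lemma WordIn.inv {l : List G} (hl : WordIn S l) : WordIn S (l.map (·⁻¹)).reverse := by
  intro a ha
  simp only [List.mem_reverse, List.mem_map] at ha
  obtain ⟨b, hb, rfl⟩ := ha
  rcases hl b hb with h | h
  · right; simpa using h
  · left; exact h

lemma exists_word_of_closure (hS : Subgroup.closure S = ⊤) (g : G) :
    ∃ l : List G, WordIn S l ∧ l.prod = g := by
  have hg : g ∈ Subgroup.closure S := by rw [hS]; trivial
  induction hg using Subgroup.closure_induction with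
  | mem x hx => exact ⟨[x], WordIn.singleton (Or.inl hx), by simp⟩
  | one => exact ⟨[], WordIn.nil, rfl⟩
  | mul x y _ _ hx hy =>
    obtain ⟨l, hl, rfl⟩ := hx
    obtain ⟨m, hm, rfl⟩ := hy
    exact ⟨l ++ m, hl.append hm, by simp⟩
  | inv x _ hx =>
    obtain ⟨l, hl, rfl⟩ := hx
    exact ⟨(l.map (·⁻¹)).reverse, hl.inv, by rw [← List.prod_inv_reverse]⟩

lemma wlen_le {l : List G} (hl : WordIn S l) : wlen S l.prod ≤ l.length :=
  Nat.sInf_le ⟨l, rfl, hl, rfl⟩

lemma exists_min_word (hS : Subgroup.closure S = ⊤) (g : G) :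
    ∃ l : List G, WordIn S l ∧ l.prod = g ∧ l.length = wlen S g := by
  obtain ⟨l, hl, hg⟩ := exists_word_of_closure hS g
  have hne : {n : ℕ | ∃ l : List G, l.length = n ∧ WordIn S l ∧ l.prod = g}.Nonempty :=
    ⟨l.length, l, rfl, hl, hg⟩
  obtain ⟨m, h1, h2, h3⟩ := Nat.sInf_mem hne
  exact ⟨m, h2, h3, h1⟩

lemma wlen_one : wlen S (1 : G) = 0 := by
  have := wlen_le (S := S) (l := ([] : List G)) WordIn.nil
  simpa using this

lemma wlen_mul_le (hS : Subgroup.closure S = ⊤) (g h : G) :
    wlen S (g * h) ≤ wlen S g + wlen S h := by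
  obtain ⟨l, hl, rfl, h1⟩ := exists_min_word hS g
  obtain ⟨m, hm, rfl, h2⟩ := exists_min_word hS h
  rw [← h1, ← h2, ← List.prod_append]
  exact (wlen_le (hl.append hm)).trans (by simp)

lemma wlen_inv_le (hS : Subgroup.closure S = ⊤) (g : G) : wlen S g⁻¹ ≤ wlen S g := by
  obtain ⟨l, hl, rfl, h1⟩ := exists_min_word hS g
  rw [← h1, List.prod_inv_reverse]
  refine (wlen_le hl.inv).trans (by simp)

lemma wlen_inv (hS : Subgroup.closure S = ⊤) (g : G) : wlen S g⁻¹ = wlen S g :=
  le_antisymm (wlen_inv_le hS g) (by simpa using wlen_inv_le hS g⁻¹)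

lemma wlen_gen_le {s : G} (hs : s ∈ S ∨ s⁻¹ ∈ S) : wlen S s ≤ 1 := by
  have := wlen_le (S := S) (l := [s]) (WordIn.singleton hs)
  simpa using this

lemma wlen_pow_le (hS : Subgroup.closure S = ⊤) (g : G) (n : ℕ) :
    wlen S (g ^ n) ≤ n * wlen S g := by
  induction n with
  | zero => simp [wlen_one]
  | succ n ih =>
    rw [pow_succ]
    have := wlen_mul_le hS (g ^ n) g
    rw [Nat.succ_mul]
    omega

lemma wlen_zpow_le (hS : Subgroup.closure S = ⊤) (g : G) (n : ℤ) :
    wlen S (g ^ n) ≤ n.natAbs * wlen S g := by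
  obtain ⟨m, rfl | rfl⟩ := n.eq_nat_or_neg
  · simpa using wlen_pow_le hS g m
  · rw [zpow_neg, wlen_inv hS]
    simpa using wlen_pow_le hS g m

lemma wdist_comm (hS : Subgroup.closure S = ⊤) (x y : G) : wdist S x y = wdist S y x := by
  rw [wdist, wdist, ← wlen_inv hS]
  simp

lemma wdist_triangle (hS : Subgroup.closure S = ⊤) (x y z : G) :
    wdist S x z ≤ wdist S x y + wdist S y z := by
  rw [wdist, wdist, wdist]
  have := wlen_mul_le hS (x⁻¹ * y) (y⁻¹ * z)
  simpa [mul_assoc] using this

@[simp] lemma wdist_self (x : G) : wdist S x x = 0 := by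
  rw [wdist]; simp [wlen_one]

@[simp] lemma wdist_mul_left (g x y : G) : wdist S (g * x) (g * y) = wdist S x y := by
  rw [wdist, wdist]
  congr 1
  group

/-- A homomorphism to `ℤ` of size at most one on the generators is bounded by the length. -/
lemma abs_hom_le_wlen (hS : Subgroup.closure S = ⊤) (f : G →* Multiplicative ℤ)
    (hf : ∀ s ∈ S, |(f s).toAdd| ≤ 1) (g : G) : |(f g).toAdd| ≤ wlen S g := by
  obtain ⟨l, hl, rfl, h1⟩ := exists_min_word hS g
  rw [← h1]
  clear h1
  induction l with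
  | nil => simp
  | cons a l ih =>
    have ih' := ih (fun b hb => hl b (List.mem_cons_of_mem _ hb))
    have ha : |(f a).toAdd| ≤ 1 := by
      rcases hl a (List.mem_cons_self) with h | h
      · exact hf a h
      · have := hf _ h
        simpa using this
    rw [List.prod_cons, map_mul, toAdd_mul]
    have := abs_add_le (f a).toAdd (f l.prod).toAdd
    push_cast [List.length_cons]
    linarith

end General

/-! ### The group `GG` -/

lemma mem_SS_tt : tt ∈ SS := by simp [SS]
lemma mem_SS_xa : xa ∈ SS := by simp [SS]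
lemma mem_SS_xb : xb ∈ SS := by simp [SS]
lemma mem_SS_xc : xc ∈ SS := by simp [SS]

lemma inF_mem_closure (w : F) : inF w ∈ Subgroup.closure SS := by
  induction w using FreeGroup.induction_on with
  | C1 => simp
  | of i =>
    fin_cases i
    · exact Subgroup.subset_closure mem_SS_xa
    · exact Subgroup.subset_closure mem_SS_xb
    · exact Subgroup.subset_closure mem_SS_xc
  | inv_of i h => rw [map_inv]; exact Subgroup.inv_mem _ h
  | mul x y hx hy => rw [map_mul]; exact Subgroup.mul_mem _ hx hy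

lemma closure_SS : Subgroup.closure SS = ⊤ := by
  rw [eq_top_iff]
  intro g _
  have : g = inF g.w * tt ^ g.k := by
    rw [tt_zpow]
    ext1 <;> simp
  rw [this]
  exact Subgroup.mul_mem _ (inF_mem_closure _)
    (Subgroup.zpow_mem _ (Subgroup.subset_closure mem_SS_tt) _)

/-- Length in `GG`. -/
noncomputable abbrev len (g : GG) : ℕ := wlen SS g

/-- Distance in `GG`. -/
noncomputable abbrev gd (g h : GG) : ℕ := wdist SS g h

lemma abs_level_le (g : GG) : |g.k| ≤ len g := by
  have := abs_hom_le_wlen closure_SS level (by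
    intro s hs
    simp only [SS, Set.mem_insert_iff, Set.mem_singleton_iff] at hs
    rcases hs with rfl | rfl | rfl | rfl <;> simp [level, tt, xa, xb, xc]) g
  exact this

lemma abs_level_sub_le (g h : GG) : |h.k - g.k| ≤ gd g h := by
  have := abs_level_le (g⁻¹ * h)
  rw [GG.mul_k, GG.inv_k, neg_add_eq_sub] at this
  exact this

/-- The exponent sum homomorphisms of `F`. -/
def expo (i : Fin 3) : F →* Multiplicative ℤ :=
  FreeGroup.lift fun j => Multiplicative.ofAdd (if j = i then 1 else 0)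

@[simp] lemma expo2_a : expo 2 ga = 1 := by simp [expo, ga]
@[simp] lemma expo2_b : expo 2 gb = 1 := by simp [expo, gb]
@[simp] lemma expo2_c : expo 2 gc = Multiplicative.ofAdd 1 := by simp [expo, gc]
@[simp] lemma expo1_a : expo 1 ga = 1 := by simp [expo, ga]
@[simp] lemma expo1_b : expo 1 gb = Multiplicative.ofAdd 1 := by simp [expo, gb]
@[simp] lemma expo1_c : expo 1 gc = 1 := by simp [expo, gc]
@[simp] lemma expo0_a : expo 0 ga = Multiplicative.ofAdd 1 := by simp [expo, ga]
@[simp] lemma expo0_b : expo 0 gb = 1 := by simp [expo, gb]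
@[simp] lemma expo0_c : expo 0 gc = 1 := by simp [expo, gc]

lemma expoC_phi (k : ℤ) (w : F) : expo 2 ((phi ^ k) w) = expo 2 w := by
  have h : ∀ k : ℤ, ((expo 2).comp (phi ^ k).toMonoidHom) = expo 2 := by
    intro k
    apply hom_ext_F
    · simp
    · simp
    · induction k using Int.induction_on with
      | zero => simp
      | succ n ih =>
        simp only [MonoidHom.comp_apply, MulEquiv.toMonoidHom_eq_coe, MonoidHom.coe_coe] at ih ⊢
        rw [zpow_add_one, MulAut.mul_apply, phi_c, map_mul, map_mul, ih, phi_zpow_b]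
        simp
      | pred n ih =>
        simp only [MonoidHom.comp_apply, MulEquiv.toMonoidHom_eq_coe, MonoidHom.coe_coe] at ih ⊢
        have h1 : (phi ^ (-(n : ℤ) - 1)) gc * (phi ^ (-(n : ℤ) - 1)) gb = (phi ^ (-(n : ℤ))) gc := by
          rw [← map_mul, ← phi_c, ← MulAut.mul_apply, ← zpow_add_one]
          congr 2
          ring
        rw [← ih, ← h1, map_mul, phi_zpow_b]
        simp
  exact DFunLike.congr_fun (h k) w

/-- The homomorphism `c ↦ 1`, `t, a, b ↦ 0`. -/
def expC : GG →* Multiplicative ℤ where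
  toFun g := expo 2 g.w
  map_one' := by simp
  map_mul' g h := by rw [GG.mul_w, map_mul, expoC_phi]

lemma abs_expC_le (g : GG) : |(expo 2 g.w).toAdd| ≤ len g := by
  have := abs_hom_le_wlen closure_SS expC (by
    intro s hs
    simp only [SS, Set.mem_insert_iff, Set.mem_singleton_iff] at hs
    rcases hs with rfl | rfl | rfl | rfl <;> simp [expC, tt, xa, xb, xc]) g
  exact this

lemma len_tt_zpow (k : ℤ) : len (vt 1 k) = k.natAbs := by
  apply le_antisymm
  · rw [← tt_zpow]
    have h1 := wlen_zpow_le closure_SS tt k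
    have h2 := wlen_gen_le (S := SS) (Or.inl mem_SS_tt)
    calc wlen SS (tt ^ k) ≤ k.natAbs * wlen SS tt := h1
      _ ≤ k.natAbs * 1 := Nat.mul_le_mul_left _ h2
      _ = k.natAbs := by ring
  · have := abs_level_le (vt 1 k)
    simp only [vt_k, Int.abs_eq_natAbs] at this
    exact_mod_cast this

lemma len_xc_zpow (i : ℤ) : len (vt (gc ^ i) 0) = i.natAbs := by
  have h0 : vt (gc ^ i) 0 = xc ^ i := by
    rw [xc_eq, ← map_zpow]; rfl
  apply le_antisymm
  · rw [h0]
    have h1 := wlen_zpow_le closure_SS xc i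
    have h2 := wlen_gen_le (S := SS) (Or.inl mem_SS_xc)
    calc wlen SS (xc ^ i) ≤ i.natAbs * wlen SS xc := h1
      _ ≤ i.natAbs * 1 := Nat.mul_le_mul_left _ h2
      _ = i.natAbs := by ring
  · have := abs_expC_le (vt (gc ^ i) 0)
    simp only [vt_w, map_zpow, expo2_c, toAdd_zpow, toAdd_ofAdd, smul_eq_mul, mul_one,
      Int.abs_eq_natAbs] at this
    exact_mod_cast this

/-- `U j t^j` is the `j`-th power of `b t`, so `(U j, l)` is at distance at most
`2 |j| + |l - j|` from the identity. -/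
lemma xbt_zpow (j : ℤ) : (xb * tt) ^ j = vt (U j) j := by
  induction j using Int.induction_on with
  | zero => rw [zpow_zero, U_zero]; rfl
  | succ n ih =>
    rw [zpow_add_one, ih, U_succ, ← phi_zpow_b]
    ext1
    · simp only [GG.mul_w, vt_w, vt_k, xb, tt, map_one, mul_one]
    · simp [xb, tt]
  | pred n ih =>
    have h1 : U (-(n : ℤ)) = U (-(n : ℤ) - 1) * (gb * ga ^ (-(n : ℤ) - 1)) := by
      rw [← U_succ]; congr 1; ring
    rw [zpow_sub_one, ih, mul_inv_eq_iff_eq_mul, h1, ← phi_zpow_b]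
    ext1
    · simp only [GG.mul_w, vt_w, vt_k, xb, tt, map_one, mul_one]
    · simp [xb, tt]

lemma len_U_le (j l : ℤ) : (len (vt (U j) l) : ℤ) ≤ 2 * |j| + |l - j| := by
  have h0 : vt (U j) l = (xb * tt) ^ j * tt ^ (l - j) := by
    rw [xbt_zpow, tt_zpow]
    ext1 <;> simp
  have h1 := wlen_mul_le closure_SS ((xb * tt) ^ j) (tt ^ (l - j))
  have h2 := wlen_zpow_le closure_SS (xb * tt) j
  have h3 : wlen SS (xb * tt) ≤ 2 := by
    have := wlen_mul_le closure_SS xb tt
    have h4 := wlen_gen_le (S := SS) (Or.inl mem_SS_tt)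
    have h5 := wlen_gen_le (S := SS) (Or.inl mem_SS_xb)
    omega
  have h4 : wlen SS (tt ^ (l - j)) = (l - j).natAbs := by
    rw [tt_zpow]; exact len_tt_zpow _
  have h5 : j.natAbs * wlen SS (xb * tt) ≤ j.natAbs * 2 := Nat.mul_le_mul_left _ h3
  rw [h0]
  have : wlen SS ((xb * tt) ^ j * tt ^ (l - j)) ≤ j.natAbs * 2 + (l - j).natAbs := by omega
  have h6 : ((wlen SS ((xb * tt) ^ j * tt ^ (l - j)) : ℕ) : ℤ) ≤ ((j.natAbs * 2 + (l - j).natAbs : ℕ) : ℤ) := by
    exact_mod_cast this
  push_cast at h6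
  rw [show |j| = (j.natAbs : ℤ) by simp, show |l - j| = ((l - j).natAbs : ℤ) by simp]
  simp only [Int.natCast_natAbs] at h6 ⊢
  linarith

end QRPoset
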