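import Mathlib
import Pool.Agent.QRPoset.Words

open scoped NNReal

namespace QRPoset

/-! ### TARGET J3: the flat `⟨a, t⟩` is undistorted

Plain words. Let `GG` act on `Fin 6 × ℤ` (wreath product `ℤ ≀ S₆`) as follows; an element `(v; σ)`
acts by `(j, z) ↦ (σ j, z + v (σ j))`. With the points numbered `1..6`:
* `t = (e₁; (1 2)(5 6))`,
* `a = (-e₂ + e₄; (1 2)(3 4))`,
* `b = (e₁ - e₄; 1 ↦ 4, 2 ↦ 3, 3 ↦ 1, 4 ↦ 2, 5 ↦ 6, 6 ↦ 5)`,
* `c = (0; 1 ↦ 1, 3 ↦ 2, 5 ↦ 3, 6 ↦ 4, 2 ↦ 5, 4 ↦ 6)`.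
One checks `t a t⁻¹ = a`, `t b t⁻¹ = b a`, `t c t⁻¹ = c b` (verified by computer), so with
`ρF : F →* Equiv.Perm (Fin 6 × ℤ)` the lift one has `ρ(t) ρF(w) ρ(t)⁻¹ = ρF (phi w)`
(hom ext on the letters), hence `ρ(t)^k ρF(w) ρ(t)^(-k) = ρF ((phi ^ k) w)`, and
`ρ g = ρF g.w * ρ(t) ^ g.k` is a homomorphism `GG →* Equiv.Perm (Fin 6 × ℤ)`.
Each generator (and inverse) changes the `ℤ`-coordinate of every point by at most `1`, so
`|((ρ g) x).2 - x.2| ≤ len g` for every `x` (induction over a minimal word, `exists_min_word`).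
`a² ` maps `(3, z)` to `(3, z + 1)` and `a` maps `(3, z)` to `(4, z + 1)`, so `a ^ m` moves `(3, 0)` by
at least `(|m| - 1)/2` in the `ℤ`-coordinate. Finally `vt (ga ^ m) l = a ^ m t ^ l`, and
`len (vt 1 l) = |l|` (`len_tt_zpow`), so `(|m| - 1)/2 ≤ len (vt (ga^m) 0) ≤ len (vt (ga^m) l) + |l|`. -/

/-- An element of the wreath product `ℤ ≀ S₆` as a permutation of `Fin 6 × ℤ`. -/
def flatMk (f g : Fin 6 → Fin 6) (h1 : ∀ i, g (f i) = i) (h2 : ∀ i, f (g i) = i) (v : Fin 6 → ℤ) :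
    Equiv.Perm (Fin 6 × ℤ) where
  toFun p := (f p.1, p.2 + v (f p.1))
  invFun p := (g p.1, p.2 - v p.1)
  left_inv := by rintro ⟨i, z⟩; simp [h1]
  right_inv := by rintro ⟨i, z⟩; simp [h2]

lemma flatMk_apply (f g : Fin 6 → Fin 6) (h1 : ∀ i, g (f i) = i) (h2 : ∀ i, f (g i) = i)
    (v : Fin 6 → ℤ) (p : Fin 6 × ℤ) : flatMk f g h1 h2 v p = (f p.1, p.2 + v (f p.1)) := rfl

def flatT : Equiv.Perm (Fin 6 × ℤ) :=
  flatMk ![1, 0, 2, 3, 5, 4] ![1, 0, 2, 3, 5, 4] (by decide) (by decide) ![1, 0, 0, 0, 0, 0]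

def flatA : Equiv.Perm (Fin 6 × ℤ) :=
  flatMk ![1, 0, 3, 2, 4, 5] ![1, 0, 3, 2, 4, 5] (by decide) (by decide) ![0, -1, 0, 1, 0, 0]

def flatB : Equiv.Perm (Fin 6 × ℤ) :=
  flatMk ![3, 2, 0, 1, 5, 4] ![2, 3, 1, 0, 5, 4] (by decide) (by decide) ![1, 0, 0, -1, 0, 0]

def flatC : Equiv.Perm (Fin 6 × ℤ) :=
  flatMk ![0, 4, 1, 5, 2, 3] ![0, 2, 4, 5, 1, 3] (by decide) (by decide) ![0, 0, 0, 0, 0, 0]

lemma flat_rel_a : flatT * flatA = flatA * flatT := by
  apply Equiv.ext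
  rintro ⟨i, z⟩
  simp only [Equiv.Perm.mul_apply, flatT, flatA, flatMk_apply]
  fin_cases i <;> simp

lemma flat_rel_b : flatT * flatB = flatB * flatA * flatT := by
  apply Equiv.ext
  rintro ⟨i, z⟩
  simp only [Equiv.Perm.mul_apply, flatT, flatA, flatB, flatMk_apply]
  fin_cases i <;> simp

lemma flat_rel_c : flatT * flatC = flatC * flatB * flatT := by
  apply Equiv.ext
  rintro ⟨i, z⟩
  simp only [Equiv.Perm.mul_apply, flatT, flatB, flatC, flatMk_apply]
  fin_cases i <;> simp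

/-- The action of `F`. -/
def flatF : F →* Equiv.Perm (Fin 6 × ℤ) := FreeGroup.lift ![flatA, flatB, flatC]

@[simp] lemma flatF_a : flatF ga = flatA := by simp [flatF, ga]
@[simp] lemma flatF_b : flatF gb = flatB := by simp [flatF, gb]
@[simp] lemma flatF_c : flatF gc = flatC := by simp [flatF, gc]

lemma flatF_phi (w : F) : flatT * flatF w * flatT⁻¹ = flatF (phi w) := by
  have h : (MulAut.conj flatT).toMonoidHom.comp flatF = flatF.comp phi.toMonoidHom := by
    apply hom_ext_F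
    · simp [flat_rel_a]
    · simp [flat_rel_b]
    · simp [flat_rel_c]
  have := DFunLike.congr_fun h w
  simpa using this

lemma flatF_phi_zpow (k : ℤ) : ∀ w : F, flatT ^ k * flatF w * (flatT ^ k)⁻¹ =
    flatF ((phi ^ k) w) := by
  induction k using Int.induction_on with
  | zero => intro w; simp
  | succ n ih =>
    intro w
    rw [zpow_add_one, zpow_add_one, MulAut.mul_apply, ← ih, ← flatF_phi]
    group
  | pred n ih =>
    intro w
    have h1 : flatF (phi⁻¹ w) = flatT⁻¹ * flatF w * flatT := by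
      have := flatF_phi (phi⁻¹ w)
      rw [MulAut.apply_inv_self] at this
      rw [← this]
      group
    rw [zpow_sub_one, zpow_sub_one, MulAut.mul_apply, ← ih, h1]
    group

/-- The action of `GG`. -/
def flatG : GG →* Equiv.Perm (Fin 6 × ℤ) where
  toFun g := flatF g.w * flatT ^ g.k
  map_one' := by simp
  map_mul' g h := by
    rw [GG.mul_w, GG.mul_k, map_mul, ← flatF_phi_zpow, zpow_add]
    group

lemma flat_disp_gen {s : GG} (hs : s ∈ SS) (x : Fin 6 × ℤ) : |(flatG s x).2 - x.2| ≤ 1 := by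
  simp only [SS, Set.mem_insert_iff, Set.mem_singleton_iff] at hs
  obtain ⟨i, z⟩ := x
  rcases hs with rfl | rfl | rfl | rfl
  · have h : flatG tt = flatT := by simp [flatG, tt]
    rw [h]
    simp only [flatT, flatMk_apply]
    fin_cases i <;> simp
  · have h : flatG xa = flatA := by simp [flatG, xa]
    rw [h]
    simp only [flatA, flatMk_apply]
    fin_cases i <;> simp
  · have h : flatG xb = flatB := by simp [flatG, xb]
    rw [h]
    simp only [flatB, flatMk_apply]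
    fin_cases i <;> simp
  · have h : flatG xc = flatC := by simp [flatG, xc]
    rw [h]
    simp only [flatC, flatMk_apply]
    fin_cases i <;> simp

lemma flat_disp_gen' {s : GG} (hs : s ∈ SS ∨ s⁻¹ ∈ SS) (x : Fin 6 × ℤ) :
    |(flatG s x).2 - x.2| ≤ 1 := by
  rcases hs with hs | hs
  · exact flat_disp_gen hs x
  · have h1 := flat_disp_gen hs (flatG s x)
    have h2 : flatG s⁻¹ (flatG s x) = x := by
      rw [← Equiv.Perm.mul_apply, ← map_mul]
      simp
    rw [h2] at h1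
    rwa [abs_sub_comm] at h1

lemma flat_disp_le (g : GG) (x : Fin 6 × ℤ) : |(flatG g x).2 - x.2| ≤ len g := by
  obtain ⟨l, hl, rfl, h1⟩ := exists_min_word closure_SS g
  change _ ≤ ((wlen SS l.prod : ℕ) : ℤ)
  rw [← h1]
  clear h1
  induction l with
  | nil => simp
  | cons a l ih =>
    have ih' := ih (fun b hb => hl b (List.mem_cons_of_mem _ hb))
    have ha := flat_disp_gen' (hl a (List.mem_cons_self)) (flatG l.prod x)
    rw [List.prod_cons, map_mul, Equiv.Perm.mul_apply]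
    have h2 : (flatG a (flatG l.prod x)).2 - x.2 =
        ((flatG a (flatG l.prod x)).2 - (flatG l.prod x).2) + ((flatG l.prod x).2 - x.2) := by ring
    rw [h2]
    have := abs_add_le ((flatG a (flatG l.prod x)).2 - (flatG l.prod x).2)
      ((flatG l.prod x).2 - x.2)
    push_cast [List.length_cons]
    linarith

lemma flatA_two (z : ℤ) : (flatA ^ 2) ((2 : Fin 6), z) = ((2 : Fin 6), z + 1) := by
  rw [pow_two, Equiv.Perm.mul_apply]
  simp [flatA, flatMk_apply]

lemma flatA_two_zpow (q z : ℤ) : ((flatA ^ 2) ^ q) ((2 : Fin 6), z) = ((2 : Fin 6), z + q) := by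
  induction q using Int.induction_on generalizing z with
  | zero => simp
  | succ n ih =>
    rw [zpow_add_one, Equiv.Perm.mul_apply, flatA_two, ih]
    congr 1
    ring
  | pred n ih =>
    rw [zpow_sub_one, Equiv.Perm.mul_apply]
    have h : (flatA ^ 2)⁻¹ ((2 : Fin 6), z) = ((2 : Fin 6), z - 1) := by
      rw [Equiv.Perm.inv_eq_iff_eq, flatA_two]
      simp
    rw [h, ih]
    congr 1
    ring

lemma flatA_disp (m : ℤ) : |m| ≤ 2 * |((flatA ^ m) ((2 : Fin 6), 0)).2| + 1 := by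
  rcases Int.even_or_odd' m with ⟨q, hq | hq⟩
  · have h1 : flatA ^ m = (flatA ^ 2) ^ q := by
      rw [hq, zpow_mul]
      rfl
    rw [h1, flatA_two_zpow, hq]
    simp only [zero_add]
    rw [abs_mul]
    norm_num
  · have h1 : flatA ^ m = flatA * (flatA ^ 2) ^ q := by
      rw [hq, add_comm, zpow_add, zpow_one, zpow_mul]
      rfl
    have h2 : ((flatA ^ m) ((2 : Fin 6), 0)).2 = q + 1 := by
      rw [h1, Equiv.Perm.mul_apply, flatA_two_zpow]
      simp [flatA, flatMk_apply]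
    rw [h2, hq]
    rcases abs_cases (2 * q + 1) with ⟨h3, h4⟩ | ⟨h3, h4⟩ <;>
      rcases abs_cases (q + 1) with ⟨h5, h6⟩ | ⟨h5, h6⟩ <;> omega

theorem flat_undistorted (m l : ℤ) :
    |m| ≤ 2 * (len (vt (ga ^ m) l) : ℤ) + 2 * |l| + 1 := by
  have h1 := flat_disp_le (vt (ga ^ m) 0) ((2 : Fin 6), 0)
  have h2 : flatG (vt (ga ^ m) 0) = flatA ^ m := by simp [flatG]
  rw [h2] at h1
  have h3 := flatA_disp m
  have h4 : vt (ga ^ m) 0 = vt (ga ^ m) l * vt 1 (-l) := by
    rw [vt_mul]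
    simp
  have h5 : len (vt (ga ^ m) 0) ≤ len (vt (ga ^ m) l) + len (vt 1 (-l)) := by
    rw [h4]
    exact wlen_mul_le closure_SS _ _
  rw [len_tt_zpow] at h5
  have h6 : ((-l).natAbs : ℤ) = |l| := by simp
  have h7 : (len (vt (ga ^ m) 0) : ℤ) ≤ (len (vt (ga ^ m) l) : ℤ) + |l| := by
    rw [← h6]
    exact_mod_cast h5
  simp only [sub_zero] at h1
  linarith

end QRPoset
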