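import Mathlib
import Pool.Agent.QRPoset.Words

/-!
# First letters of reduced words
-/

namespace QRPoset

/-- The first letter of the reduced word of `w`. -/
def FL (w : F) : Option (Fin 3 × Bool) := w.toWord.head?

/-- The element of `F` given by a letter. -/
def lt (x : Fin 3 × Bool) : F := FreeGroup.mk [x]

/-- The inverse letter. -/
def li (x : Fin 3 × Bool) : Fin 3 × Bool := (x.1, !x.2)

@[simp] lemma li_li (x : Fin 3 × Bool) : li (li x) = x := by
  rcases x with ⟨i, b⟩; simp [li]

lemma lt_li (x : Fin 3 × Bool) : lt (li x) = (lt x)⁻¹ := by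
  rcases x with ⟨i, b⟩
  simp [lt, li, FreeGroup.invRev]

lemma ga_eq : ga = lt (0, true) := rfl
lemma gb_eq : gb = lt (1, true) := rfl
lemma gc_eq : gc = lt (2, true) := rfl
lemma ga_inv_eq : ga⁻¹ = lt (0, false) := rfl
lemma gb_inv_eq : gb⁻¹ = lt (1, false) := rfl
lemma gc_inv_eq : gc⁻¹ = lt (2, false) := rfl

@[simp] lemma FL_one : FL 1 = none := by simp [FL]

lemma FL_eq_none {w : F} : FL w = none ↔ w = 1 := by
  rw [FL, List.head?_eq_none_iff, FreeGroup.toWord_eq_nil_iff]

lemma toWord_lt_mul (x : Fin 3 × Bool) (y : F) (h : FL y ≠ some (li x)) :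
    (lt x * y).toWord = x :: y.toWord := by
  rw [FreeGroup.toWord_mul]
  have h1 : (lt x).toWord = [x] := by simp [lt, FreeGroup.toWord_mk]
  rw [h1]
  have h2 : FreeGroup.reduce y.toWord = y.toWord := FreeGroup.reduce_toWord y
  rw [List.singleton_append, FreeGroup.reduce.cons, h2]
  rcases hy : y.toWord with _ | ⟨z, l⟩
  · rfl
  · simp only
    rw [if_neg]
    rintro ⟨h3, h4⟩
    apply h
    rw [FL, hy, List.head?_cons]
    congr 1
    rcases x with ⟨i, b⟩
    rcases z with ⟨j, d⟩
    simp only at h3 h4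
    subst h3
    simp [li, h4]

/-- First letter after a left multiplication without cancellation. -/
lemma FL_lt_mul (x : Fin 3 × Bool) (y : F) (h : FL y ≠ some (li x)) :
    FL (lt x * y) = some x := by
  rw [FL, toWord_lt_mul x y h, List.head?_cons]

@[simp] lemma FL_lt (x : Fin 3 × Bool) : FL (lt x) = some x := by
  have := FL_lt_mul x 1 (by simp)
  simpa using this

/-- Splitting off the first letter. -/
lemma exists_of_FL {w : F} {x : Fin 3 × Bool} (h : FL w = some x) :
    ∃ y : F, w = lt x * y ∧ FL y ≠ some (li x) ∧ y.toWord.length + 1 = w.toWord.length := by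
  refine ⟨(lt x)⁻¹ * w, by group, ?_, ?_⟩
  · intro h2
    -- then `w` would have a non reduced word
    have hw : w.toWord = x :: w.toWord.tail := by
      rw [FL] at h
      rw [List.head?_eq_some_iff] at h
      obtain ⟨l, hl⟩ := h
      rw [hl]; rfl
    have hred : FreeGroup.IsReduced w.toWord := FreeGroup.isReduced_toWord
    have hy : ((lt x)⁻¹ * w) = FreeGroup.mk w.toWord.tail := by
      rw [inv_mul_eq_iff_eq_mul, lt, FreeGroup.mul_mk, List.singleton_append, ← hw,
        FreeGroup.mk_toWord]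
    have hred2 : FreeGroup.IsReduced w.toWord.tail := by
      rw [hw] at hred
      exact (List.isChain_cons.1 hred).2
    have hy2 : ((lt x)⁻¹ * w).toWord = w.toWord.tail := by
      rw [hy, FreeGroup.toWord_mk]
      exact FreeGroup.IsReduced.reduce_eq hred2
    rw [FL, hy2, List.head?_eq_some_iff] at h2
    obtain ⟨l, hl⟩ := h2
    rw [hw, hl] at hred
    have := (List.isChain_cons_cons.1 hred).1
    simp [li] at this
  · have hw : w.toWord = x :: w.toWord.tail := by
      rw [FL] at h
      rw [List.head?_eq_some_iff] at h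
      obtain ⟨l, hl⟩ := h
      rw [hl]; rfl
    have hred : FreeGroup.IsReduced w.toWord := FreeGroup.isReduced_toWord
    have hy : ((lt x)⁻¹ * w) = FreeGroup.mk w.toWord.tail := by
      rw [inv_mul_eq_iff_eq_mul, lt, FreeGroup.mul_mk, List.singleton_append, ← hw,
        FreeGroup.mk_toWord]
    have hred2 : FreeGroup.IsReduced w.toWord.tail := by
      rw [hw] at hred
      exact (List.isChain_cons.1 hred).2
    have hy2 : ((lt x)⁻¹ * w).toWord = w.toWord.tail := by
      rw [hy, FreeGroup.toWord_mk]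
      exact FreeGroup.IsReduced.reduce_eq hred2
    rw [hy2]
    conv_rhs => rw [hw]
    simp

/-- The first letter is not changed by right multiplication with a letter, unless one of the two
elements is trivial. -/
lemma FL_mul_lt (w : F) (x : Fin 3 × Bool) (h1 : w ≠ 1) (h2 : w * lt x ≠ 1) :
    FL (w * lt x) = FL w := by
  induction hn : w.toWord.length using Nat.strong_induction_on generalizing w with
  | _ n ih =>
    obtain ⟨z, hz⟩ : ∃ z, FL w = some z := by
      rcases h : FL w with _ | z
      · exact absurd (FL_eq_none.1 h) h1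
      · exact ⟨z, rfl⟩
    obtain ⟨y, rfl, hy, hlen⟩ := exists_of_FL hz
    rw [hz, mul_assoc]
    apply FL_lt_mul
    by_cases hy1 : y = 1
    · subst hy1
      rw [one_mul, FL_lt]
      intro h
      apply h2
      rw [Option.some.injEq] at h
      rw [h, mul_one, lt_li]
      group
    · by_cases hy2 : y * lt x = 1
      · rw [hy2]; simp
      · rw [ih _ (by omega) y hy1 hy2 rfl]
        exact hy

lemma FL_mul_of {w : F} {x y : Fin 3 × Bool} (h : FL w = some x) (hxy : x ≠ li y) :
    FL (w * lt y) = some x := by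
  rw [FL_mul_lt w y, h]
  · rintro rfl
    simp at h
  · intro h2
    have : w = lt (li y) := by rw [lt_li]; exact eq_inv_of_mul_eq_one_left h2
    rw [this, FL_lt] at h
    exact hxy (Option.some.inj h).symm

/-- No letter `c` occurs in the reduced word. -/
def NoC (w : F) : Prop := ∀ x ∈ w.toWord, x.1 ≠ 2

lemma NoC.one : NoC 1 := by intro x hx; simp at hx

lemma NoC.mul {v w : F} (hv : NoC v) (hw : NoC w) : NoC (v * w) := by
  intro x hx
  have := (FreeGroup.toWord_mul_sublist v w).subset hx
  rcases List.mem_append.1 this with h | h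
  · exact hv x h
  · exact hw x h

lemma NoC.inv {v : F} (hv : NoC v) : NoC v⁻¹ := by
  intro x hx
  rw [FreeGroup.toWord_inv, FreeGroup.invRev] at hx
  simp only [List.mem_reverse, List.mem_map] at hx
  obtain ⟨y, hy, rfl⟩ := hx
  exact hv y hy

lemma NoC.ga : NoC ga := by
  intro x hx
  rw [QRPoset.ga, FreeGroup.toWord_of] at hx
  simp at hx
  subst hx
  simp

lemma NoC.gb : NoC gb := by
  intro x hx
  rw [QRPoset.gb, FreeGroup.toWord_of] at hx
  simp at hx
  subst hx
  simp

lemma NoC.pow {v : F} (hv : NoC v) (n : ℕ) : NoC (v ^ n) := by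
  induction n with
  | zero => simpa using NoC.one
  | succ n ih => rw [pow_succ]; exact ih.mul hv

lemma NoC.zpow {v : F} (hv : NoC v) (n : ℤ) : NoC (v ^ n) := by
  obtain ⟨m, rfl | rfl⟩ := n.eq_nat_or_neg
  · rw [zpow_natCast]; exact hv.pow m
  · rw [zpow_neg, zpow_natCast]; exact (hv.pow m).inv

lemma NoC.U (k : ℤ) : NoC (U k) := by
  induction k using Int.induction_on with
  | zero => simpa using NoC.one
  | succ n ih => rw [U_succ]; exact ih.mul (NoC.gb.mul (NoC.ga.zpow _))
  | pred n ih =>
    have h1 : QRPoset.U (-(n : ℤ) - 1) =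
        QRPoset.U (-(n : ℤ)) * (QRPoset.gb * QRPoset.ga ^ (-(n : ℤ) - 1))⁻¹ := by
      rw [eq_mul_inv_iff_mul_eq, ← U_succ]; congr 1; ring
    rw [h1]
    exact ih.mul (NoC.gb.mul (NoC.ga.zpow _)).inv

lemma NoC.FL_ne {w : F} (h : NoC w) {x : Fin 3 × Bool} (hx : FL w = some x) : x.1 ≠ 2 := by
  apply h
  rw [FL] at hx
  exact List.mem_of_head? hx

lemma FL_mul_noC {y : F} (hy : NoC y) {z : F} {b : Bool} (hz : FL z = some (2, b)) :
    FL (z * y) = some (2, b) := by
  induction hn : y.toWord.length using Nat.strong_induction_on generalizing y z with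
  | _ n ih =>
    rcases h : FL y with _ | x
    · rw [FL_eq_none.1 h, mul_one, hz]
    · obtain ⟨y', rfl, hy', hlen⟩ := exists_of_FL h
      have hx : x.1 ≠ 2 := hy.FL_ne h
      have hw := toWord_lt_mul x y' hy'
      have hy'' : NoC y' := by
        intro u hu
        apply hy
        rw [hw]
        exact List.mem_cons_of_mem _ hu
      rw [← mul_assoc]
      refine ih _ (by omega) hy'' ?_ rfl
      apply FL_mul_of hz
      rcases x with ⟨i, e⟩
      simp only [li, ne_eq, Prod.mk.injEq, not_and]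
      intro h2
      exact absurd h2.symm hx

/-- first letters `b, c` are not affected by powers of `a` on the right -/
lemma FL_mul_apow {z : F} {x : Fin 3 × Bool} (hx : x.1 ≠ 0) (h : FL z = some x) (k : ℤ) :
    FL (z * ga ^ k) = some x := by
  induction k using Int.induction_on with
  | zero => simpa using h
  | succ n ih =>
    rw [zpow_add_one, ← mul_assoc, ga_eq]
    apply FL_mul_of ih
    intro h'; apply hx; rw [h']; rfl
  | pred n ih =>
    rw [zpow_sub_one, ← mul_assoc, ga_inv_eq]
    apply FL_mul_of ih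
    intro h'; apply hx; rw [h']; rfl

lemma FL_apow_mul_nat {y : F} (h : FL y ≠ some (0, false)) (n : ℕ) :
    FL (ga ^ (n + 1) * y) = some (0, true) := by
  induction n with
  | zero =>
    rw [zero_add, pow_one, ga_eq]
    exact FL_lt_mul _ _ h
  | succ n ih =>
    rw [pow_succ', mul_assoc, ga_eq]
    apply FL_lt_mul
    rw [← ga_eq, ih]
    simp [li]

lemma FL_ainvpow_mul_nat {y : F} (h : FL y ≠ some (0, true)) (n : ℕ) :
    FL (ga⁻¹ ^ (n + 1) * y) = some (0, false) := by
  induction n with
  | zero =>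
    rw [zero_add, pow_one, ga_inv_eq]
    exact FL_lt_mul _ _ h
  | succ n ih =>
    rw [pow_succ', mul_assoc, ga_inv_eq]
    apply FL_lt_mul
    rw [← ga_inv_eq, ih]
    simp [li]

lemma FL_apow_mul {y : F} {x : Fin 3 × Bool} (hx : x.1 ≠ 0) (h : FL y = some x) (k : ℤ) :
    FL (ga ^ k * y) = some x ∨ ∃ e, FL (ga ^ k * y) = some (0, e) := by
  have h1 : ∀ e, FL y ≠ some (0, e) := by
    intro e he
    rw [h] at he
    apply hx
    rw [Option.some.inj he]
  obtain ⟨m, rfl | rfl⟩ := k.eq_nat_or_neg
  · rcases m with _ | m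
    · left; simpa using h
    · right
      exact ⟨true, by rw [zpow_natCast]; exact FL_apow_mul_nat (h1 _) m⟩
  · rcases m with _ | m
    · left; simpa using h
    · right
      exact ⟨false, by
        rw [zpow_neg, zpow_natCast, ← inv_pow]; exact FL_ainvpow_mul_nat (h1 _) m⟩

lemma FL_apow_ne (k : ℤ) {x : Fin 3 × Bool} (hx : x.1 ≠ 0) : FL (ga ^ k) ≠ some x := by
  obtain ⟨m, rfl | rfl⟩ := k.eq_nat_or_neg
  · rcases m with _ | m
    · simp
    · have := FL_apow_mul_nat (y := 1) (by simp) m
      rw [mul_one] at this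
      rw [zpow_natCast, this]
      intro h; apply hx; rw [← Option.some.inj h]
  · rcases m with _ | m
    · simp
    · have := FL_ainvpow_mul_nat (y := 1) (by simp) m
      rw [mul_one] at this
      rw [zpow_neg, zpow_natCast, ← inv_pow, this]
      intro h; apply hx; rw [← Option.some.inj h]

/-! ### the edges of type `c` -/

lemma FL_gc_mul {y : F} : FL (gc * y) = some (2, true) ↔ FL y ≠ some (2, false) := by
  constructor
  · intro h h2
    obtain ⟨z, rfl, hz, -⟩ := exists_of_FL h2
    have : gc * (lt (2, false) * z) = z := by rw [← gc_inv_eq]; group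
    rw [this] at h
    exact hz h
  · intro h
    exact FL_lt_mul _ _ h

lemma FL_gc_zpow (n : ℤ) : FL (gc ^ n) = some (2, true) ↔ 0 < n := by
  have h1 : ∀ m : ℕ, FL (gc ^ (m + 1)) = some (2, true) := by
    intro m
    induction m with
    | zero => rw [zero_add, pow_one, gc_eq]; exact FL_lt _
    | succ m ih =>
      rw [pow_succ', FL_gc_mul, ih]; simp
  have h2 : ∀ m : ℕ, FL (gc⁻¹ ^ (m + 1)) = some (2, false) := by
    intro m
    induction m with
    | zero => rw [zero_add, pow_one, gc_inv_eq]; exact FL_lt _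
    | succ m ih =>
      rw [pow_succ', gc_inv_eq]
      apply FL_lt_mul
      rw [← gc_inv_eq, ih]; simp [li]
  obtain ⟨m, rfl | rfl⟩ := n.eq_nat_or_neg
  · rcases m with _ | m
    · simp
    · rw [zpow_natCast, h1]; simp
  · rcases m with _ | m
    · simp
    · rw [zpow_neg, zpow_natCast, ← inv_pow, h2]
      simp

/-! ### the edges of type `b` on the axis of `b t` -/

/-- `w` is beyond the edge `(U j, U j * b)`. -/
def Bey (j : ℤ) (w : F) : Prop := FL ((U j)⁻¹ * w) = some (1, true)

lemma Bey_mul_apow (j : ℤ) (w : F) (k : ℤ) : Bey j (w * ga ^ k) ↔ Bey j w := by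
  unfold Bey
  constructor
  · intro h
    have := FL_mul_apow (x := (1, true)) (by simp) h (-k)
    rw [mul_assoc, mul_assoc, zpow_neg, mul_inv_cancel, mul_one] at this
    exact this
  · intro h
    rw [← mul_assoc]
    exact FL_mul_apow (by simp) h k

/-- Crossing a `b`-edge. -/
lemma Bey_mul_b (j : ℤ) (w : F) (k : ℤ) (h : w ≠ U j) :
    Bey j (w * (gb * ga ^ k)) ↔ Bey j w := by
  rw [← mul_assoc, Bey_mul_apow]
  unfold Bey
  rw [← mul_assoc]
  have hz : (U j)⁻¹ * w ≠ 1 := by
    intro h'
    apply h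
    exact (inv_mul_eq_one.1 h').symm
  by_cases h2 : (U j)⁻¹ * w * gb = 1
  · have h3 : (U j)⁻¹ * w = lt (1, false) := by
      rw [← gb_inv_eq]; exact eq_inv_of_mul_eq_one_left h2
    rw [h2, h3, FL_lt]
    simp
  · rw [gb_eq] at h2 ⊢
    rw [FL_mul_lt _ _ hz h2]

lemma Bey_succ (j : ℤ) {w : F} (h : Bey (j + 1) w) : Bey j w := by
  unfold Bey at *
  have h1 : (U j)⁻¹ * w = gb * (ga ^ j * ((U (j + 1))⁻¹ * w)) := by
    rw [U_succ]; group
  rw [h1, gb_eq]
  apply FL_lt_mul
  rcases FL_apow_mul (x := (1, true)) (by simp) h j with h2 | ⟨e, h2⟩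
  · rw [h2]; simp [li]
  · rw [h2]; simp [li]

lemma Bey_U_self (j : ℤ) : Bey j (U (j + 1)) := by
  unfold Bey
  rw [U_succ, ← mul_assoc, inv_mul_cancel, one_mul]
  exact FL_mul_apow (by simp) (by rw [gb_eq]; exact FL_lt _) j

lemma Bey_U_of_lt {j l : ℤ} (h : j < l) : Bey j (U l) := by
  obtain ⟨m, rfl⟩ : ∃ m : ℕ, l = j + 1 + m := ⟨(l - j - 1).toNat, by omega⟩
  clear h
  induction m generalizing j with
  | zero => simpa using Bey_U_self j
  | succ m ih =>
    apply Bey_succ
    have := ih (j := j + 1)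
    have h2 : j + 1 + ((m + 1 : ℕ) : ℤ) = j + 1 + 1 + m := by push_cast; ring
    rw [h2]
    exact this

lemma not_Bey_U_of_le {j l : ℤ} (h : l ≤ j) : ¬ Bey j (U l) := by
  obtain ⟨m, rfl⟩ : ∃ m : ℕ, j = l + m := ⟨(j - l).toNat, by omega⟩
  clear h
  induction m with
  | zero => simp [Bey]
  | succ m ih =>
    intro h
    unfold Bey at *
    have h1 : (U (l + ((m + 1 : ℕ) : ℤ)))⁻¹ * U l =
        ga ^ (-(l + (m : ℤ))) * (gb⁻¹ * ((U (l + m))⁻¹ * U l)) := by
      have : l + ((m + 1 : ℕ) : ℤ) = l + m + 1 := by push_cast; ring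
      rw [this, U_succ]
      group
    rw [h1] at h
    have h2 : FL (gb⁻¹ * ((U (l + m))⁻¹ * U l)) = some (1, false) := by
      rw [gb_inv_eq]
      exact FL_lt_mul _ _ (by simpa [li] using ih)
    rcases FL_apow_mul (x := (1, false)) (by simp) h2 (-(l + (m : ℤ))) with h3 | ⟨e, h3⟩
    · rw [h3] at h; simp at h
    · rw [h3] at h; simp at h

lemma Bey_one {j : ℤ} : Bey j 1 ↔ j < 0 := by
  rw [← U_zero]
  constructor
  · intro h
    by_contra h2
    exact not_Bey_U_of_le (by omega) h
  · exact Bey_U_of_lt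

lemma Bey_U {j l : ℤ} : Bey j (U l) ↔ j < l := by
  constructor
  · intro h
    by_contra h2
    exact not_Bey_U_of_le (by omega) h
  · exact Bey_U_of_lt

/-! ### exponent sums of `U` -/

lemma expo1_U (i : ℤ) : (expo 1 (U i)).toAdd = i := by
  induction i using Int.induction_on with
  | zero => simp
  | succ n ih => rw [U_succ, map_mul, toAdd_mul, ih]; simp
  | pred n ih =>
    have h1 : U (-(n : ℤ)) = U (-(n : ℤ) - 1) * (gb * ga ^ (-(n : ℤ) - 1)) := by
      rw [← U_succ]; congr 1; ring
    rw [h1, map_mul, toAdd_mul] at ih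
    simp at ih
    linarith

lemma expo0_U (i : ℤ) : 2 * (expo 0 (U i)).toAdd = i * (i - 1) := by
  induction i using Int.induction_on with
  | zero => simp
  | succ n ih =>
    rw [U_succ, map_mul, toAdd_mul]
    simp
    linarith
  | pred n ih =>
    have h1 : U (-(n : ℤ)) = U (-(n : ℤ) - 1) * (gb * ga ^ (-(n : ℤ) - 1)) := by
      rw [← U_succ]; congr 1; ring
    rw [h1, map_mul, toAdd_mul] at ih
    simp at ih
    linarith

end QRPoset
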