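import Mathlib
import Pool.Agent.QRPoset.First

/-!
# Following a path relative to the piece `⟨a, b, t⟩`
-/

namespace QRPoset

/-- Points at distance at most one. -/
lemma exists_gen_of_gd_le_one {g h : GG} (hgh : gd g h ≤ 1) :
    h = g ∨ ∃ s, (s ∈ SS ∨ s⁻¹ ∈ SS) ∧ h = g * s := by
  obtain ⟨l, hl, hp, hlen⟩ := exists_min_word closure_SS (g⁻¹ * h)
  have h1 : l.length ≤ 1 := by rw [hlen]; exact hgh
  rcases l with _ | ⟨s, _ | ⟨s', l⟩⟩
  · left
    simp only [List.prod_nil] at hp
    exact (inv_mul_eq_one.1 hp.symm).symm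
  · right
    refine ⟨s, hl s (by simp), ?_⟩
    simp only [List.prod_cons, List.prod_nil, mul_one] at hp
    rw [hp]; group
  · simp at h1

/-- All the possible steps. -/
lemma step_cases {g h : GG} (hgh : gd g h ≤ 1) :
    (h.w = g.w ∧ |h.k - g.k| ≤ 1) ∨
    (h.k = g.k ∧ ∃ y, NoC y ∧ h.w = g.w * y ∧
      (y = ga ∨ y = ga⁻¹ ∨ y = gb * ga ^ g.k ∨ y = (gb * ga ^ g.k)⁻¹)) ∨
    (h.k = g.k ∧ h.w = g.w * (gc * U g.k)) ∨
    (h.k = g.k ∧ h.w = g.w * ((U g.k)⁻¹ * gc⁻¹)) := by
  rcases exists_gen_of_gd_le_one hgh with rfl | ⟨s, hs, rfl⟩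
  · left; simp
  · rcases hs with hs | hs
    · simp only [SS, Set.mem_insert_iff, Set.mem_singleton_iff] at hs
      rcases hs with rfl | rfl | rfl | rfl
      · left; simp [tt]
      · right; left
        refine ⟨by simp [xa], ga, NoC.ga, by simp [xa], Or.inl rfl⟩
      · right; left
        refine ⟨by simp [xb], gb * ga ^ g.k, NoC.gb.mul (NoC.ga.zpow _), by simp [xb],
          Or.inr (Or.inr (Or.inl rfl))⟩
      · right; right; left
        refine ⟨by simp [xc], ?_⟩
        simp [xc, phi_zpow_c]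
    · have hs' : s = tt⁻¹ ∨ s = xa⁻¹ ∨ s = xb⁻¹ ∨ s = xc⁻¹ := by
        simp only [SS, Set.mem_insert_iff, Set.mem_singleton_iff] at hs
        rcases hs with h | h | h | h
        · left; rw [← h, inv_inv]
        · right; left; rw [← h, inv_inv]
        · right; right; left; rw [← h, inv_inv]
        · right; right; right; rw [← h, inv_inv]
      rcases hs' with rfl | rfl | rfl | rfl
      · left; simp [tt]
      · right; left
        refine ⟨by simp [xa], ga⁻¹, NoC.ga.inv, by simp [xa], Or.inr (Or.inl rfl)⟩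
      · right; left
        refine ⟨by simp [xb], (gb * ga ^ g.k)⁻¹, (NoC.gb.mul (NoC.ga.zpow _)).inv, ?_,
          Or.inr (Or.inr (Or.inr rfl))⟩
        simp only [xb, GG.mul_w, GG.inv_w, neg_zero, zpow_zero, MulAut.one_apply, map_inv,
          phi_zpow_b]
      · right; right; right
        refine ⟨by simp [xc], ?_⟩
        simp only [xc, GG.mul_w, GG.inv_w, neg_zero, zpow_zero, MulAut.one_apply, map_inv,
          phi_zpow_c, mul_inv_rev]

/-- Crossing the `c`-edge from `1` to `c`. -/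
theorem cross_c {g h : GG} (hgh : gd g h ≤ 1) (hg : FL g.w = some (2, true))
    (hh : FL h.w ≠ some (2, true)) : ∃ l : ℤ, g = vt (gc * U l) l ∧ h = vt 1 l := by
  rcases step_cases hgh with ⟨h1, -⟩ | ⟨-, y, hy, h1, -⟩ | ⟨-, h1⟩ | ⟨h0, h1⟩
  · rw [h1] at hh; exact absurd hg hh
  · rw [h1, FL_mul_noC hy hg] at hh; exact absurd rfl hh
  · exfalso
    apply hh
    rw [h1, ← mul_assoc]
    apply FL_mul_noC (NoC.U _)
    rw [gc_eq]
    exact FL_mul_of hg (by simp [li])
  · have h2 : FL (g.w * (U g.k)⁻¹) = some (2, true) := FL_mul_noC (NoC.U _).inv hg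
    rw [← mul_assoc] at h1
    by_cases h3 : g.w * (U g.k)⁻¹ * gc⁻¹ = 1
    · refine ⟨g.k, ?_, ?_⟩
      · ext1
        · simp only [vt_w]
          calc g.w = g.w * (U g.k)⁻¹ * gc⁻¹ * (gc * U g.k) := by group
            _ = gc * U g.k := by rw [h3, one_mul]
        · rfl
      · ext1
        · simp only [vt_w]; rw [h1, h3]
        · exact h0
    · exfalso
      apply hh
      rw [h1, gc_inv_eq, FL_mul_lt _ _ ?_ (by rwa [gc_inv_eq] at h3), h2]
      rintro h4
      rw [h4] at h2
      simp at h2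

/-- Where a point is relative to the piece. -/
inductive Mode : Type
  | inn : Mode
  | outP : F → Mode
  | outM : F → Mode

/-- The point `g` is in the given mode. -/
def Ok (g : GG) : Mode → Prop
  | .inn => NoC g.w
  | .outP u => NoC u ∧ FL (u⁻¹ * g.w) = some (2, true)
  | .outM v => NoC v ∧ FL (v⁻¹ * g.w) = some (2, false)

/-- The retraction to the piece. -/
def ret (g : GG) : Mode → GG
  | .inn => g
  | .outP u => vt u g.k
  | .outM v => vt (v * U g.k) g.k

lemma ret_k (g : GG) (m : Mode) : (ret g m).k = g.k := by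
  cases m <;> rfl

/-- The transitions. -/
def Tr (g : GG) (m : Mode) (h : GG) (m' : Mode) : Prop :=
  (m = .inn ∧ m' = .inn ∧ ((h.w = g.w ∧ |h.k - g.k| ≤ 1) ∨ (h.k = g.k ∧
      (h.w = g.w * ga ∨ h.w = g.w * ga⁻¹ ∨ h.w = g.w * (gb * ga ^ g.k) ∨
        h.w = g.w * (gb * ga ^ g.k)⁻¹)))) ∨
  (m' = m ∧ m ≠ .inn ∧ |h.k - g.k| ≤ 1) ∨
  (m = .inn ∧ m' ≠ .inn ∧ ret g m = ret h m' ∧ h.k = g.k) ∨
  (m ≠ .inn ∧ m' = .inn ∧ ret g m = ret h m' ∧ h.k = g.k)

lemma exists_tr {g h : GG} (hgh : gd g h ≤ 1) {m : Mode} (hm : Ok g m) :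
    ∃ m', Ok h m' ∧ Tr g m h m' := by
  rcases step_cases hgh with ⟨h1, h2⟩ | ⟨h0, y, hy, h1, h2⟩ | ⟨h0, h1⟩ | ⟨h0, h1⟩
  · refine ⟨m, ?_, ?_⟩
    · cases m <;> simpa [Ok, h1] using hm
    · cases m with
      | inn => left; exact ⟨rfl, rfl, Or.inl ⟨h1, h2⟩⟩
      | outP u => right; left; exact ⟨rfl, by simp, h2⟩
      | outM u => right; left; exact ⟨rfl, by simp, h2⟩
  · refine ⟨m, ?_, ?_⟩
    · cases m with
      | inn =>
        simp only [Ok] at hm ⊢
        rw [h1]; exact hm.mul hy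
      | outP u =>
        simp only [Ok] at hm ⊢
        refine ⟨hm.1, ?_⟩
        rw [h1, ← mul_assoc]
        exact FL_mul_noC hy hm.2
      | outM u =>
        simp only [Ok] at hm ⊢
        refine ⟨hm.1, ?_⟩
        rw [h1, ← mul_assoc]
        exact FL_mul_noC hy hm.2
    · cases m with
      | inn =>
        left
        refine ⟨rfl, rfl, Or.inr ⟨h0, ?_⟩⟩
        rcases h2 with rfl | rfl | rfl | rfl
        · left; exact h1
        · right; left; exact h1
        · right; right; left; exact h1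
        · right; right; right; exact h1
      | outP u => right; left; exact ⟨rfl, by simp, by rw [h0]; simp⟩
      | outM u => right; left; exact ⟨rfl, by simp, by rw [h0]; simp⟩
  · cases m with
    | inn =>
      refine ⟨.outP g.w, ⟨hm, ?_⟩, ?_⟩
      · rw [h1, inv_mul_cancel_left, FL_gc_mul]
        intro h3
        exact (NoC.U g.k).FL_ne h3 rfl
      · right; right; left
        refine ⟨rfl, by simp, ?_, h0⟩
        simp only [ret]
        rw [h0]; rfl
    | outP u =>
      refine ⟨.outP u, ⟨hm.1, ?_⟩, ?_⟩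
      · rw [h1, ← mul_assoc, ← mul_assoc]
        apply FL_mul_noC (NoC.U _)
        rw [gc_eq]
        exact FL_mul_of hm.2 (by simp [li])
      · right; left; exact ⟨rfl, by simp, by rw [h0]; simp⟩
    | outM v =>
      by_cases h3 : v⁻¹ * g.w * gc = 1
      · have h4 : h.w = v * U g.k := by
          rw [h1]
          calc g.w * (gc * U g.k) = v * (v⁻¹ * g.w * gc) * U g.k := by group
            _ = v * U g.k := by rw [h3, mul_one]
        refine ⟨.inn, ?_, ?_⟩
        · simp only [Ok]; rw [h4]; exact hm.1.mul (NoC.U _)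
        · right; right; right
          refine ⟨by simp, rfl, ?_, h0⟩
          simp only [ret]
          ext1
          · simp [h4]
          · simp [h0]
      · refine ⟨.outM v, ⟨hm.1, ?_⟩, ?_⟩
        · rw [h1, ← mul_assoc, ← mul_assoc]
          apply FL_mul_noC (NoC.U _)
          rw [gc_eq] at h3 ⊢
          rw [FL_mul_lt _ _ ?_ h3]
          · exact hm.2
          · intro h5
            have := hm.2
            rw [h5] at this
            simp at this
        · right; left; exact ⟨rfl, by simp, by rw [h0]; simp⟩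
  · cases m with
    | inn =>
      refine ⟨.outM (g.w * (U g.k)⁻¹), ⟨?_, ?_⟩, ?_⟩
      · exact NoC.mul hm (NoC.U _).inv
      · rw [h1]
        have : (g.w * (U g.k)⁻¹)⁻¹ * (g.w * ((U g.k)⁻¹ * gc⁻¹)) = gc⁻¹ := by group
        rw [this, gc_inv_eq, FL_lt]
      · right; right; left
        refine ⟨rfl, by simp, ?_, h0⟩
        simp only [ret]
        ext1
        · simp [h0]
        · simp [h0]
    | outP u =>
      have h2 : FL (u⁻¹ * g.w * (U g.k)⁻¹) = some (2, true) := FL_mul_noC (NoC.U _).inv hm.2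
      by_cases h3 : u⁻¹ * g.w * (U g.k)⁻¹ * gc⁻¹ = 1
      · have h4 : h.w = u := by
          rw [h1]
          calc g.w * ((U g.k)⁻¹ * gc⁻¹) = u * (u⁻¹ * g.w * (U g.k)⁻¹ * gc⁻¹) := by group
            _ = u := by rw [h3, mul_one]
        refine ⟨.inn, ?_, ?_⟩
        · simp only [Ok]; rw [h4]; exact hm.1
        · right; right; right
          refine ⟨by simp, rfl, ?_, h0⟩
          simp only [ret]
          ext1
          · simp [h4]
          · simp [h0]
      · refine ⟨.outP u, ⟨hm.1, ?_⟩, ?_⟩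
        · rw [h1, ← mul_assoc, ← mul_assoc]
          rw [gc_inv_eq] at h3 ⊢
          rw [FL_mul_lt _ _ ?_ h3]
          · exact h2
          · intro h5
            rw [h5] at h2
            simp at h2
        · right; left; exact ⟨rfl, by simp, by rw [h0]; simp⟩
    | outM v =>
      refine ⟨.outM v, ⟨hm.1, ?_⟩, ?_⟩
      · have h2 : FL (v⁻¹ * g.w * (U g.k)⁻¹) = some (2, false) := FL_mul_noC (NoC.U _).inv hm.2
        rw [h1, ← mul_assoc, ← mul_assoc, gc_inv_eq]
        exact FL_mul_of h2 (by simp [li])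
      · right; left; exact ⟨rfl, by simp, by rw [h0]; simp⟩

/-- Following a path. -/
lemma exists_modes (p : ℕ → GG) (A B : ℕ)
    (hstep : ∀ n, A ≤ n → n < B → gd (p n) (p (n + 1)) ≤ 1) (hA : NoC (p A).w) :
    ∃ m : ℕ → Mode, m A = .inn ∧ (∀ n, A ≤ n → n ≤ B → Ok (p n) (m n)) ∧
      ∀ n, A ≤ n → n < B → Tr (p n) (m n) (p (n + 1)) (m (n + 1)) := by
  classical
  have key : ∀ n : ℕ, ∀ m : Mode, ∃ m' : Mode, gd (p (A + n)) (p (A + n + 1)) ≤ 1 →
      Ok (p (A + n)) m → Ok (p (A + n + 1)) m' ∧ Tr (p (A + n)) m (p (A + n + 1)) m' := by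
    intro n m
    by_cases h : gd (p (A + n)) (p (A + n + 1)) ≤ 1 ∧ Ok (p (A + n)) m
    · obtain ⟨m', h1, h2⟩ := exists_tr h.1 h.2
      exact ⟨m', fun _ _ => ⟨h1, h2⟩⟩
    · exact ⟨m, fun h1 h2 => absurd ⟨h1, h2⟩ h⟩
  choose nx hnx using key
  let f : ℕ → Mode := fun n => Nat.rec Mode.inn (fun n m => nx n m) n
  have f0 : f 0 = .inn := rfl
  have fs : ∀ n, f (n + 1) = nx n (f n) := fun n => rfl
  have hok : ∀ n, A + n ≤ B → Ok (p (A + n)) (f n) := by
    intro n
    induction n with
    | zero => intro _; exact hA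
    | succ n ih =>
      intro hn
      rw [fs]
      exact (hnx n (f n) (hstep _ (by omega) (by omega)) (ih (by omega))).1
  have htr : ∀ n, A + n < B → Tr (p (A + n)) (f n) (p (A + n + 1)) (f (n + 1)) := by
    intro n hn
    rw [fs]
    exact (hnx n (f n) (hstep _ (by omega) (by omega)) (hok n (by omega))).2
  refine ⟨fun n => f (n - A), by simp [f0], ?_, ?_⟩
  · intro n h1 h2
    have := hok (n - A) (by omega)
    rwa [show A + (n - A) = n by omega] at this
  · intro n h1 h2
    have := htr (n - A) (by omega)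
    rw [show A + (n - A) = n by omega] at this
    show Tr (p n) (f (n - A)) (p (n + 1)) (f (n + 1 - A))
    rw [show n + 1 - A = n - A + 1 by omega]
    exact this

end QRPoset
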