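import Mathlib
import Pool.Agent.QRPoset.Track
import Pool.Agent.QRPoset.Flat

/-!
# The chain lemma
-/

namespace QRPoset

/-- A path together with its modes. -/
structure Tracked (p : ℕ → GG) (A B : ℕ) (m : ℕ → Mode) : Prop where
  step : ∀ n, A ≤ n → n < B → gd (p n) (p (n + 1)) ≤ 1
  ok : ∀ n, A ≤ n → n ≤ B → Ok (p n) (m n)
  tr : ∀ n, A ≤ n → n < B → Tr (p n) (m n) (p (n + 1)) (m (n + 1))
  dom : ∀ n, A ≤ n → n ≤ B → m n ≠ .outM 1

lemma gd_eq (g h : GG) : gd g h = len (g⁻¹ * h) := rfl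

lemma len_xbt_zpow (n : ℤ) : len ((xb * tt) ^ n) ≤ 2 * n.natAbs := by
  have h2 := wlen_zpow_le closure_SS (xb * tt) n
  have h3 : wlen SS (xb * tt) ≤ 2 := by
    have := wlen_mul_le closure_SS xb tt
    have h4 := wlen_gen_le (S := SS) (Or.inl mem_SS_tt)
    have h5 := wlen_gen_le (S := SS) (Or.inl mem_SS_xb)
    omega
  have h5 : n.natAbs * wlen SS (xb * tt) ≤ n.natAbs * 2 := Nat.mul_le_mul_left _ h3
  show wlen SS ((xb * tt) ^ n) ≤ _
  omega

lemma vt_axis (v : F) (k : ℤ) : vt (v * U k) k = inF v * (xb * tt) ^ k := by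
  rw [xbt_zpow]
  ext1 <;> simp

lemma gd_axis (v : F) (k k' : ℤ) :
    gd (vt (v * U k) k) (vt (v * U k') k') ≤ 2 * (k' - k).natAbs := by
  rw [vt_axis, vt_axis, gd, wdist_mul_left, wdist]
  have : ((xb * tt) ^ k)⁻¹ * (xb * tt) ^ k' = (xb * tt) ^ (k' - k) := by
    rw [← zpow_neg, ← zpow_add]; congr 1; ring
  rw [this]
  exact len_xbt_zpow _

lemma gd_col (u : F) (k k' : ℤ) : gd (vt u k) (vt u k') = (k' - k).natAbs := by
  have h : (vt u k)⁻¹ * vt u k' = vt 1 (k' - k) := by
    ext1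
    · simp
    · simp; ring
  rw [gd_eq, h, len_tt_zpow]

section

variable {p : ℕ → GG} {A B : ℕ} {m : ℕ → Mode}

lemma Tracked.ret_step (T : Tracked p A B m) {n : ℕ} (h1 : A ≤ n) (h2 : n < B) :
    gd (ret (p n) (m n)) (ret (p (n + 1)) (m (n + 1))) ≤ 2 := by
  rcases T.tr n h1 h2 with ⟨h3, h4, -⟩ | ⟨h3, h4, h5⟩ | ⟨-, -, h3, -⟩ | ⟨-, -, h3, -⟩
  · rw [h3, h4]
    simp only [ret]
    have := T.step n h1 h2
    omega
  · rw [h3]
    cases hm : m n with
    | inn => exact absurd hm h4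
    | outP u =>
      simp only [ret]
      rw [gd_col]
      rw [abs_le] at h5
      omega
    | outM v =>
      simp only [ret]
      have := gd_axis v (p n).k (p (n + 1)).k
      rw [abs_le] at h5
      omega
  · rw [h3]; simp
  · rw [h3]; simp

lemma Tracked.ret_dist (T : Tracked p A B m) {n : ℕ} (h1 : A ≤ n) (j : ℕ) (h2 : n + j ≤ B) :
    gd (ret (p n) (m n)) (ret (p (n + j)) (m (n + j))) ≤ 2 * j := by
  induction j with
  | zero => simp
  | succ j ih =>
    have h3 := ih (by omega)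
    have h4 := T.ret_step (n := n + j) (by omega) (by omega)
    have h5 := wdist_triangle closure_SS (ret (p n) (m n)) (ret (p (n + j)) (m (n + j)))
      (ret (p (n + j + 1)) (m (n + j + 1)))
    have : n + (j + 1) = n + j + 1 := by ring
    rw [this]
    simp only [gd] at *
    omega

lemma Tracked.level_dist (T : Tracked p A B m) {n : ℕ} (h1 : A ≤ n) (j : ℕ) (h2 : n + j ≤ B) :
    |(p (n + j)).k - (p n).k| ≤ j := by
  induction j with
  | zero => simp
  | succ j ih =>
    have h3 := ih (by omega)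
    have h4 := T.step (n + j) (by omega) (by omega)
    have h5 := abs_level_sub_le (p (n + j)) (p (n + j + 1))
    have : n + (j + 1) = n + j + 1 := by ring
    rw [this]
    have h6 : ((gd (p (n + j)) (p (n + j + 1)) : ℕ) : ℤ) ≤ 1 := by exact_mod_cast h4
    rw [abs_le] at *
    push_cast
    constructor <;> linarith [h3.1, h3.2, h5.1, h5.2]

/-- Data of a crossing of the edge `i` at time `n`. -/
def CrossData (p : ℕ → GG) (m : ℕ → Mode) (i : ℤ) (n : ℕ) (l : ℤ) : Prop :=
  |(p n).k - l| ≤ 1 ∧ |(p (n + 1)).k - l| ≤ 1 ∧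
  (((ret (p n) (m n)).w = U i ∧ (ret (p (n + 1)) (m (n + 1))).w = U i * (gb * ga ^ l)) ∨
    ((ret (p (n + 1)) (m (n + 1))).w = U i ∧ (ret (p n) (m n)).w = U i * (gb * ga ^ l))) ∧
  ((m n = .inn ∧ m (n + 1) = .inn ∧ (p n = vt (U i) l ∨ p (n + 1) = vt (U i) l)) ∨
    ∃ v, m n = .outM v ∧ m (n + 1) = .outM v ∧ v * U l = U i)

lemma Tracked.cross (T : Tracked p A B m) {n : ℕ} (h1 : A ≤ n) (h2 : n < B) {i : ℤ}
    (hc : ¬ (Bey i (ret (p n) (m n)).w ↔ Bey i (ret (p (n + 1)) (m (n + 1))).w)) :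
    ∃ l, CrossData p m i n l := by
  rcases T.tr n h1 h2 with ⟨h3, h4, h5⟩ | ⟨h3, h4, h5⟩ | ⟨-, -, h3, -⟩ | ⟨-, -, h3, -⟩
  · rw [h3, h4] at hc
    simp only [ret] at hc
    rcases h5 with ⟨h5, -⟩ | ⟨h0, h5 | h5 | h5 | h5⟩
    · rw [h5] at hc; exact absurd Iff.rfl hc
    · rw [h5] at hc
      have := Bey_mul_apow i (p n).w 1
      rw [zpow_one] at this
      exact absurd this.symm hc
    · rw [h5] at hc
      have := Bey_mul_apow i (p n).w (-1)
      rw [zpow_neg_one] at this
      exact absurd this.symm hc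
    · have h6 : (p n).w = U i := by
        by_contra h6
        apply hc
        rw [h5]
        exact (Bey_mul_b i (p n).w _ h6).symm
      refine ⟨(p n).k, by simp, by simp [h0], ?_, ?_⟩
      · left
        rw [h3, h4]
        simp only [ret]
        exact ⟨h6, by rw [h5, h6]⟩
      · left
        exact ⟨h3, h4, Or.inl (by rw [← h6]; rfl)⟩
    · have h7 : (p n).w = (p (n + 1)).w * (gb * ga ^ (p n).k) := by rw [h5]; group
      have h6 : (p (n + 1)).w = U i := by
        by_contra h6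
        apply hc
        rw [h7]
        exact Bey_mul_b i (p (n + 1)).w _ h6
      refine ⟨(p n).k, by simp, by simp [h0], ?_, ?_⟩
      · right
        rw [h3, h4]
        simp only [ret]
        exact ⟨h6, by rw [h7, h6]⟩
      · left
        exact ⟨h3, h4, Or.inr (by rw [← h6, ← h0]; rfl)⟩
  · cases hm : m n with
    | inn => exact absurd hm h4
    | outP u =>
      exfalso
      apply hc
      rw [h3, hm]
      simp [ret]
    | outM v =>
      rw [hm] at h3
      rw [h3, hm] at hc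
      simp only [ret, vt_w] at hc
      rw [abs_le] at h5
      have h6 : (p (n + 1)).k = (p n).k ∨ (p (n + 1)).k = (p n).k + 1 ∨
          (p n).k = (p (n + 1)).k + 1 := by omega
      rcases h6 with h6 | h6 | h6
      · rw [h6] at hc; exact absurd Iff.rfl hc
      · have h7 : v * U (p (n + 1)).k = v * U (p n).k * (gb * ga ^ (p n).k) := by
          rw [h6, U_succ]; group
        have h8 : v * U (p n).k = U i := by
          by_contra h8
          apply hc
          rw [h7]
          exact (Bey_mul_b i _ _ h8).symm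
        refine ⟨(p n).k, by simp, by simp [h6], ?_, ?_⟩
        · left
          rw [h3, hm]
          simp only [ret, vt_w]
          exact ⟨h8, by rw [h7, h8]⟩
        · right
          exact ⟨v, hm, h3, h8⟩
      · have h7 : v * U (p n).k = v * U (p (n + 1)).k * (gb * ga ^ (p (n + 1)).k) := by
          rw [h6, U_succ]; group
        have h8 : v * U (p (n + 1)).k = U i := by
          by_contra h8
          apply hc
          rw [h7]
          exact Bey_mul_b i _ _ h8
        refine ⟨(p (n + 1)).k, by simp [h6], by simp, ?_, ?_⟩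
        · right
          rw [h3, hm]
          simp only [ret, vt_w]
          exact ⟨h8, by rw [h7, h8]⟩
        · right
          exact ⟨v, hm, h3, h8⟩
  · rw [h3] at hc; exact absurd Iff.rfl hc
  · rw [h3] at hc; exact absurd Iff.rfl hc

lemma Tracked.exit (T : Tracked p A B m) {n : ℕ} (h1 : A ≤ n) {v : F} (hv : m n = .outM v)
    (j : ℕ) (h2 : n + j ≤ B) :
    (∀ i ≤ j, m (n + i) = .outM v) ∨
      ∃ i ≤ j, 0 < i ∧ p (n + i) = vt (v * U (p (n + i)).k) (p (n + i)).k := by
  induction j with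
  | zero =>
    left
    intro i hi
    rw [Nat.le_zero.1 hi]
    exact hv
  | succ j ih =>
    rcases ih (by omega) with h3 | ⟨i, hi, h3, h4⟩
    · have h5 := h3 j le_rfl
      rcases T.tr (n + j) (by omega) (by omega) with ⟨h6, -⟩ | ⟨h6, h7, -⟩ | ⟨h6, -⟩ |
        ⟨-, h7, h8, h9⟩
      · rw [h5] at h6; exact absurd h6 (by simp)
      · left
        intro i hi
        rcases Nat.lt_or_ge i (j + 1) with h | h
        · exact h3 i (by omega)
        · have : i = j + 1 := by omega
          rw [this, ← add_assoc, h6, h5]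
      · rw [h5] at h6; exact absurd h6 (by simp)
      · right
        refine ⟨j + 1, le_rfl, by omega, ?_⟩
        rw [h5, h7] at h8
        simp only [ret] at h8
        rw [← add_assoc, h9, h8]
    · right
      exact ⟨i, by omega, h3, h4⟩

lemma flat_displacement {g h : GG} {W : F} {x y : ℤ} (hg : g.w = W * (gb * ga ^ x))
    (hh : h.w = W * (gb * ga ^ y)) :
    |x - y| ≤ 2 * (gd g h : ℤ) + 2 * |h.k - g.k| + 1 := by
  have h1 : g⁻¹ * h = vt (ga ^ (y - x)) (h.k - g.k) := by
    ext1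
    · rw [GG.mul_w, GG.inv_w, GG.inv_k, ← map_mul, hg, hh, vt_w]
      have : (W * (gb * ga ^ x))⁻¹ * (W * (gb * ga ^ y)) = ga ^ (y - x) := by
        rw [zpow_sub]
        group
      rw [this, map_zpow, phi_zpow_a]
    · simp only [GG.mul_k, GG.inv_k, vt_k]; ring
  have h2 := flat_undistorted (y - x) (h.k - g.k)
  rw [gd_eq, h1, abs_sub_comm]
  exact h2

/-- The key lemma: two neighbouring edges cannot be crossed in a short time far from `1`. -/
lemma Tracked.key (T : Tracked p A B m) {e0 e1 : ℕ} (h0 : A ≤ e0) (h01 : e0 < e1) (h1 : e1 < B)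
    {i i' : ℤ} (hi : i' = i + 1 ∨ i' = i - 1) {l l' : ℤ} (hc : CrossData p m i e0 l)
    (hc' : CrossData p m i' e1 l') {ρ : ℕ} (hρ : ∀ n, e0 ≤ n → n ≤ e1 + 1 → ρ ≤ len (p n)) :
    (ρ : ℤ) ≤ 2 * |i| + 9 * ((e1 : ℤ) - e0) + 13 := by
  obtain ⟨ha, hb, hw, hm⟩ := hc
  obtain ⟨ha', hb', hw', hm'⟩ := hc'
  -- the general displacement estimate
  have disp : ∀ n0 n1 : ℕ, (n0 = e0 ∨ n0 = e0 + 1) → (n1 = e1 ∨ n1 = e1 + 1) → ∀ (W : F) (x y : ℤ),
      (ret (p n0) (m n0)).w = W * (gb * ga ^ x) → (ret (p n1) (m n1)).w = W * (gb * ga ^ y) →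
      |x - y| ≤ 6 * ((e1 : ℤ) - e0 + 1) + 1 := by
    intro n0 n1 hn0 hn1 W x y hx hy
    have h2 := flat_displacement hx hy
    rw [ret_k, ret_k] at h2
    obtain ⟨j, rfl⟩ : ∃ j, n1 = n0 + j := ⟨n1 - n0, by omega⟩
    have h3 := T.ret_dist (n := n0) (by omega) j (by omega)
    have h4 := T.level_dist (n := n0) (by omega) j (by omega)
    have h5 : (j : ℤ) ≤ (e1 : ℤ) - e0 + 1 := by omega
    have h6 : ((gd (ret (p n0) (m n0)) (ret (p (n0 + j)) (m (n0 + j))) : ℕ) : ℤ) ≤ 2 * j := by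
      exact_mod_cast h3
    linarith
  have lev : ∀ n0 n1 : ℕ, (n0 = e0 ∨ n0 = e0 + 1) → (n1 = e1 ∨ n1 = e1 + 1) →
      |(p n1).k - (p n0).k| ≤ (e1 : ℤ) - e0 + 1 := by
    intro n0 n1 hn0 hn1
    obtain ⟨j, rfl⟩ : ∃ j, n1 = n0 + j := ⟨n1 - n0, by omega⟩
    have h4 := T.level_dist (n := n0) (by omega) j (by omega)
    have h5 : (j : ℤ) ≤ (e1 : ℤ) - e0 + 1 := by omega
    linarith
  -- the level of the crossing
  have hl : |l - i| ≤ 7 * ((e1 : ℤ) - e0) + 11 := by
    rcases hi with hi | hi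
    · obtain ⟨n0, hn0, hx⟩ : ∃ n0, (n0 = e0 ∨ n0 = e0 + 1) ∧
          (ret (p n0) (m n0)).w = U i * (gb * ga ^ l) := by
        rcases hw with ⟨-, h⟩ | ⟨-, h⟩
        · exact ⟨_, Or.inr rfl, h⟩
        · exact ⟨_, Or.inl rfl, h⟩
      obtain ⟨n1, hn1, hy⟩ : ∃ n1, (n1 = e1 ∨ n1 = e1 + 1) ∧
          (ret (p n1) (m n1)).w = U i * (gb * ga ^ i) := by
        rw [← U_succ, ← hi]
        rcases hw' with ⟨h, -⟩ | ⟨h, -⟩
        · exact ⟨_, Or.inl rfl, h⟩
        · exact ⟨_, Or.inr rfl, h⟩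
      have h2 := disp n0 n1 hn0 hn1 _ _ _ hx hy
      have h3 : (e0 : ℤ) < e1 := by exact_mod_cast h01
      linarith
    · have hUi : U i = U i' * (gb * ga ^ i') := by rw [← U_succ]; congr 1; omega
      obtain ⟨n0, hn0, hx⟩ : ∃ n0, (n0 = e0 ∨ n0 = e0 + 1) ∧
          (ret (p n0) (m n0)).w = U i' * (gb * ga ^ i') := by
        rw [← hUi]
        rcases hw with ⟨h, -⟩ | ⟨h, -⟩
        · exact ⟨_, Or.inl rfl, h⟩
        · exact ⟨_, Or.inr rfl, h⟩
      obtain ⟨n1, hn1, hy⟩ : ∃ n1, (n1 = e1 ∨ n1 = e1 + 1) ∧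
          (ret (p n1) (m n1)).w = U i' * (gb * ga ^ l') := by
        rcases hw' with ⟨-, h⟩ | ⟨-, h⟩
        · exact ⟨_, Or.inr rfl, h⟩
        · exact ⟨_, Or.inl rfl, h⟩
      have h2 := disp n0 n1 hn0 hn1 _ _ _ hx hy
      have h3 := lev n0 n1 hn0 hn1
      have h4 : |(p n0).k - l| ≤ 1 := by rcases hn0 with rfl | rfl <;> assumption
      have h5 : |(p n1).k - l'| ≤ 1 := by rcases hn1 with rfl | rfl <;> assumption
      have h6 : (e0 : ℤ) < e1 := by exact_mod_cast h01
      rw [abs_le] at *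
      constructor <;> linarith [h2.1, h2.2, h3.1, h3.2, h4.1, h4.2, h5.1, h5.2]
  rcases hm with ⟨-, -, hm⟩ | ⟨v, hv0, hv1, hvU⟩
  · have h2 : ρ ≤ len (vt (U i) l) := by
      rcases hm with hm | hm
      · rw [← hm]; exact hρ _ le_rfl (by omega)
      · rw [← hm]; exact hρ _ (by omega) (by omega)
    have h3 := len_U_le i l
    have h4 : (ρ : ℤ) ≤ len (vt (U i) l) := by exact_mod_cast h2
    have h5 : (e0 : ℤ) < e1 := by exact_mod_cast h01
    linarith
  · obtain ⟨j, hj⟩ : ∃ j, e1 = e0 + 1 + j := ⟨e1 - (e0 + 1), by omega⟩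
    rcases T.exit (n := e0 + 1) (by omega) hv1 j (by omega) with hall | ⟨s, hs, hs0, hps⟩
    · exfalso
      have h2 := hall j le_rfl
      rw [← hj] at h2
      rcases hm' with ⟨h3, -⟩ | ⟨v', h3, -, h4⟩
      · rw [h2] at h3; simp at h3
      · rw [h2] at h3
        have h5 : v = v' := by simpa using h3
        rw [← h5] at h4
        have h6 := congrArg (fun z => (expo 1 z).toAdd) hvU
        have h7 := congrArg (fun z => (expo 1 z).toAdd) h4
        have h8 := congrArg (fun z => 2 * (expo 0 z).toAdd) hvU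
        have h9 := congrArg (fun z => 2 * (expo 0 z).toAdd) h4
        simp only [map_mul, toAdd_mul, expo1_U, mul_add, expo0_U] at h6 h7 h8 h9
        have h10 : i - l = i' - l' := by linarith
        have h11 : i * (i - 1) - l * (l - 1) = i' * (i' - 1) - l' * (l' - 1) := by linarith
        have h12 : (i - l) * (i - i') = 0 := by
          have : l' = i' - (i - l) := by linarith
          rw [this] at h11
          nlinarith [h11]
        have h13 : i = l := by
          rcases mul_eq_zero.1 h12 with h | h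
          · linarith
          · exfalso
            rcases hi with hi | hi <;> omega
        rw [h13] at hvU
        have h14 : v = 1 := by simpa using hvU
        rw [h14] at hv0
        exact T.dom e0 h0 (by omega) hv0
    · have h2 : p (e0 + 1 + s) = vt (U i) l * (xb * tt) ^ ((p (e0 + 1 + s)).k - l) := by
        rw [← hvU, vt_axis]
        conv_lhs => rw [hps, vt_axis]
        rw [mul_assoc, ← zpow_add]
        congr 2
        ring
      have h3 := wlen_mul_le closure_SS (vt (U i) l) ((xb * tt) ^ ((p (e0 + 1 + s)).k - l))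
      have h4 := len_xbt_zpow ((p (e0 + 1 + s)).k - l)
      have h5 := hρ (e0 + 1 + s) (by omega) (by omega)
      rw [len, h2] at h5
      have h6 := len_U_le i l
      have h7 := T.level_dist (n := e0) (by omega) (1 + s) (by omega)
      rw [← add_assoc] at h7
      have h8 : (ρ : ℤ) ≤ (len (vt (U i) l) : ℤ) + 2 * |(p (e0 + 1 + s)).k - l| := by
        rw [Int.abs_eq_natAbs]
        have : ρ ≤ len (vt (U i) l) + 2 * ((p (e0 + 1 + s)).k - l).natAbs := by
          simp only [len] at *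
          omega
        exact_mod_cast this
      have h9 : |(p (e0 + 1 + s)).k - l| ≤ (e1 : ℤ) - e0 + 1 := by
        have h10 : ((1 + s : ℕ) : ℤ) ≤ (e1 : ℤ) - e0 := by omega
        rw [abs_le] at *
        push_cast at h7 h10
        constructor <;> linarith [h7.1, h7.2, ha.1, ha.2]
      linarith

/-- The same time cannot be a crossing of two neighbouring edges. -/
lemma CrossData.eq_of {n : ℕ} {i i' l l' : ℤ} (hc : CrossData p m i n l)
    (hc' : CrossData p m i' n l') : i = i' := by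
  obtain ⟨-, -, hw, -⟩ := hc
  obtain ⟨-, -, hw', -⟩ := hc'
  have e : ∀ (j k : ℤ), (expo 1 (U j * (gb * ga ^ k))).toAdd = j + 1 := by
    intro j k
    rw [map_mul, toAdd_mul, expo1_U]
    simp
  rcases hw with ⟨h1, h2⟩ | ⟨h1, h2⟩ <;> rcases hw' with ⟨h3, h4⟩ | ⟨h3, h4⟩
  · rw [h1] at h3
    have := congrArg (fun z => (expo 1 z).toAdd) h3
    simpa only [expo1_U] using this
  · rw [h1] at h4
    rw [h2] at h3
    have h5 := congrArg (fun z => (expo 1 z).toAdd) h4
    have h6 := congrArg (fun z => (expo 1 z).toAdd) h3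
    simp only [expo1_U, e] at h5 h6
    omega
  · rw [h1] at h4
    rw [h2] at h3
    have h5 := congrArg (fun z => (expo 1 z).toAdd) h4
    have h6 := congrArg (fun z => (expo 1 z).toAdd) h3
    simp only [expo1_U, e] at h5 h6
    omega
  · rw [h1] at h3
    have := congrArg (fun z => (expo 1 z).toAdd) h3
    simpa only [expo1_U] using this

end

lemma Ok.inn_of_noC {g : GG} (h : NoC g.w) {m : Mode} (hm : Ok g m) : m = .inn := by
  cases m with
  | inn => rfl
  | outP u => exact absurd rfl ((hm.1.inv.mul h).FL_ne hm.2)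
  | outM u => exact absurd rfl ((hm.1.inv.mul h).FL_ne hm.2)

/-- The chain lemma. -/
theorem chain_lemma : ∃ C : ℕ, ∀ (p : ℕ → GG) (A B : ℕ) (lA l : ℤ), A ≤ B →
    (∀ n, A ≤ n → n < B → gd (p n) (p (n + 1)) ≤ 1) →
    (∀ n, A ≤ n → n ≤ B → FL (p n).w ≠ some (2, false)) →
    p A = vt 1 lA → p B = vt (U l) l →
    ∃ τ : ℕ → ℕ, (∀ j < l.natAbs, A ≤ τ j ∧ τ j < B) ∧
      ∀ j, j + 1 < l.natAbs → τ j ≤ τ (j + 1) ∧
        ∀ ρ : ℕ, (∀ n, τ j ≤ n → n ≤ B → ρ ≤ len (p n)) →
          ρ ≤ C * (τ (j + 1) - τ j) + 2 * j + C := by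
  classical
  refine ⟨20, ?_⟩
  intro p A B lA l hAB hstep hD hA hB
  obtain ⟨m, hmA, hok, htr⟩ := exists_modes p A B hstep (by rw [hA]; exact NoC.one)
  have T : Tracked p A B m := by
    refine ⟨hstep, hok, htr, ?_⟩
    intro n h1 h2 h3
    have := hok n h1 h2
    rw [h3] at this
    have h4 := this.2
    rw [inv_one, one_mul] at h4
    exact hD n h1 h2 h4
  have hmB : m B = .inn := Ok.inn_of_noC (by rw [hB]; exact NoC.U l) (hok B hAB le_rfl)
  -- the edges and the sides
  let ε : ℕ → ℤ := fun j => if 0 < l then (j : ℤ) else -1 - j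
  let Q : ℕ → ℕ → Prop := fun j n => ¬ (Bey (ε j) (ret (p n) (m n)).w ↔ 0 < l)
  have hQA : ∀ j, Q j A := by
    intro j
    simp only [Q, hmA, hA, ret, vt_w]
    rw [Bey_one]
    simp only [ε]
    split_ifs with h <;> simp only [h, iff_true, iff_false] <;> omega
  have hQB : ∀ j < l.natAbs, ¬ Q j B := by
    intro j hj
    simp only [Q, hmB, hB, ret, vt_w, not_not]
    rw [Bey_U]
    simp only [ε]
    split_ifs with h <;> simp only [h, iff_true, iff_false] <;> omega
  have hmono : ∀ j n, Q j n → Q (j + 1) n := by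
    intro j n hj
    simp only [Q, ε] at hj ⊢
    by_cases h : 0 < l
    · simp only [h, if_true, iff_true] at hj ⊢
      intro h2
      apply hj
      apply Bey_succ
      push_cast at h2
      exact h2
    · simp only [h, if_false, iff_false, not_not] at hj ⊢
      apply Bey_succ
      have : -1 - ((j + 1 : ℕ) : ℤ) + 1 = -1 - (j : ℤ) := by push_cast; ring
      rw [this]
      exact hj
  let P : ℕ → ℕ → Prop := fun j n => n < B ∧ A ≤ n ∧ Q j n
  rcases Nat.eq_or_lt_of_le hAB with hAB' | hAB'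
  · -- then `l = 0`
    have hl : l = 0 := by
      rw [← hAB', hA] at hB
      have := congrArg (fun g : GG => (expo 1 g.w).toAdd) hB
      simp only [vt_w, expo1_U, map_one, toAdd_one] at this
      exact this.symm
    subst hl
    exact ⟨fun _ => 0, by simp, by simp⟩
  let τ : ℕ → ℕ := fun j => Nat.findGreatest (P j) B
  have hτ : ∀ j, P j (τ j) := by
    intro j
    exact Nat.findGreatest_spec (P := P j) hAB ⟨hAB', le_rfl, hQA j⟩
  have hmax : ∀ j n, τ j < n → n ≤ B → ¬ P j n := by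
    intro j n h1 h2
    exact Nat.findGreatest_is_greatest h1 h2
  have hnext : ∀ j < l.natAbs, ¬ Q j (τ j + 1) := by
    intro j hj hq
    have h1 := (hτ j).1
    have h2 := (hτ j).2.1
    rcases Nat.lt_or_ge (τ j + 1) B with h | h
    · exact hmax j (τ j + 1) (by omega) (by omega) ⟨h, by omega, hq⟩
    · have : τ j + 1 = B := by omega
      rw [this] at hq
      exact hQB j hj hq
  have hcross : ∀ j < l.natAbs, ∃ l', CrossData p m (ε j) (τ j) l' := by
    intro j hj
    have h1 := (hτ j).2.2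
    have h2 := hnext j hj
    apply T.cross (hτ j).2.1 (hτ j).1
    intro h3
    simp only [Q] at h1 h2
    rw [← h3] at h2
    exact h2 h1
  refine ⟨τ, fun j _ => ⟨(hτ j).2.1, (hτ j).1⟩, ?_⟩
  intro j hj
  have hle : τ j ≤ τ (j + 1) := by
    apply Nat.le_findGreatest (hτ j).1.le
    exact ⟨(hτ j).1, (hτ j).2.1, hmono j _ (hτ j).2.2⟩
  refine ⟨hle, ?_⟩
  intro ρ hρ
  obtain ⟨l0, hc0⟩ := hcross j (by omega)
  obtain ⟨l1, hc1⟩ := hcross (j + 1) hj
  have hne : τ j ≠ τ (j + 1) := by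
    intro h
    rw [← h] at hc1
    have := hc0.eq_of hc1
    simp only [ε] at this
    split_ifs at this <;> push_cast at this <;> omega
  have hlt : τ j < τ (j + 1) := lt_of_le_of_ne hle hne
  have hadj : ε (j + 1) = ε j + 1 ∨ ε (j + 1) = ε j - 1 := by
    simp only [ε]
    split_ifs
    · left; push_cast; ring
    · right; push_cast; ring
  have hk := T.key (hτ j).2.1 hlt (hτ (j + 1)).1 hadj hc0 hc1 (ρ := ρ) (by
    intro n h1 h2
    exact hρ n h1 (by have := (hτ (j + 1)).1; omega))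
  have hε : |ε j| ≤ (j : ℤ) + 1 := by
    simp only [ε]
    rw [abs_le]
    split_ifs <;> constructor <;> omega
  have h5 : (ρ : ℤ) ≤ 20 * ((τ (j + 1) - τ j : ℕ) : ℤ) + 2 * j + 20 := by
    rw [Nat.cast_sub hle]
    have h6 : ((τ j : ℕ) : ℤ) < ((τ (j + 1) : ℕ) : ℤ) := by exact_mod_cast hlt
    linarith
  exact_mod_cast h5

end QRPoset
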