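import Mathlib
import Pool.Agent.QRPoset.Chain

open scoped NNReal

namespace QRPoset

/-! ### TARGET J10a: a path along the axis outside a ball is quadratically long

Plain words. Let `C₀` be the constant of `chain_lemma` (we may assume `C₀ ≥ 1`). All points of the path
have length `≥ ρ`. In particular `ρ ≤ len (vt (U l) l) ≤ 2 |l|` (`len_U_le`), so `|l| ≥ ρ / 2`. Let
`J = ρ / 8`. If `ρ` is at least `100 (C₀ + 1)` (otherwise the claim is trivial for a big constant `C`), then for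
`j < J` we get `ρ ≤ C₀ (τ (j+1) - τ j) + 2 j + C₀ ≤ C₀ (τ (j+1) - τ j) + ρ / 4 + ρ / 100`, so
`C₀ (τ (j+1) - τ j) ≥ ρ / 2`. Summing over `j < J`: `C₀ (τ J - τ 0) ≥ J ρ / 2 ≥ ρ² / 32` or so, and
`τ J - τ 0 ≤ B - A`. -/

theorem quadratic : ∃ C : ℕ, ∀ (p : ℕ → GG) (A B : ℕ) (lA l : ℤ) (ρ : ℕ), A ≤ B →
    (∀ n, A ≤ n → n < B → gd (p n) (p (n + 1)) ≤ 1) →
    (∀ n, A ≤ n → n ≤ B → FL (p n).w ≠ some (2, false)) →
    p A = vt 1 lA → p B = vt (U l) l →
    (∀ n, A ≤ n → n ≤ B → ρ ≤ len (p n)) →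
    ρ ^ 2 ≤ C * (B - A) + C * ρ + C := by
  obtain ⟨K, hK⟩ := chain_lemma
  refine ⟨10 * K + 7, ?_⟩
  intro p A B lA l ρ hAB h1 h2 hA hB hρ
  obtain ⟨τ, ht1, ht2⟩ := hK p A B lA l hAB h1 h2 hA hB
  have hl : ρ ≤ 2 * l.natAbs := by
    have h3 := hρ B hAB le_rfl
    rw [hB] at h3
    have h4 := len_U_le l l
    rw [sub_self, abs_zero, add_zero] at h4
    have h5 : (ρ : ℤ) ≤ 2 * |l| := le_trans (by exact_mod_cast h3) h4
    rw [Int.abs_eq_natAbs] at h5
    exact_mod_cast h5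
  have key : ∀ J : ℕ, J < l.natAbs →
      J * ρ + K * τ 0 ≤ K * τ J + J ^ 2 + K * J := by
    intro J
    induction J with
    | zero =>
      intro _
      simp
    | succ J ih =>
      intro hJ
      have ih' := ih (by omega)
      obtain ⟨h3, h4⟩ := ht2 J hJ
      have h5 := h4 ρ (fun n hn hn' => hρ n ((ht1 J (by omega)).1.trans hn) hn')
      obtain ⟨d, hd⟩ := Nat.exists_eq_add_of_le h3
      rw [hd, Nat.add_sub_cancel_left] at h5
      rw [hd]
      nlinarith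
  rcases Nat.eq_zero_or_pos ρ with h0 | h0
  · rw [h0]
    positivity
  · have hJ : ρ / 8 < l.natAbs := by omega
    have h3 := key (ρ / 8) hJ
    have h4 := (ht1 (ρ / 8) hJ).2
    have h5 := (ht1 0 (by omega)).1
    obtain ⟨D, hD⟩ := Nat.exists_eq_add_of_le hAB
    rw [hD, Nat.add_sub_cancel_left]
    set J := ρ / 8 with hJd
    have h6 : 8 * J ≤ ρ := Nat.mul_div_le ρ 8
    have h7 : ρ ≤ 8 * J + 7 := by omega
    have h8 : K * τ J ≤ K * (τ 0 + D) := Nat.mul_le_mul_left _ (by omega)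
    have h9 : J * ρ ≤ K * D + J ^ 2 + K * J := by nlinarith
    have h10 : 8 * J ^ 2 ≤ J * ρ := by nlinarith
    have h11 : 7 * (J * ρ) ≤ 8 * (K * D) + 8 * (K * J) := by nlinarith
    have h12 : ρ ^ 2 ≤ 8 * (J * ρ) + 7 * ρ := by nlinarith
    have h13 : 8 * (K * J) ≤ K * ρ := by nlinarith
    have h14 : 0 ≤ K * D := Nat.zero_le _
    nlinarith [Nat.zero_le (K * D), Nat.zero_le (K * ρ), Nat.zero_le D, Nat.zero_le K]

end QRPoset
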