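import Mathlib
import Pool.Agent.QRPoset.Quad

open scoped NNReal

namespace QRPoset

/-! ### TARGET J10b: paths from `c^m` to `c^(-m)` outside a ball are cubically long

Plain words. Let `C₁` be the constant of `quadratic`. Fix a path `p : ℕ → GG`, `p 0 = c^m`,
`p N = c^(-m)`, steps of length `≤ 1`, `len (p n) ≥ ρ` for `n ≤ N`, and `ρ ≤ m` (this follows from
`len (c^m) = m`, `len_xc_zpow`). For an integer `i` say that `w : F` is beyond `i` if
`FL (gc ^ (-i) * w) = some (2, true)`. By `FL_gc_mul`: `w` is beyond `i` iff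
`FL (gc ^ (-(i + 1)) * w) ≠ some (2, false)`; so beyond `i + 1` implies beyond `i`
(`some (2,true) ≠ some (2,false)`). By `FL_gc_zpow`: `c^m` is beyond `i` iff `i < m`; `c^(-m)` is beyond `i`
iff `i < -m`. For `-m ≤ i < m` let `a i` be the last `n < N` (`n ∈ [0, N)`) such that `(p n).w` is beyond `i`;
then `p (a i + 1)` is not beyond `i` (if `a i + 1 = N` because `c^(-m)` is not), so `cross_c` applied to
`inF (gc ^ (-i)) * p (a i)`, `inF (gc ^ (-i)) * p (a i + 1)` gives `p (a i + 1) = vt (gc ^ i) l` for some `l`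
(note `(inF v * g).w = v * g.w`, `(inF v * g).k = g.k`). Now let `-m + 1 ≤ i < m`. Then `gc ^ i` is beyond
`i - 1`, and `(p N).w` is not; let `b ≥ a i + 1` be the first `n ≥ a i + 1` such that `p (n + 1)` is not beyond
`i - 1`; so `b < N`, all `p n` with `a i + 1 ≤ n ≤ b` are beyond `i - 1`, i.e.
`FL (gc ^ (-i) * (p n).w) ≠ some (2, false)`, and by `cross_c` (for `i - 1`)
`p b = vt (gc ^ (i - 1) * (gc * U l')) l' = vt (gc ^ i * U l') l'`. Apply `quadratic` to
`n ↦ inF (gc ^ (-i)) * p n` on `[a i + 1, b]`, with `ρ' = ρ - |i|` (the length of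
`inF (gc ^ (-i)) * p n` is at least `ρ - |i|`, `wlen_mul_le`, `len_xc_zpow`). Since
`b ≤ a (i - 1)` (as `b < N` is beyond `i - 1`), we get
`(ρ - |i|)² ≤ C₁ (a (i-1) - a i) + C₁ ρ + C₁`. Sum over `|i| ≤ ρ / 2 - 1` (at least `ρ / 2` values):
`(ρ/2) (ρ/2)² ≤ C₁ N + C₁ (ρ+1)² ` roughly, which gives `ρ³ ≤ C (N + ρ² + 1)`. -/


/-- the letter-`c` edge number `i` separates: `w` is beyond `i`. -/
def BeyC (i : ℤ) (w : F) : Prop := FL (gc ^ (-i) * w) = some (2, true)

lemma BeyC_iff (i : ℤ) (w : F) : BeyC i w ↔ FL (gc ^ (-(i + 1)) * w) ≠ some (2, false) := by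
  unfold BeyC
  rw [← FL_gc_mul, ← mul_assoc]
  have : gc * gc ^ (-(i + 1)) = gc ^ (-i) := by
    rw [← zpow_one_add]; congr 1; ring
  rw [this]

lemma BeyC_pow (i m : ℤ) : BeyC i (gc ^ m) ↔ i < m := by
  unfold BeyC
  rw [← zpow_add, FL_gc_zpow]
  constructor <;> intro h <;> linarith

lemma gd_inF_mul (v : F) (g h : GG) : gd (inF v * g) (inF v * h) = gd g h := by
  exact wdist_mul_left _ _ _

lemma inF_mul_vt (v w : F) (k : ℤ) : inF v * vt w k = vt (v * w) k := by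
  ext1 <;> simp

lemma inF_mul_w (v : F) (g : GG) : (inF v * g).w = v * g.w := by
  simp

lemma eq_of_inF_mul {v : F} {g : GG} {w : F} {k : ℤ} (h : inF v * g = vt w k) :
    g = vt (v⁻¹ * w) k := by
  rw [← inF_mul_vt, ← h, ← mul_assoc, ← map_mul]
  simp

/-- crossing the edge number `i`. -/
lemma cross_i {g h : GG} {i : ℤ} (hgh : gd g h ≤ 1) (hg : BeyC i g.w) (hh : ¬ BeyC i h.w) :
    ∃ l : ℤ, g = vt (gc ^ (i + 1) * U l) l ∧ h = vt (gc ^ i) l := by
  obtain ⟨l, h1, h2⟩ := cross_c (g := inF (gc ^ (-i)) * g) (h := inF (gc ^ (-i)) * h)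
    (by rw [gd_inF_mul]; exact hgh) (by rw [inF_mul_w]; exact hg)
    (by rw [inF_mul_w]; exact hh)
  refine ⟨l, ?_, ?_⟩
  · rw [eq_of_inF_mul h1, zpow_neg, inv_inv, ← mul_assoc, zpow_add_one]
  · rw [eq_of_inF_mul h2, zpow_neg, inv_inv, mul_one]

theorem cubic : ∃ C : ℕ, ∀ (p : ℕ → GG) (N : ℕ) (m : ℤ) (ρ : ℕ), 1 ≤ m →
    (∀ n, n < N → gd (p n) (p (n + 1)) ≤ 1) →
    p 0 = vt (gc ^ m) 0 → p N = vt (gc ^ (-m)) 0 →
    (∀ n, n ≤ N → ρ ≤ len (p n)) →
    ρ ^ 3 ≤ C * N + C * ρ ^ 2 + C := by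
  classical
  obtain ⟨C₁, hC⟩ := quadratic
  refine ⟨12 * C₁, ?_⟩
  intro p N m ρ hm hstep h0 hN hlen
  have hρm : (ρ : ℤ) ≤ m := by
    have := hlen 0 (Nat.zero_le _)
    rw [h0, len_xc_zpow] at this
    omega
  -- the last time beyond `i`
  let a : ℤ → ℕ := fun i => Nat.findGreatest (fun n => BeyC i (p n).w) N
  have ha_le : ∀ i, a i ≤ N := fun i => Nat.findGreatest_le N
  have hP0 : ∀ i, i < m → BeyC i (p 0).w := by
    intro i hi
    rw [h0, vt_w, BeyC_pow]; exact hi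
  have hPN : ∀ i, -m ≤ i → ¬ BeyC i (p N).w := by
    intro i hi
    rw [hN, vt_w, BeyC_pow]; omega
  have ha_spec : ∀ i, i < m → BeyC i (p (a i)).w := by
    intro i hi
    exact Nat.findGreatest_spec (P := fun n => BeyC i (p n).w) (Nat.zero_le N) (hP0 i hi)
  have ha_lt : ∀ i, -m ≤ i → i < m → a i < N := by
    intro i h1 h2
    rcases lt_or_eq_of_le (ha_le i) with h | h
    · exact h
    · exfalso
      have := ha_spec i h2
      rw [h] at this
      exact hPN i h1 this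
  have ha_not : ∀ i n, a i < n → n ≤ N → ¬ BeyC i (p n).w := by
    intro i n h1 h2
    exact Nat.findGreatest_is_greatest (P := fun n => BeyC i (p n).w) h1 h2
  have ha_ge : ∀ i n, n ≤ N → BeyC i (p n).w → n ≤ a i := by
    intro i n h1 h2
    exact Nat.le_findGreatest (P := fun n => BeyC i (p n).w) h1 h2
  -- the key estimate
  have key : ∀ i : ℤ, -m + 1 ≤ i → i < m →
      a i ≤ a (i - 1) ∧
      (ρ - i.natAbs) ^ 2 ≤ C₁ * (a (i - 1) - a i) + C₁ * ρ + C₁ := by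
    intro i hi1 hi2
    have hlt := ha_lt i (by omega) hi2
    obtain ⟨l, -, hl⟩ := cross_i (hstep _ hlt) (ha_spec i hi2)
      (ha_not i (a i + 1) (Nat.lt_succ_self _) hlt)
    have hbey : BeyC (i - 1) (p (a i + 1)).w := by
      rw [hl, vt_w, BeyC_pow]; omega
    have hle1 : a i + 1 ≤ a (i - 1) := ha_ge _ _ hlt hbey
    have hex : ∃ n, a i + 1 < n ∧ ¬ BeyC (i - 1) (p n).w := by
      refine ⟨N, ?_, hPN _ (by omega)⟩
      exact lt_of_le_of_lt hle1 (ha_lt _ (by omega) (by omega))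
    obtain ⟨hn1, hn2⟩ := Nat.find_spec hex
    have hnN : Nat.find hex ≤ N := by
      apply Nat.find_min' hex
      exact ⟨lt_of_le_of_lt hle1 (ha_lt _ (by omega) (by omega)), hPN _ (by omega)⟩
    obtain ⟨b, hb⟩ : ∃ b, Nat.find hex = b + 1 := ⟨Nat.find hex - 1, by omega⟩
    have hbN : b < N := by omega
    have hab : a i + 1 ≤ b := by omega
    have hbetween : ∀ n, a i + 1 ≤ n → n ≤ b → BeyC (i - 1) (p n).w := by
      intro n h1 h2
      rcases Nat.eq_or_lt_of_le h1 with h | h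
      · rw [← h]; exact hbey
      · by_contra h3
        have := Nat.find_min' hex ⟨h, h3⟩
        omega
    have hbb : b ≤ a (i - 1) := ha_ge _ _ hbN.le (hbetween b hab le_rfl)
    rw [hb] at hn2
    obtain ⟨l', hl', -⟩ := cross_i (hstep _ hbN) (hbetween b hab le_rfl) hn2
    have hq := hC (fun n => inF (gc ^ (-i)) * p n) (a i + 1) b l l' (ρ - i.natAbs) hab
      (by
        intro n h1 h2
        rw [gd_inF_mul]
        exact hstep n (by omega))
      (by
        intro n h1 h2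
        have := (BeyC_iff (i - 1) (p n).w).1 (hbetween n h1 h2)
        rw [sub_add_cancel] at this
        rw [inF_mul_w]
        exact this)
      (by
        show inF (gc ^ (-i)) * p (a i + 1) = vt 1 l
        rw [hl, inF_mul_vt, ← zpow_add, neg_add_cancel, zpow_zero])
      (by
        show inF (gc ^ (-i)) * p b = vt (U l') l'
        rw [hl', inF_mul_vt, ← mul_assoc, ← zpow_add]
        have : -i + (i - 1 + 1) = 0 := by ring
        rw [this, zpow_zero, one_mul])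
      (by
        intro n h1 h2
        have h3 := hlen n (by omega)
        have h4 : p n = vt (gc ^ i) 0 * (inF (gc ^ (-i)) * p n) := by
          have : vt (gc ^ i) 0 = inF (gc ^ i) := rfl
          rw [this, ← mul_assoc, ← map_mul, ← zpow_add, add_neg_cancel, zpow_zero, map_one,
            one_mul]
        have h5 := wlen_mul_le closure_SS (vt (gc ^ i) 0) (inF (gc ^ (-i)) * p n)
        rw [← h4] at h5
        have h6 := len_xc_zpow i
        have h7 : ρ ≤ i.natAbs + wlen SS (inF (gc ^ (-i)) * p n) := by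
          calc ρ ≤ wlen SS (p n) := h3
            _ ≤ wlen SS (vt (gc ^ i) 0) + wlen SS (inF (gc ^ (-i)) * p n) := h5
            _ = _ := by rw [← h6]
        show ρ - i.natAbs ≤ wlen SS (inF (gc ^ (-i)) * p n)
        omega)
    refine ⟨by omega, hq.trans ?_⟩
    have e1 : C₁ * (b - (a i + 1)) ≤ C₁ * (a (i - 1) - a i) := Nat.mul_le_mul_left _ (by omega)
    have e2 : C₁ * (ρ - i.natAbs) ≤ C₁ * ρ := Nat.mul_le_mul_left _ (by omega)
    omega
  -- summation
  set K : ℕ := ρ / 2 with hK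
  have hKm : (K : ℤ) ≤ m - 1 := by omega
  have hsum : ∀ j : ℕ, j ≤ 2 * K + 1 →
      j * ρ ^ 2 ≤ 4 * (C₁ * a ((K : ℤ) - j) + j * (C₁ * ρ + C₁)) := by
    intro j
    induction j with
    | zero => intro _; simp
    | succ j ih =>
      intro hj
      have ih' := ih (by omega)
      obtain ⟨k1, k2⟩ := key ((K : ℤ) - j) (by omega) (by omega)
      have hcast : (K : ℤ) - ((j + 1 : ℕ) : ℤ) = (K : ℤ) - j - 1 := by push_cast; ring
      rw [hcast]
      have hab : ((K : ℤ) - j).natAbs ≤ K := by omega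
      have h2 : ρ ≤ 2 * (ρ - ((K : ℤ) - j).natAbs) := by omega
      have h3 : ρ ^ 2 ≤ 4 * (ρ - ((K : ℤ) - j).natAbs) ^ 2 := by
        calc ρ ^ 2 ≤ (2 * (ρ - ((K : ℤ) - j).natAbs)) ^ 2 := Nat.pow_le_pow_left h2 2
          _ = _ := by ring
      obtain ⟨d, hd⟩ := Nat.exists_eq_add_of_le k1
      rw [hd, Nat.add_sub_cancel_left] at k2
      rw [hd]
      have : (j + 1) * ρ ^ 2 = j * ρ ^ 2 + ρ ^ 2 := by ring
      rw [this]
      calc j * ρ ^ 2 + ρ ^ 2 ≤ 4 * (C₁ * a ((K : ℤ) - j) + j * (C₁ * ρ + C₁)) +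
            4 * (C₁ * d + C₁ * ρ + C₁) :=
            Nat.add_le_add ih' (h3.trans (Nat.mul_le_mul_left _ k2))
        _ = _ := by ring
  have hfin := hsum (2 * K + 1) le_rfl
  have haN := ha_le ((K : ℤ) - ((2 * K + 1 : ℕ) : ℤ))
  have hK1 : ρ ≤ 2 * K + 1 := by omega
  have hK2 : 2 * K + 1 ≤ ρ + 1 := by omega
  have hρ : ρ ≤ ρ ^ 2 := Nat.le_self_pow (by norm_num) _
  calc ρ ^ 3 = ρ * ρ ^ 2 := by ring
    _ ≤ (2 * K + 1) * ρ ^ 2 := Nat.mul_le_mul_right _ hK1
    _ ≤ _ := hfin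
    _ ≤ 4 * (C₁ * N + (ρ + 1) * (C₁ * ρ + C₁)) := by
      apply Nat.mul_le_mul_left
      exact Nat.add_le_add (Nat.mul_le_mul_left _ haN) (Nat.mul_le_mul_right _ hK2)
    _ = 4 * C₁ * N + 4 * C₁ * ρ ^ 2 + 8 * C₁ * ρ + 4 * C₁ := by ring
    _ ≤ 4 * C₁ * N + 4 * C₁ * ρ ^ 2 + 8 * C₁ * ρ ^ 2 + 4 * C₁ := by
      gcongr
    _ ≤ 12 * C₁ * N + 12 * C₁ * ρ ^ 2 + 12 * C₁ := by nlinarith [Nat.zero_le (C₁ * N), Nat.zero_le C₁]

end QRPoset
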