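import Mathlib
import Pool.Agent.QRPoset.Words

open scoped NNReal

namespace QRPoset

/-- There is an edge path of length at most `L` from `x` to `y` whose vertices satisfy `P`. -/
def Conn (P : GG → Prop) (L : ℕ) (x y : GG) : Prop :=
  ∃ l : List GG, WordIn SS l ∧ x * l.prod = y ∧ l.length ≤ L ∧
    ∀ i ≤ l.length, P (x * (l.take i).prod)

/-! ### TARGET J4a: hops

Plain words. `Conn` is transitive (append the words) and symmetric (reverse and invert the word),
monotone in `P` and `L`. Hop: `s * tt ^ N = tt ^ N * (tt ^ (-N) * s * tt ^ N)`. For `s = tt ^ (± 1)` one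
step suffices. For `s = inF w` with `w = ga, gb, gc` or an inverse,
`tt ^ (-N) * inF w * tt ^ N = inF ((phi ^ (-N)) w)`, and `(phi ^ k) ga = ga`,
`(phi ^ k) gb = gb * ga ^ k`, `(phi ^ k) gc = gc * U k`, where `U k` is a product of at most
`(|k| + 1) ^ 2 - 1` letters (`U (k+1) = U k * (gb * ga ^ k)`, `U 0 = 1`; for `k ≥ 0` the length is
at most `k (k+1) / 2`, for `k < 0` at most `|k| (|k| + 3) / 2`). Multiplying by the letters one after
the other keeps the level `g.k` constant. -/

theorem Conn.trans {P : GG → Prop} {L M : ℕ} {x y z : GG} (h₁ : Conn P L x y)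
    (h₂ : Conn P M y z) : Conn P (L + M) x z := by
  obtain ⟨l, hl, rfl, hlL, hlP⟩ := h₁
  obtain ⟨m, hm, rfl, hmM, hmP⟩ := h₂
  refine ⟨l ++ m, hl.append hm, by rw [List.prod_append, mul_assoc], ?_, ?_⟩
  · rw [List.length_append]; omega
  · intro i hi
    rw [List.length_append] at hi
    rw [List.take_append, List.prod_append, ← mul_assoc]
    rcases le_total i l.length with h | h
    · rw [Nat.sub_eq_zero_of_le h, List.take_zero, List.prod_nil, mul_one]
      exact hlP i h
    · rw [List.take_of_length_le h]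
      exact hmP _ (by omega)

theorem conn_refl {P : GG → Prop} {x : GG} (h : P x) : Conn P 0 x x :=
  ⟨[], WordIn.nil, by simp, by simp, fun i _ => by simpa using h⟩

theorem conn_step {P : GG → Prop} {x s : GG} (hs : s ∈ SS ∨ s⁻¹ ∈ SS) (h : P x)
    (h' : P (x * s)) : Conn P 1 x (x * s) := by
  refine ⟨[s], WordIn.singleton hs, by simp, by simp, ?_⟩
  intro i hi
  rw [List.length_singleton] at hi
  interval_cases i
  · simpa using h
  · simpa using h'

theorem conn_rev {P : GG → Prop} (l : List GG) : ∀ x : GG, WordIn SS l →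
    (∀ i ≤ l.length, P (x * (l.take i).prod)) → Conn P l.length (x * l.prod) x := by
  induction l with
  | nil =>
    intro x _ h
    have := h 0 (Nat.zero_le _)
    simpa using conn_refl (x := x) (by simpa using this)
  | cons a l ih =>
    intro x hw h
    have h0 : P x := by simpa using h 0 (Nat.zero_le _)
    have h1 := ih (x * a) (fun b hb => hw b (List.mem_cons_of_mem _ hb)) (by
      intro i hi
      have := h (i + 1) (by rw [List.length_cons]; omega)
      rw [List.take_succ_cons, List.prod_cons, ← mul_assoc] at this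
      exact this)
    have ha : P (x * a) := by
      have := h 1 (by rw [List.length_cons]; omega)
      simpa using this
    have h2 : Conn P 1 (x * a) (x * a * a⁻¹) := by
      refine conn_step ?_ ha (by simpa using h0)
      rcases hw a (List.mem_cons_self) with h | h
      · right; simpa using h
      · left; exact h
    rw [mul_inv_cancel_right] at h2
    have h3 := Conn.trans h1 h2
    rw [List.prod_cons, ← mul_assoc, List.length_cons]
    exact h3

theorem Conn.symm {P : GG → Prop} {L : ℕ} {x y : GG} (h : Conn P L x y) : Conn P L y x := by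
  obtain ⟨l, hl, rfl, hlL, hlP⟩ := h
  obtain ⟨m, hm, hm1, hmL, hmP⟩ := conn_rev l x hl hlP
  exact ⟨m, hm, hm1, hmL.trans hlL, hmP⟩

theorem Conn.mono {P Q : GG → Prop} {L M : ℕ} {x y : GG} (h : Conn P L x y)
    (hPQ : ∀ g, P g → Q g) (hLM : L ≤ M) : Conn Q M x y := by
  obtain ⟨l, hl, hx, hlL, hlP⟩ := h
  exact ⟨l, hl, hx, hlL.trans hLM, fun i hi => hPQ _ (hlP i hi)⟩

/-- `w` is a product of at most `m` letters. -/
def LetProd (w : F) (m : ℕ) : Prop :=
  ∃ l : List F, (∀ a ∈ l, inF a ∈ SS ∨ (inF a)⁻¹ ∈ SS) ∧ l.prod = w ∧ l.length ≤ m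

theorem LetProd.mul {v w : F} {m n : ℕ} (h : LetProd v m) (h' : LetProd w n) :
    LetProd (v * w) (m + n) := by
  obtain ⟨l, hl, rfl, hm⟩ := h
  obtain ⟨l', hl', rfl, hn⟩ := h'
  refine ⟨l ++ l', ?_, by simp, by rw [List.length_append]; omega⟩
  intro a ha
  rcases List.mem_append.1 ha with h | h
  · exact hl a h
  · exact hl' a h

theorem LetProd.one : LetProd 1 0 := ⟨[], by simp, rfl, le_rfl⟩

theorem LetProd.letter {w : F} (h : inF w ∈ SS ∨ (inF w)⁻¹ ∈ SS) : LetProd w 1 :=
  ⟨[w], by simpa using h, by simp, by simp⟩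

theorem LetProd.mono {w : F} {m n : ℕ} (h : LetProd w m) (hmn : m ≤ n) : LetProd w n := by
  obtain ⟨l, hl, rfl, hm⟩ := h
  exact ⟨l, hl, rfl, hm.trans hmn⟩

theorem LetProd.pow {w : F} (h : inF w ∈ SS ∨ (inF w)⁻¹ ∈ SS) (n : ℕ) : LetProd (w ^ n) n := by
  induction n with
  | zero => simpa using LetProd.one
  | succ n ih => rw [pow_succ]; exact ih.mul (LetProd.letter h)

theorem LetProd.inv_letter {w : F} (h : inF w ∈ SS ∨ (inF w)⁻¹ ∈ SS) :
    inF w⁻¹ ∈ SS ∨ (inF w⁻¹)⁻¹ ∈ SS := by
  rcases h with h | h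
  · right; rw [map_inv, inv_inv]; exact h
  · left; rw [map_inv]; exact h

theorem LetProd.zpow {w : F} (h : inF w ∈ SS ∨ (inF w)⁻¹ ∈ SS) (k : ℤ) :
    LetProd (w ^ k) k.natAbs := by
  obtain ⟨m, rfl | rfl⟩ := k.eq_nat_or_neg
  · rw [zpow_natCast, Int.natAbs_natCast]; exact LetProd.pow h m
  · rw [zpow_neg, zpow_natCast, Int.natAbs_neg, Int.natAbs_natCast, ← inv_pow]
    exact LetProd.pow (LetProd.inv_letter h) m

theorem let_a : inF ga ∈ SS ∨ (inF ga)⁻¹ ∈ SS := Or.inl mem_SS_xa
theorem let_b : inF gb ∈ SS ∨ (inF gb)⁻¹ ∈ SS := Or.inl mem_SS_xb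
theorem let_c : inF gc ∈ SS ∨ (inF gc)⁻¹ ∈ SS := Or.inl mem_SS_xc

theorem letProd_U (k : ℤ) : LetProd (U k) (k.natAbs ^ 2 + 2 * k.natAbs) := by
  induction k using Int.induction_on with
  | zero => rw [U_zero]; exact LetProd.one.mono (Nat.zero_le _)
  | succ n ih =>
    rw [U_succ]
    refine (ih.mul ((LetProd.letter let_b).mul (LetProd.zpow let_a n))).mono ?_
    have h1 : ((n : ℤ) + 1).natAbs = n + 1 := by omega
    rw [h1, Int.natAbs_natCast]
    nlinarith
  | pred n ih =>
    have h1 : U (-(n : ℤ)) = U (-(n : ℤ) - 1) * (gb * ga ^ (-(n : ℤ) - 1)) := by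
      rw [← U_succ]; congr 1; ring
    have h2 : U (-(n : ℤ) - 1) = U (-(n : ℤ)) * (ga ^ ((n : ℤ) + 1) * gb⁻¹) := by
      rw [h1, show (-(n : ℤ) - 1) = -((n : ℤ) + 1) by ring, zpow_neg]
      group
    rw [h2]
    refine (ih.mul ((LetProd.zpow let_a ((n : ℤ) + 1)).mul
      (LetProd.letter (LetProd.inv_letter let_b)))).mono ?_
    have h3 : ((n : ℤ) + 1).natAbs = n + 1 := by omega
    have h4 : (-(n : ℤ) - 1).natAbs = n + 1 := by omega
    rw [h3, h4, Int.natAbs_neg, Int.natAbs_natCast]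
    nlinarith

theorem conn_word (l : List F) : ∀ z : GG, (∀ a ∈ l, inF a ∈ SS ∨ (inF a)⁻¹ ∈ SS) →
    Conn (fun g => g.k = z.k) l.length z (z * inF l.prod) := by
  induction l with
  | nil => intro z _; simpa using conn_refl (P := fun g => g.k = z.k) (x := z) rfl
  | cons a l ih =>
    intro z hl
    have h1 : Conn (fun g => g.k = z.k) 1 z (z * inF a) :=
      conn_step (hl a List.mem_cons_self) rfl (by simp)
    have h2 := ih (z * inF a) (fun b hb => hl b (List.mem_cons_of_mem _ hb))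
    have h3 : (z * inF a).k = z.k := by simp
    rw [h3] at h2
    have h4 := Conn.trans h1 h2
    rw [List.prod_cons, map_mul, ← mul_assoc, List.length_cons, add_comm]
    exact h4

theorem conn_letProd {w : F} {m : ℕ} (h : LetProd w m) (z : GG) :
    Conn (fun g => g.k = z.k) m z (z * inF w) := by
  obtain ⟨l, hl, rfl, hm⟩ := h
  exact (conn_word l z hl).mono (fun _ h => h) hm

theorem inF_mul_tt_zpow (w : F) (N : ℤ) : inF w * tt ^ N = tt ^ N * inF ((phi ^ (-N)) w) := by
  rw [tt_zpow]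
  ext1
  · simp only [GG.mul_w, inF_w, inF_k, vt_w, vt_k, zpow_zero, MulAut.one_apply, mul_one, one_mul]
    rw [← MulAut.mul_apply, ← zpow_add, add_neg_cancel, zpow_zero, MulAut.one_apply]
  · simp

theorem one_le_hop (n : ℕ) : 1 ≤ 2 * (n + 1) ^ 2 := by
  have := Nat.one_le_pow 2 (n + 1) (by omega)
  omega

theorem letProd_phi (k : ℤ) (w : F) (hw : w = ga ∨ w = gb ∨ w = gc) :
    LetProd ((phi ^ k) w) (2 * (k.natAbs + 1) ^ 2) := by
  rcases hw with rfl | rfl | rfl
  · rw [phi_zpow_a]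
    exact (LetProd.letter let_a).mono (one_le_hop _)
  · rw [phi_zpow_b]
    exact ((LetProd.letter let_b).mul (LetProd.zpow let_a k)).mono (by nlinarith)
  · rw [phi_zpow_c]
    exact ((LetProd.letter let_c).mul (letProd_U k)).mono (by nlinarith)

theorem conn_hop_F (z : GG) (w : F) (hw : w = ga ∨ w = gb ∨ w = gc) (N : ℤ) :
    Conn (fun g => |g.k - (z.k + N)| ≤ 1) (2 * (N.natAbs + 1) ^ 2)
      (z * tt ^ N) (z * inF w * tt ^ N) := by
  rw [mul_assoc z (inF w), inF_mul_tt_zpow, ← mul_assoc]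
  have h1 := conn_letProd (letProd_phi (-N) w hw) (z * tt ^ N)
  rw [Int.natAbs_neg] at h1
  refine h1.mono ?_ le_rfl
  intro g hg
  have h2 : g.k = (z * tt ^ N).k := hg
  rw [h2, GG.mul_k, tt_zpow, vt_k]
  simp

theorem conn_hop (z s : GG) (hs : s ∈ SS ∨ s⁻¹ ∈ SS) (N : ℤ) :
    Conn (fun g => |g.k - (z.k + N)| ≤ 1) (2 * (N.natAbs + 1) ^ 2)
      (z * tt ^ N) (z * s * tt ^ N) := by
  have hF : ∀ w : F, (w = ga ∨ w = gb ∨ w = gc) → s⁻¹ = inF w →
      Conn (fun g => |g.k - (z.k + N)| ≤ 1) (2 * (N.natAbs + 1) ^ 2)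
      (z * tt ^ N) (z * s * tt ^ N) := by
    intro w hw h
    have h1 := conn_hop_F (z * s) w hw N
    rw [← h, mul_inv_cancel_right] at h1
    have h2 : (z * s).k = z.k := by
      have : s = (inF w)⁻¹ := by rw [← h, inv_inv]
      rw [this, ← map_inv, GG.mul_k, inF_k, add_zero]
    rw [h2] at h1
    exact h1.symm
  have hk : (z * tt ^ N).k = z.k + N := by rw [GG.mul_k, tt_zpow, vt_k]
  rcases hs with hs | hs
  · simp only [SS, Set.mem_insert_iff, Set.mem_singleton_iff] at hs
    rcases hs with rfl | rfl | rfl | rfl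
    · have h1 : z * tt * tt ^ N = z * tt ^ N * tt := by
        rw [mul_assoc, mul_assoc, ← zpow_one_add, ← zpow_add_one, add_comm]
      rw [h1]
      refine (conn_step (Or.inl mem_SS_tt) ?_ ?_).mono (fun _ h => h) (one_le_hop _)
      · rw [hk]; simp
      · rw [GG.mul_k, hk]
        show |z.k + N + 1 - (z.k + N)| ≤ 1
        simp
    · exact conn_hop_F z ga (Or.inl rfl) N
    · exact conn_hop_F z gb (Or.inr (Or.inl rfl)) N
    · exact conn_hop_F z gc (Or.inr (Or.inr rfl)) N
  · simp only [SS, Set.mem_insert_iff, Set.mem_singleton_iff] at hs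
    rcases hs with hs | hs | hs | hs
    · have hs' : s = tt⁻¹ := by rw [← hs, inv_inv]
      subst hs'
      have h1 : z * tt⁻¹ * tt ^ N = z * tt ^ N * tt⁻¹ := by
        rw [mul_assoc, mul_assoc, ← zpow_neg_one, ← zpow_add, ← zpow_add, add_comm]
      rw [h1]
      refine (conn_step (Or.inr (by rw [inv_inv]; exact mem_SS_tt)) ?_ ?_).mono (fun _ h => h)
        (one_le_hop _)
      · rw [hk]; simp
      · rw [GG.mul_k, hk, GG.inv_k]
        show |z.k + N + -1 - (z.k + N)| ≤ 1
        simp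
    · exact hF ga (Or.inl rfl) hs
    · exact hF gb (Or.inr (Or.inl rfl)) hs
    · exact hF gc (Or.inr (Or.inr rfl)) hs

end QRPoset
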