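import Mathlib
import Pool.Agent.QRPoset.Words

open scoped NNReal

namespace QRPoset

/-! ### TARGET J9: interpolation of coarse paths

Plain words. Between `g n` and `g (n+1)` choose a geodesic word `l n` (`exists_min_word`) of length
`≤ M` and put `p m = g (m / M) * ((l (m / M)).take (m % M)).prod`. (If the word is shorter than `M`
the `take` is the whole word.) Consecutive points differ by one letter or are equal (also at the
end of the block, since `(l n).take (M-1)` times at most one more letter is the whole word, as
`(l n).length ≤ M`). -/

lemma interpolate_step {G : Type} [Group G] {S : Set G} {l : List G} (hl : WordIn S l) (r : ℕ) :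
    wlen S ((l.take r).prod⁻¹ * (l.take (r + 1)).prod) ≤ 1 := by
  by_cases hr : r < l.length
  · have h1 : l.take (r + 1) = l.take r ++ [l[r]] := by
      rw [List.take_append_getElem hr]
    rw [h1, List.prod_append, List.prod_singleton, inv_mul_cancel_left]
    exact wlen_gen_le (hl _ (List.getElem_mem hr))
  · have h1 : l.take (r + 1) = l.take r := by
      rw [List.take_of_length_le (by omega), List.take_of_length_le (by omega)]
    rw [h1, inv_mul_cancel, wlen_one]
    exact Nat.zero_le _

theorem interpolate {G : Type} [Group G] {S : Set G} (hS : Subgroup.closure S = ⊤) (M : ℕ)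
    (hM : 1 ≤ M) (g : ℕ → G) (h : ∀ n, wdist S (g n) (g (n + 1)) ≤ M) :
    ∃ p : ℕ → G, (∀ n, p (M * n) = g n) ∧ (∀ m, wdist S (p m) (p (m + 1)) ≤ 1) ∧
      ∀ m, wdist S (g (m / M)) (p m) ≤ M := by
  choose l hl hprod hlen using fun n => exists_min_word hS ((g n)⁻¹ * g (n + 1))
  have hlM : ∀ n, (l n).length ≤ M := fun n => by
    rw [hlen n]; exact h n
  refine ⟨fun m => g (m / M) * ((l (m / M)).take (m % M)).prod, ?_, ?_, ?_⟩
  · intro n
    show g (M * n / M) * ((l (M * n / M)).take (M * n % M)).prod = g n
    rw [Nat.mul_div_cancel_left n (by omega), Nat.mul_mod_right]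
    simp
  · intro m
    have hr : m % M < M := Nat.mod_lt _ (by omega)
    have hm : M * (m / M) + m % M = m := Nat.div_add_mod m M
    have key : g ((m + 1) / M) * ((l ((m + 1) / M)).take ((m + 1) % M)).prod =
        g (m / M) * ((l (m / M)).take (m % M + 1)).prod := by
      rcases Nat.lt_or_ge (m % M + 1) M with h1 | h1
      · have h2 : (m + 1) / M = m / M := by
          rw [Nat.div_eq_iff (by omega)]
          constructor
          · rw [mul_comm]; omega
          · have : (m / M + 1) * M = M * (m / M) + M := by ring
            have h3 : m / M * M = M * (m / M) := mul_comm _ _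
            omega
        have h3 : (m + 1) % M = m % M + 1 := by
          have := Nat.div_add_mod (m + 1) M
          rw [h2] at this
          omega
        rw [h2, h3]
      · have h1' : m % M + 1 = M := by omega
        have h2 : m + 1 = M * (m / M + 1) := by
          rw [mul_add, mul_one]; omega
        have h3 : (m + 1) / M = m / M + 1 := by
          rw [h2, Nat.mul_div_cancel_left _ (by omega)]
        have h4 : (m + 1) % M = 0 := by
          rw [h2, Nat.mul_mod_right]
        rw [h3, h4, h1', List.take_of_length_le (hlM _), hprod]
        simp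
    show wlen S ((g (m / M) * ((l (m / M)).take (m % M)).prod)⁻¹ *
      (g ((m + 1) / M) * ((l ((m + 1) / M)).take ((m + 1) % M)).prod)) ≤ 1
    rw [key]
    have h5 : (g (m / M) * ((l (m / M)).take (m % M)).prod)⁻¹ *
        (g (m / M) * ((l (m / M)).take (m % M + 1)).prod) =
        ((l (m / M)).take (m % M)).prod⁻¹ * ((l (m / M)).take (m % M + 1)).prod := by
      group
    rw [h5]
    exact interpolate_step (hl _) _
  · intro m
    show wlen S ((g (m / M))⁻¹ * (g (m / M) * ((l (m / M)).take (m % M)).prod)) ≤ M
    rw [inv_mul_cancel_left]
    have hw : WordIn S ((l (m / M)).take (m % M)) := fun a ha => hl _ a (List.mem_of_mem_take ha)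
    refine (wlen_le hw).trans ?_
    rw [List.length_take]
    exact (min_le_left _ _).trans (Nat.mod_lt _ (by omega)).le

end QRPoset
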