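import Mathlib
import Pool.Agent.QRPoset.Cubic

open scoped NNReal

namespace QRPoset

/-! ### TARGET J10c: the divergence is at least cubic

Plain words. Let `C₀` be the constant of `cubic`. Given `n`, put `m = K (n + 1)` with a natural number
`K` depending on `δ, γ, C₀` such that `δ m - γ ≥ ρ + 1` where `ρ := (4 C₀ + 4) (n + 1)`, say. Take
`x = vt (gc ^ m) 0`, `y = vt (gc ^ (-m)) 0`, centre `1`. Then `wdist 1 x = len x = m = wdist 1 y`
(`len_xc_zpow`), `wdist x y ≤ 2 m ≤ C n + C` (or `x⁻¹ y = c^(-2m)`). Any word `l` with `Avoids SS 1 (δ m - γ) x y l`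
gives the path `p i = x * (l.take i).prod`, `N = l.length`, with `len (p i) ≥ δ m - γ ≥ ρ`
(`wdist S 1 g = wlen S g`), and consecutive points differ by one letter, so are at distance `≤ 1`
(`wlen_gen_le`). `cubic` gives `ρ³ ≤ C₀ l.length + C₀ ρ² + C₀`; as `ρ ≥ 4 C₀ + 4`, `C₀ ρ² + C₀ ≤ ρ³ / 2`, so
`ρ³ / 2 ≤ C₀ l.length`, hence `n³ ≤ l.length` (check the constants; enlarge `ρ` if convenient).
So `divPts ≥ n³` and `n³ ≤ Div (C n + C)`. In `Dominated` one also may use the extra terms. -/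

theorem div_lower (γ δ : ℝ) (hδ : 0 < δ) (hδ' : δ ≤ 1 / 2) (hγ : 2 ≤ γ) :
    Dominated (fun n => ((n ^ 3 : ℕ) : ℕ∞)) (Div SS γ δ) := by
  obtain ⟨C₀, hC⟩ := cubic
  obtain ⟨K, hK⟩ := exists_nat_ge (((4 * C₀ + 4 : ℕ) + γ) / δ)
  have hK' : ((4 * C₀ + 4 : ℕ) : ℝ) + γ ≤ δ * K := by
    rw [div_le_iff₀ hδ] at hK
    linarith [mul_comm δ (K : ℝ)]
  have hc0 : (0 : ℝ) ≤ ((4 * C₀ + 4 : ℕ) : ℝ) := Nat.cast_nonneg _
  have hK1 : 1 ≤ K := by
    rcases Nat.eq_zero_or_pos K with h | h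
    · rw [h] at hK'
      simp only [Nat.cast_zero, mul_zero] at hK'
      linarith
    · exact h
  refine ⟨2 * K, fun n => ?_⟩
  -- the two points
  set m : ℕ := K * (n + 1) with hm
  have hm1 : 1 ≤ m := Nat.mul_pos hK1 (Nat.succ_pos n)
  have hw : ∀ g : GG, wdist SS 1 g = wlen SS g := by
    intro g
    rw [wdist, inv_one, one_mul]
  have hx : wdist SS 1 (vt (gc ^ (m : ℤ)) 0) = m := by
    rw [hw]
    have := len_xc_zpow (m : ℤ)
    rw [Int.natAbs_natCast] at this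
    exact this
  have hy : wdist SS 1 (vt (gc ^ (-(m : ℤ))) 0) = m := by
    rw [hw]
    have := len_xc_zpow (-(m : ℤ))
    rw [Int.natAbs_neg, Int.natAbs_natCast] at this
    exact this
  have hxy : wdist SS (vt (gc ^ (m : ℤ)) 0) (vt (gc ^ (-(m : ℤ))) 0) ≤ 2 * K * n + 2 * K := by
    have h := wdist_triangle closure_SS (vt (gc ^ (m : ℤ)) 0) 1 (vt (gc ^ (-(m : ℤ))) 0)
    rw [wdist_comm closure_SS (vt (gc ^ (m : ℤ)) 0) 1, hx, hy] at h
    refine h.trans (le_of_eq ?_)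
    rw [hm]
    ring
  have hmem : divPts SS γ δ (vt (gc ^ (m : ℤ)) 0) (vt (gc ^ (-(m : ℤ))) 0) 1 ≤
      Div SS γ δ (2 * K * n + 2 * K) := by
    refine le_sSup ⟨_, _, 1, hxy, ?_, rfl⟩
    rw [hx, hy, min_self]
    exact hm1
  have hlow : ((n ^ 3 : ℕ) : ℕ∞) ≤
      divPts SS γ δ (vt (gc ^ (m : ℤ)) 0) (vt (gc ^ (-(m : ℤ))) 0) 1 := by
    refine le_sInf ?_
    rintro _ ⟨l, ⟨hl, hlp, hav⟩, rfl⟩
    rw [hx, hy, min_self] at hav
    -- the radius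
    set ρ : ℕ := (4 * C₀ + 4) * (n + 1) with hρ
    have hρ' : (ρ : ℝ) ≤ δ * (m : ℕ) - γ := by
      have h1 : (ρ : ℝ) = ((4 * C₀ + 4 : ℕ) : ℝ) * ((n : ℝ) + 1) := by
        rw [hρ]; push_cast; ring
      have h2 : δ * ((m : ℕ) : ℝ) = (δ * K) * ((n : ℝ) + 1) := by
        rw [hm]; push_cast; ring
      have h3 : (0 : ℝ) ≤ (n : ℝ) := Nat.cast_nonneg _
      have h4 : (((4 * C₀ + 4 : ℕ) : ℝ) + γ) * ((n : ℝ) + 1) ≤ (δ * K) * ((n : ℝ) + 1) :=
        mul_le_mul_of_nonneg_right hK' (by linarith)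
      have h5 : (0 : ℝ) ≤ γ * n := mul_nonneg (by linarith) h3
      rw [h1, h2]
      linarith [h4, h5, add_mul ((4 * C₀ + 4 : ℕ) : ℝ) γ ((n : ℝ) + 1)]
    have hmain := hC (fun i => vt (gc ^ (m : ℤ)) 0 * (l.take i).prod) l.length (m : ℤ) ρ
      (by exact_mod_cast hm1)
      (by
        intro i hi
        show wdist SS _ _ ≤ 1
        rw [wdist_mul_left, wdist]
        have h1 : (l.take (i + 1)).prod = (l.take i).prod * l[i] := List.prod_take_succ l i hi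
        rw [h1, inv_mul_cancel_left]
        exact wlen_gen_le (hl _ (List.getElem_mem hi)))
      (by simp)
      (by
        show _ * (l.take l.length).prod = _
        rw [List.take_length]
        exact hlp)
      (by
        intro i hi
        have h1 := hav i hi
        rw [hw] at h1
        have h2 : (ρ : ℝ) ≤ ((wlen SS (vt (gc ^ (m : ℤ)) 0 * (l.take i).prod) : ℕ) : ℝ) :=
          hρ'.trans h1
        exact_mod_cast h2)
    -- arithmetic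
    have hρ1 : 1 ≤ ρ := by
      rw [hρ]
      exact Nat.mul_pos (by omega) (Nat.succ_pos n)
    have hρ2 : 4 * C₀ ≤ ρ := by
      rw [hρ]
      nlinarith [Nat.zero_le n, Nat.zero_le C₀, Nat.zero_le (C₀ * n)]
    have e1 : C₀ ≤ C₀ * ρ ^ 2 := by
      have : 1 ≤ ρ ^ 2 := Nat.one_le_pow _ _ hρ1
      nlinarith
    have e2 : 4 * C₀ * ρ ^ 2 ≤ ρ ^ 3 := by
      calc 4 * C₀ * ρ ^ 2 ≤ ρ * ρ ^ 2 := Nat.mul_le_mul_right _ hρ2
        _ = ρ ^ 3 := by ring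
    have e3 : ρ ^ 3 ≤ 2 * (C₀ * l.length) := by
      have e4 : 4 * C₀ * ρ ^ 2 = 4 * (C₀ * ρ ^ 2) := by ring
      omega
    have e5 : (2 * C₀ + 1) * (n + 1) ^ 3 ≤ ρ ^ 3 := by
      rw [hρ, mul_pow]
      refine Nat.mul_le_mul_right _ ?_
      calc 2 * C₀ + 1 ≤ (4 * C₀ + 4) ^ 1 := by rw [pow_one]; omega
        _ ≤ (4 * C₀ + 4) ^ 3 := Nat.pow_le_pow_right (by omega) (by norm_num)
    have e6 : n ^ 3 ≤ (n + 1) ^ 3 := Nat.pow_le_pow_left (Nat.le_succ n) 3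
    have hfin : n ^ 3 ≤ l.length := by
      by_contra hcon
      push Not at hcon
      have e7 : C₀ * l.length ≤ C₀ * n ^ 3 := Nat.mul_le_mul_left _ hcon.le
      have e8 : C₀ * n ^ 3 ≤ C₀ * (n + 1) ^ 3 := Nat.mul_le_mul_left _ e6
      have e9 : (2 * C₀ + 1) * (n + 1) ^ 3 = 2 * (C₀ * (n + 1) ^ 3) + (n + 1) ^ 3 := by ring
      have e10 : 0 < (n + 1) ^ 3 := pow_pos (Nat.succ_pos n) 3
      omega
    exact_mod_cast hfin
  show ((n ^ 3 : ℕ) : ℕ∞) ≤ _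
  have hchain : ((n ^ 3 : ℕ) : ℕ∞) ≤ Div SS γ δ (2 * K * n + 2 * K) := hlow.trans hmem
  have hone : (1 : ℕ∞) ≤ ((2 * K : ℕ) : ℕ∞) := by
    have : (1 : ℕ) ≤ 2 * K := by omega
    exact_mod_cast this
  calc ((n ^ 3 : ℕ) : ℕ∞) ≤ Div SS γ δ (2 * K * n + 2 * K) := hchain
    _ = 1 * Div SS γ δ (2 * K * n + 2 * K) := (one_mul _).symm
    _ ≤ ((2 * K : ℕ) : ℕ∞) * Div SS γ δ (2 * K * n + 2 * K) := mul_le_mul_left hone _
    _ ≤ ((2 * K : ℕ) : ℕ∞) * Div SS γ δ (2 * K * n + 2 * K) + ((2 * K : ℕ) : ℕ∞) * n +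
        ((2 * K : ℕ) : ℕ∞) := by
      rw [add_assoc]
      exact le_self_add

end QRPoset
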