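import Mathlib
import Pool.Agent.QRPoset.Chain

/-!
# No coarse path back through the `c`-edge
-/

namespace QRPoset

theorem no_coarse_path (a b : ℕ) : ∃ N₀ : ℕ, ∀ (p : ℕ → GG) (A T : ℕ) (k : ℤ),
    N₀ ≤ A → A ≤ T → (∀ n, gd (p n) (p (n + 1)) ≤ 1) → (∀ m, m ≤ a * len (p m) + b) →
    p A = vt gc k → (p T).w = 1 → False := by
  obtain ⟨C, hC⟩ := chain_lemma
  refine ⟨(a + 1) * (C * (4 * (a + 1) + 4)) + (a + 1) * C + 3 * (a + 1) + b, ?_⟩
  intro p A T k hN hAT hstep hlen hpA hpT
  classical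
  have hFA : FL (p A).w = some (2, true) := by
    rw [hpA, vt_w, gc_eq]; exact FL_lt _
  have hAT' : A < T := by
    rcases hAT.lt_or_eq with h | h
    · exact h
    · exfalso
      rw [h, hpT] at hFA
      simp at hFA
  have hex : ∃ m, A ≤ m ∧ FL (p (m + 1)).w ≠ some (2, true) := by
    refine ⟨T - 1, by omega, ?_⟩
    rw [Nat.sub_add_cancel (by omega), hpT]
    simp
  obtain ⟨hAB, hB⟩ := Nat.find_spec hex
  have hmin : ∀ m, m < Nat.find hex → ¬ (A ≤ m ∧ FL (p (m + 1)).w ≠ some (2, true)) :=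
    fun m hm => Nat.find_min hex hm
  generalize Nat.find hex = B at hAB hB hmin
  have hF : ∀ m, A ≤ m → m ≤ B → FL (p m).w = some (2, true) := by
    intro m h1 h2
    rcases h1.eq_or_lt with h | h
    · rw [← h]; exact hFA
    · have h3 := hmin (m - 1) (by omega)
      rw [Nat.sub_add_cancel (by omega)] at h3
      by_contra h4
      exact h3 ⟨by omega, h4⟩
  obtain ⟨l, hl1, hl2⟩ := cross_c (hstep B) (hF B hAB le_rfl) hB
  let P : ℕ → GG := fun m => inF gc⁻¹ * p m
  have hPw : ∀ m, (P m).w = gc⁻¹ * (p m).w := by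
    intro m
    simp [P]
  have hPk : ∀ m, (P m).k = (p m).k := by
    intro m
    simp [P]
  have hPA : P A = vt 1 k := by
    ext1
    · rw [hPw, hpA]; simp
    · rw [hPk, hpA]; simp
  have hPB : P B = vt (U l) l := by
    ext1
    · rw [hPw, hl1]; simp
    · rw [hPk, hl1]; simp
  have hPstep : ∀ n, gd (P n) (P (n + 1)) ≤ 1 := by
    intro n
    have : gd (P n) (P (n + 1)) = gd (p n) (p (n + 1)) := wdist_mul_left _ _ _
    rw [this]
    exact hstep n
  have hPF : ∀ n, A ≤ n → n ≤ B → FL (P n).w ≠ some (2, false) := by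
    intro n h1 h2
    rw [← FL_gc_mul, hPw, mul_inv_cancel_left]
    exact hF n h1 h2
  have hPlen : ∀ m, m ≤ (a + 1) * len (P m) + (a + 1 + b) := by
    intro m
    have h1 : len (p m) ≤ 1 + len (P m) := by
      have h2 : p m = inF gc * P m := by
        simp only [P]
        rw [← mul_assoc, ← map_mul, mul_inv_cancel, map_one, one_mul]
      have h3 : wlen SS (inF gc * P m) ≤ wlen SS (inF gc) + wlen SS (P m) :=
        wlen_mul_le closure_SS _ _
      have h4 : wlen SS (inF gc) ≤ 1 := wlen_gen_le (Or.inl mem_SS_xc)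
      calc len (p m) = wlen SS (inF gc * P m) := by rw [← h2]
        _ ≤ wlen SS (inF gc) + wlen SS (P m) := h3
        _ ≤ 1 + wlen SS (P m) := by omega
    have h5 := hlen m
    nlinarith
  obtain ⟨τ, hτ1, hτ2⟩ := hC P A B k l hAB (fun n _ _ => hPstep n) hPF hPA hPB
  have claim : ∀ j, j < l.natAbs → A + (4 * (a + 1) + 4) * j ≤ τ j := by
    intro j
    induction j with
    | zero =>
      intro h
      simpa using (hτ1 0 h).1
    | succ j ih =>
      intro h
      have ih' := ih (by omega)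
      obtain ⟨h1, h2⟩ := hτ2 j h
      by_contra hcon
      push Not at hcon
      have h3 := h2 ((τ j - (a + 1 + b)) / (a + 1)) (by
        intro n hn1 hn2
        apply Nat.div_le_of_le_mul
        have := hPlen n
        omega)
      have h4 : τ (j + 1) - τ j ≤ 4 * (a + 1) + 4 := by
        have : (4 * (a + 1) + 4) * (j + 1) = (4 * (a + 1) + 4) * j + (4 * (a + 1) + 4) := by ring
        omega
      have h5 : τ j - (a + 1 + b) < (a + 1) * ((τ j - (a + 1 + b)) / (a + 1) + 1) :=
        Nat.lt_mul_div_succ _ (by omega)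
      have h6 : (τ j - (a + 1 + b)) / (a + 1) + 1 ≤ C * (4 * (a + 1) + 4) + 2 * j + C + 1 := by
        have : C * (τ (j + 1) - τ j) ≤ C * (4 * (a + 1) + 4) := Nat.mul_le_mul_left _ h4
        omega
      have h7 : (a + 1) * ((τ j - (a + 1 + b)) / (a + 1) + 1) ≤
          (a + 1) * (C * (4 * (a + 1) + 4) + 2 * j + C + 1) := Nat.mul_le_mul_left _ h6
      have h8 : (a + 1) * (C * (4 * (a + 1) + 4) + 2 * j + C + 1) =
          (a + 1) * (C * (4 * (a + 1) + 4)) + (a + 1) * C + (a + 1) + 2 * (a + 1) * j := by ring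
      have h9 : 2 * (a + 1) * j ≤ (4 * (a + 1) + 4) * j := Nat.mul_le_mul_right _ (by omega)
      omega
  have hB1 := hPlen B
  rw [hPB] at hB1
  have hU : len (vt (U l) l) ≤ 2 * l.natAbs := by
    have h1 := len_U_le l l
    rw [sub_self, abs_zero, add_zero, Int.abs_eq_natAbs] at h1
    exact_mod_cast h1
  have hB2 : B ≤ (a + 1) * (2 * l.natAbs) + (a + 1 + b) :=
    hB1.trans (Nat.add_le_add_right (Nat.mul_le_mul_left _ hU) _)
  rcases Nat.eq_zero_or_pos l.natAbs with h0 | h0
  · rw [h0] at hB2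
    simp only [mul_zero, zero_add] at hB2
    omega
  · have h1 := claim (l.natAbs - 1) (by omega)
    have h2 := (hτ1 (l.natAbs - 1) (by omega)).2
    obtain ⟨L, hL⟩ : ∃ L, l.natAbs = L + 1 := ⟨l.natAbs - 1, by omega⟩
    rw [hL, Nat.add_sub_cancel] at h1 h2
    rw [hL] at hB2
    have h3 : (a + 1) * (2 * (L + 1)) = 2 * (a + 1) * L + 2 * (a + 1) := by ring
    have h4 : 2 * (a + 1) * L ≤ (4 * (a + 1) + 4) * L := Nat.mul_le_mul_right _ (by omega)
    omega

end QRPoset
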