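import Mathlib
import Pool.Agent.QRPoset.Flat

open scoped NNReal

namespace QRPoset

/-! ### TARGET J5: the spiral path

Plain words. For `j L : ℕ` define a path `sp j L : ℕ → GG` by recursion on `j`:
* `sp 0 L n = vt 1 (L + n)`;
* `sp (j+1) L n = vt (U (j+1)) (L + n)` if `n ≤ L` (rise);
  `= vt (U (j+1) * ga ^ (n - L)) (2 L)` if `L < n ≤ 3 L - j` (stretch);
  `= sp j (2 L) (n - (3 L - j + 1))` if `n > 3 L - j` (tail).
Always `j ≤ L`, `1 ≤ L` (for `sp (j+1) L` assume `j + 1 ≤ L`). Note `U (j+1) = U j * (gb * ga ^ j)`, so at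
`n = 3 L - j` we are at `vt (U j * gb * ga ^ (2L)) (2L)`, and the next point is `vt (U j) (2L)`, which is the
previous one times `xb⁻¹` (`(phi ^ k) gb = gb * ga ^ k`). So consecutive points are at distance `≤ 1`.
(S2) `n ≤ 4 (κ - L)` where `κ = (sp j L n).k` is the level; in particular `κ ≥ L`: rise `κ - L = n`; stretch:
`κ - L = L`, `n ≤ 3 L`; tail: the stage took `3 L - j + 1 ≤ 4 L` steps, induction.
(S3) for `n ≤ n'`: `n' - n ≤ 8 * gd (sp j L n) (sp j L n') + 8`. Both in the tail: induction. Otherwise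
`n` is in the first stage; with `D = gd`, always `D ≥ κ' - κ` (`abs_level_sub_le`).
 - rise/rise: `D ≥ n' - n`. rise/stretch: `g⁻¹ g' = vt (ga ^ (n' - L)) (L - n)`, use `flat_undistorted`
   and the level. stretch/stretch: `g⁻¹ g' = vt (ga ^ (n' - n)) 0`, `flat_undistorted`.
 - `n` in the first stage, `n' = 3 L - j + 1 + n''` in the tail. If `κ' ≥ 3 L`: `κ' - κ ≥ κ' - 2 L ≥ L` and
   `n' - n ≤ 3 L + 1 + 4 (κ' - 2 L) ≤ 8 (κ' - 2L)`. If `κ' < 3 L`: then `n'' < L` and
   `g' = vt (U j) (2 L + n'')` (also if `j = 0`). If `n` is in the rise (`n ≤ L`), `k = L + n`: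
   `g⁻¹ g' = vt (ga ^ (k - j) * gb⁻¹) (L - n + n'')`, whose length is at least
   `len (vt (ga ^ (k - j)) 0) - 1 - (L - n + n'')`. With `flat_undistorted`:
   `(2 L - j) - (L - n) = k - j ≤ 2 (D + 1 + (L - n) + n'') + 1`, and `D ≥ (L - n) + n''`. If
   `n` is in the stretch: `g = vt (U j * gb * ga ^ m) (2 L)` with `m = j + n - L`, and
   `g⁻¹ g' = vt (ga ^ (2 L - m) * gb⁻¹) n''`, so `2 L - m ≤ 2 (D + 1 + n'') + 1`, `D ≥ n''`, and
   `n' - n = 2 L - m + 1 + n''`.
(S4) eventually `sp j L n = vt 1 (L' + (n - T))`.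
Finally, for `r ≥ 1`: `p n = vt 1 n` for `n ≤ r` and `p (r + 1 + n) = xc * sp r r n`
(`vt 1 r * xc = vt (gc * U r) r = xc * vt (U r) r`). For `n ≤ r < n' = r + 1 + m`:
`gd ≥ κ' - n = (κ' - r) + (r - n) ≥ m / 4 + (r - n)` by (S2). (The constants `9` below leave room.) -/


private lemma inv_mul_vt (w w' : F) (k k' : ℤ) :
    (vt w k)⁻¹ * vt w' k' = vt ((phi ^ (-k)) (w⁻¹ * w')) (k' - k) := by
  ext1
  · simp only [GG.mul_w, GG.inv_w, GG.inv_k, vt_w, vt_k, map_mul]
  · simp only [GG.mul_k, GG.inv_k, vt_k]; ring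

private lemma gd_vt (w w' : F) (k k' : ℤ) :
    gd (vt w k) (vt w' k') = len (vt ((phi ^ (-k)) (w⁻¹ * w')) (k' - k)) := by
  unfold gd wdist
  rw [inv_mul_vt]

private lemma gd_step {g s : GG} (hs : s ∈ SS ∨ s⁻¹ ∈ SS) : gd g (g * s) ≤ 1 := by
  unfold gd wdist
  rw [inv_mul_cancel_left]
  exact wlen_gen_le hs

private lemma gd_step_up (w : F) (k : ℤ) : gd (vt w k) (vt w (k + 1)) ≤ 1 := by
  have h : vt w (k + 1) = vt w k * tt := by
    ext1 <;> simp [tt]
  rw [h]
  exact gd_step (Or.inl mem_SS_tt)

private lemma gd_step_a (w : F) (k : ℤ) (m : ℤ) :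
    gd (vt (w * ga ^ m) k) (vt (w * ga ^ (m + 1)) k) ≤ 1 := by
  have h : vt (w * ga ^ (m + 1)) k = vt (w * ga ^ m) k * xa := by
    ext1
    · simp [xa, zpow_add_one, mul_assoc]
    · simp [xa]
  rw [h]
  exact gd_step (Or.inl mem_SS_xa)

private lemma gd_step_b (w : F) (k : ℤ) :
    gd (vt (w * gb * ga ^ k) k) (vt w k) ≤ 1 := by
  have h : vt (w * gb * ga ^ k) k = vt w k * xb := by
    ext1
    · simp [xb, mul_assoc]
    · simp [xb]
  have h2 : vt w k = vt (w * gb * ga ^ k) k * xb⁻¹ := by rw [h]; group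
  rw [h2]
  have h3 := gd_step (g := vt (w * gb * ga ^ k) k) (s := xb⁻¹) (Or.inr (by simpa using mem_SS_xb))
  convert h3 using 2

/-- the spiral -/
private def sp : ℕ → ℕ → ℕ → GG
  | 0, L, n => vt 1 ((L : ℤ) + n)
  | j + 1, L, n =>
    if n ≤ L then vt (U ((j : ℤ) + 1)) ((L : ℤ) + n)
    else if n + j ≤ 3 * L then vt (U ((j : ℤ) + 1) * ga ^ ((n : ℤ) - L)) (2 * L)
    else sp j (2 * L) (n - (3 * L - j + 1))

private lemma sp_zero (L n : ℕ) : sp 0 L n = vt 1 ((L : ℤ) + n) := by rw [sp]

private lemma sp_rise {j L n : ℕ} (h : n ≤ L) :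
    sp (j + 1) L n = vt (U ((j : ℤ) + 1)) ((L : ℤ) + n) := by
  rw [sp, if_pos h]

private lemma sp_stretch {j L n : ℕ} (h : ¬ n ≤ L) (h2 : n + j ≤ 3 * L) :
    sp (j + 1) L n = vt (U ((j : ℤ) + 1) * ga ^ ((n : ℤ) - L)) (2 * L) := by
  rw [sp, if_neg h, if_pos h2]

private lemma sp_tail {j L n : ℕ} (h : ¬ n ≤ L) (h2 : ¬ n + j ≤ 3 * L) :
    sp (j + 1) L n = sp j (2 * L) (n - (3 * L - j + 1)) := by
  rw [sp, if_neg h, if_neg h2]

private lemma sp_start (j L : ℕ) : sp j L 0 = vt (U (j : ℤ)) (L : ℤ) := by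
  cases j with
  | zero => rw [sp_zero]; simp
  | succ j => rw [sp_rise (Nat.zero_le _)]; simp

private lemma sp_low {j L n : ℕ} (h : n ≤ L) : sp j L n = vt (U (j : ℤ)) ((L : ℤ) + n) := by
  cases j with
  | zero => rw [sp_zero]; simp
  | succ j => rw [sp_rise h]; simp

private lemma sp_level (j : ℕ) : ∀ (L n : ℕ), j ≤ L → 1 ≤ L →
    (n : ℤ) ≤ 4 * ((sp j L n).k - L) := by
  induction j with
  | zero =>
    intro L n _ _
    rw [sp_zero, vt_k]
    omega
  | succ j ih =>
    intro L n hj hL
    by_cases h1 : n ≤ L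
    · rw [sp_rise h1, vt_k]; omega
    · by_cases h2 : n + j ≤ 3 * L
      · rw [sp_stretch h1 h2, vt_k]; omega
      · rw [sp_tail h1 h2]
        have := ih (2 * L) (n - (3 * L - j + 1)) (by omega) (by omega)
        push_cast at this
        omega

/-- if the level is small, we are in the first rise -/
private lemma sp_level_big {j L n : ℕ} (hj : j ≤ L) (hL : 1 ≤ L) (h : ¬ n ≤ L) :
    2 * (L : ℤ) ≤ (sp j L n).k := by
  cases j with
  | zero => rw [sp_zero, vt_k]; omega
  | succ j =>
    by_cases h2 : n + j ≤ 3 * L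
    · rw [sp_stretch h h2, vt_k]
    · rw [sp_tail h h2]
      have := sp_level j (2 * L) (n - (3 * L - j + 1)) (by omega) (by omega)
      push_cast at this
      omega

private lemma sp_step (j : ℕ) : ∀ (L n : ℕ), j ≤ L → 1 ≤ L → gd (sp j L n) (sp j L (n + 1)) ≤ 1 := by
  induction j with
  | zero =>
    intro L n _ _
    rw [sp_zero, sp_zero]
    have := gd_step_up 1 ((L : ℤ) + n)
    push_cast
    rw [← add_assoc]
    exact this
  | succ j ih =>
    intro L n hj hL
    by_cases h1 : n + 1 ≤ L
    · rw [sp_rise (show n ≤ L by omega), sp_rise h1]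
      push_cast
      rw [← add_assoc]
      exact gd_step_up _ _
    · by_cases h0 : n ≤ L
      · have hn : n = L := by omega
        subst hn
        rw [sp_rise h0, sp_stretch h1 (by omega)]
        have := gd_step_a (U ((j : ℤ) + 1)) (2 * n) 0
        simp only [zpow_zero, mul_one, zero_add] at this
        have e1 : ((n : ℤ) + n) = 2 * n := by ring
        have e2 : (((n + 1 : ℕ) : ℤ) - n) = 1 := by push_cast; ring
        rw [e1, e2]
        exact this
      · by_cases h2 : n + 1 + j ≤ 3 * L
        · rw [sp_stretch h0 (show n + j ≤ 3 * L by omega), sp_stretch h1 h2]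
          have := gd_step_a (U ((j : ℤ) + 1)) (2 * L) ((n : ℤ) - L)
          have e1 : (((n + 1 : ℕ) : ℤ) - L) = (n : ℤ) - L + 1 := by push_cast; ring
          rw [e1]
          exact this
        · by_cases h3 : n + j ≤ 3 * L
          · have hn : n + j = 3 * L := by omega
            rw [sp_stretch h0 h3, sp_tail h1 h2]
            have e0 : n + 1 - (3 * L - j + 1) = 0 := by omega
            rw [e0, sp_start, U_succ]
            have e1 : U (j : ℤ) * (gb * ga ^ (j : ℤ)) * ga ^ ((n : ℤ) - L)
                = U (j : ℤ) * gb * ga ^ ((2 * L : ℕ) : ℤ) := by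
              rw [mul_assoc, mul_assoc, ← zpow_add, ← mul_assoc]
              congr 2
              push_cast
              omega
            rw [e1]
            have := gd_step_b (U (j : ℤ)) ((2 * L : ℕ) : ℤ)
            push_cast at this ⊢
            exact this
          · rw [sp_tail h0 h3, sp_tail h1 h2]
            have e0 : n + 1 - (3 * L - j + 1) = (n - (3 * L - j + 1)) + 1 := by omega
            rw [e0]
            exact ih (2 * L) _ (by omega) (by omega)

private lemma flat_b (z e : ℤ) :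
    |z| ≤ 2 * ((len (vt (ga ^ z * gb⁻¹) e) : ℤ) + |e| + 1) + 1 := by
  have h0 : vt (ga ^ z) 0 = vt (ga ^ z * gb⁻¹) e * (tt ^ (-e) * xb) := by
    rw [tt_zpow]
    ext1
    · simp only [GG.mul_w, vt_w, vt_k, xb, one_mul]
      rw [← MulAut.mul_apply, ← zpow_add, add_neg_cancel, zpow_zero, MulAut.one_apply,
        inv_mul_cancel_right]
    · simp [xb]
  have h1 : len (vt (ga ^ z) 0) ≤ len (vt (ga ^ z * gb⁻¹) e) + (e.natAbs + 1) := by
    rw [h0]
    refine (wlen_mul_le closure_SS _ _).trans (Nat.add_le_add_left ?_ _)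
    refine (wlen_mul_le closure_SS _ _).trans (Nat.add_le_add ?_ (wlen_gen_le (Or.inl mem_SS_xb)))
    rw [tt_zpow]
    have := len_tt_zpow (-e)
    unfold len at this
    rw [this, Int.natAbs_neg]
  have h2 := flat_undistorted z 0
  have h3 : (len (vt (ga ^ z) 0) : ℤ) ≤ (len (vt (ga ^ z * gb⁻¹) e) : ℤ) + ((e.natAbs : ℤ) + 1) := by
    exact_mod_cast h1
  rw [Int.natCast_natAbs] at h3
  simp only [abs_zero, mul_zero, add_zero] at h2
  linarith

private lemma phi_zpow_conj (k z : ℤ) (w : F) :
    (phi ^ (-k)) ((w * gb * ga ^ z)⁻¹ * w) = ga ^ (k - z) * gb⁻¹ := by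
  have e1 : (w * gb * ga ^ z)⁻¹ * w = (ga ^ z)⁻¹ * gb⁻¹ := by group
  rw [e1, map_mul, map_inv, map_inv, map_zpow, phi_zpow_a, phi_zpow_b, mul_inv_rev, ← mul_assoc]
  congr 1
  rw [← zpow_neg, ← zpow_neg, ← zpow_add]
  congr 1
  ring

private lemma sp_qg (j : ℕ) : ∀ (L n n' : ℕ), j ≤ L → 1 ≤ L → n ≤ n' →
    ((n' : ℤ) - n) ≤ 8 * (gd (sp j L n) (sp j L n') : ℤ) + 8 := by
  induction j with
  | zero =>
    intro L n n' _ _ h
    have := abs_level_sub_le (sp 0 L n) (sp 0 L n')
    rw [sp_zero, sp_zero, vt_k, vt_k] at this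
    rw [sp_zero, sp_zero]
    have h1 := le_abs_self (((L : ℤ) + n') - (L + n))
    linarith
  | succ j ih =>
    intro L n n' hj hL h
    have hD := (le_abs_self _).trans (abs_level_sub_le (sp (j + 1) L n) (sp (j + 1) L n'))
    by_cases t' : n' ≤ L
    · -- rise, rise
      have t : n ≤ L := by omega
      rw [sp_rise t, sp_rise t', vt_k, vt_k] at hD
      rw [sp_rise t, sp_rise t']
      linarith
    · by_cases s' : n' + j ≤ 3 * L
      · by_cases t : n ≤ L
        · -- rise, stretch
          rw [sp_rise t, sp_stretch t' s'] at hD ⊢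
          simp only [vt_k] at hD
          have e1 := gd_vt (U ((j : ℤ) + 1)) (U ((j : ℤ) + 1) * ga ^ ((n' : ℤ) - L)) ((L : ℤ) + n)
            (2 * L)
          rw [inv_mul_cancel_left, map_zpow, phi_zpow_a] at e1
          have h2 := flat_undistorted ((n' : ℤ) - L) (2 * L - ((L : ℤ) + n))
          rw [← e1] at h2
          have h3 := le_abs_self ((n' : ℤ) - L)
          have h4 : |2 * (L : ℤ) - ((L : ℤ) + n)| = L - n := by
            rw [abs_of_nonneg (by omega)]; ring
          rw [h4] at h2
          linarith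
        · -- stretch, stretch
          rw [sp_stretch t (show n + j ≤ 3 * L by omega), sp_stretch t' s']
          have e1 := gd_vt (U ((j : ℤ) + 1) * ga ^ ((n : ℤ) - L))
            (U ((j : ℤ) + 1) * ga ^ ((n' : ℤ) - L)) (2 * L) (2 * L)
          have e2 : (U ((j : ℤ) + 1) * ga ^ ((n : ℤ) - L))⁻¹ * (U ((j : ℤ) + 1) * ga ^ ((n' : ℤ) - L))
              = ga ^ ((n' : ℤ) - n) := by
            rw [mul_inv_rev, mul_assoc, inv_mul_cancel_left, ← zpow_neg, ← zpow_add]
            congr 1
            ring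
          rw [e2, map_zpow, phi_zpow_a, sub_self] at e1
          have h2 := flat_undistorted ((n' : ℤ) - n) 0
          rw [← e1] at h2
          have h3 := le_abs_self ((n' : ℤ) - n)
          simp only [abs_zero, mul_zero, add_zero] at h2
          linarith
      · -- n' in the tail
        by_cases s : n + j ≤ 3 * L
        · set m : ℕ := n' - (3 * L - j + 1) with hm
          have hn' : (n' : ℤ) = 3 * L - j + 1 + m := by omega
          have hk := sp_level j (2 * L) m (by omega) (by omega)
          push_cast at hk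
          have hkn : (sp (j + 1) L n).k ≤ 2 * L := by
            by_cases t : n ≤ L
            · rw [sp_rise t, vt_k]; omega
            · rw [sp_stretch t s, vt_k]
          rw [sp_tail t' s', ← hm] at hD ⊢
          by_cases hbig : 3 * (L : ℤ) ≤ (sp j (2 * L) m).k
          · omega
          · have hm2 : m ≤ 2 * L := by
              by_contra hcon
              have := sp_level_big (j := j) (L := 2 * L) (n := m) (by omega) (by omega) hcon
              push_cast at this
              omega
            have hg' := sp_low (j := j) hm2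
            push_cast at hg'
            by_cases t : n ≤ L
            · have hg : sp (j + 1) L n = vt (U (j : ℤ) * gb * ga ^ (j : ℤ)) ((L : ℤ) + n) := by
                rw [sp_rise t, U_succ, mul_assoc]
              rw [hg, hg'] at hD ⊢
              simp only [vt_k] at hD
              have e1 := gd_vt (U (j : ℤ) * gb * ga ^ (j : ℤ)) (U (j : ℤ)) ((L : ℤ) + n)
                (2 * L + m)
              rw [phi_zpow_conj] at e1
              have h2 := flat_b ((L : ℤ) + n - j) (2 * L + m - ((L : ℤ) + n))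
              rw [← e1] at h2
              have h3 := le_abs_self ((L : ℤ) + n - j)
              have h4 : |2 * (L : ℤ) + m - ((L : ℤ) + n)| = L - n + m := by
                rw [abs_of_nonneg (by omega)]; ring
              rw [h4] at h2
              have h5 : (0 : ℤ) ≤ m := by positivity
              have h6 : (n : ℤ) ≤ L := by exact_mod_cast t
              linarith
            · have hg : sp (j + 1) L n = vt (U (j : ℤ) * gb * ga ^ ((j : ℤ) + (n - L))) (2 * L) := by
                rw [sp_stretch t s, U_succ, zpow_add]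
                simp only [mul_assoc]
              rw [hg, hg'] at hD ⊢
              simp only [vt_k] at hD
              have e1 := gd_vt (U (j : ℤ) * gb * ga ^ ((j : ℤ) + (n - L))) (U (j : ℤ)) (2 * (L : ℤ))
                (2 * L + m)
              rw [phi_zpow_conj] at e1
              have h2 := flat_b (2 * (L : ℤ) - ((j : ℤ) + (n - L))) (2 * L + m - 2 * (L : ℤ))
              rw [← e1] at h2
              have h3 := le_abs_self (2 * (L : ℤ) - ((j : ℤ) + (n - L)))
              have h4 : |2 * (L : ℤ) + m - 2 * (L : ℤ)| = m := by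
                rw [abs_of_nonneg (by omega)]; ring
              rw [h4] at h2
              have h5 : (0 : ℤ) ≤ m := by positivity
              linarith
        · -- both in the tail
          have t : ¬ n ≤ L := by omega
          rw [sp_tail t s, sp_tail t' s']
          have := ih (2 * L) (n - (3 * L - j + 1)) (n' - (3 * L - j + 1)) (by omega) (by omega)
            (by omega)
          have e1 : (((n' - (3 * L - j + 1) : ℕ) : ℤ) - ((n - (3 * L - j + 1) : ℕ) : ℤ))
              = (n' : ℤ) - n := by omega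
          rw [e1] at this
          exact this

private lemma sp_eventually (j : ℕ) : ∀ L : ℕ, j ≤ L → ∃ T L' : ℕ, ∀ n, T ≤ n →
    sp j L n = vt 1 ((L' + (n - T) : ℕ) : ℤ) := by
  induction j with
  | zero =>
    intro L _
    refine ⟨0, L, fun n _ => ?_⟩
    rw [sp_zero]; push_cast; simp
  | succ j ih =>
    intro L hj
    obtain ⟨T, L', h⟩ := ih (2 * L) (by omega)
    refine ⟨T + (3 * L - j + 1), L', fun n hn => ?_⟩
    rw [sp_tail (by omega) (by omega), h _ (by omega)]
    congr 2
    omega

theorem exists_spiral (r : ℕ) (hr : 1 ≤ r) :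
    ∃ p : ℕ → GG, (∀ n ≤ r, p n = vt 1 n) ∧ (∀ n, gd (p n) (p (n + 1)) ≤ 1) ∧
      (∀ n m, n ≤ m → m - n ≤ 9 * gd (p n) (p m) + 9) ∧
      ∃ T L : ℕ, ∀ n, T ≤ n → p n = xc * vt 1 (L + (n - T) : ℕ) := by
  set p : ℕ → GG := fun n => if n ≤ r then vt 1 n else xc * sp r r (n - (r + 1)) with hp
  have hlow : ∀ n ≤ r, p n = vt 1 n := fun n hn => by rw [hp]; simp only; rw [if_pos hn]
  have hhigh : ∀ n, ¬ n ≤ r → p n = xc * sp r r (n - (r + 1)) := fun n hn => by
    rw [hp]; simp only; rw [if_neg hn]
  refine ⟨p, hlow, ?_, ?_, ?_⟩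
  · intro n
    by_cases h1 : n + 1 ≤ r
    · rw [hlow n (by omega), hlow _ h1]
      push_cast
      exact gd_step_up _ _
    · by_cases h2 : n ≤ r
      · have hn : n = r := by omega
        subst hn
        rw [hlow n le_rfl, hhigh _ h1, Nat.sub_self, sp_start]
        have h3 : xc * vt (U (n : ℤ)) (n : ℤ) = vt 1 (n : ℤ) * xc := by
          ext1
          · simp only [GG.mul_w, vt_w, vt_k, xc, one_mul, zpow_zero, MulAut.one_apply]
            rw [phi_zpow_c]
          · simp [xc]
        rw [h3]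
        exact gd_step (Or.inl mem_SS_xc)
      · rw [hhigh _ h1, hhigh _ h2]
        have e : n + 1 - (r + 1) = n - (r + 1) + 1 := by omega
        rw [e]
        unfold gd
        rw [wdist_mul_left]
        exact sp_step r r _ le_rfl hr
  · intro n m hnm
    have key : ((m : ℤ) - n) ≤ 9 * (gd (p n) (p m) : ℤ) + 9 := by
      by_cases h1 : m ≤ r
      · have hD := (le_abs_self _).trans (abs_level_sub_le (p n) (p m))
        rw [hlow n (by omega), hlow m h1] at hD ⊢
        simp only [vt_k] at hD
        linarith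
      · by_cases h2 : n ≤ r
        · have hD := (le_abs_self _).trans (abs_level_sub_le (p n) (p m))
          have hk := sp_level r r (m - (r + 1)) le_rfl hr
          rw [hlow n h2, hhigh m h1] at hD ⊢
          have e1 : (xc * sp r r (m - (r + 1))).k = (sp r r (m - (r + 1))).k := by
            rw [GG.mul_k]; simp [xc]
          rw [e1, vt_k] at hD
          omega
        · rw [hhigh _ h1, hhigh _ h2]
          unfold gd
          rw [wdist_mul_left]
          have := sp_qg r r (n - (r + 1)) (m - (r + 1)) le_rfl hr (by omega)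
          have e1 : (((m - (r + 1) : ℕ) : ℤ) - ((n - (r + 1) : ℕ) : ℤ)) = (m : ℤ) - n := by omega
          rw [e1] at this
          unfold gd at this
          have h0 : (0 : ℤ) ≤ (wdist SS (sp r r (n - (r + 1))) (sp r r (m - (r + 1))) : ℤ) := by
            positivity
          linarith
    omega
  · obtain ⟨T, L', h⟩ := sp_eventually r r le_rfl
    refine ⟨T + (r + 1), L', fun n hn => ?_⟩
    rw [hhigh n (by omega), h _ (by omega)]
    congr 3
    omega

end QRPoset
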