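import Mathlib
import Pool.Agent.QRPoset.Defs

open scoped NNReal

namespace QRPoset

/-! ### TARGET J1

Plain words.

`of_weak`: in the definition of `Redirects` the shift `tβ` must be positive; here it may be any
real number. Given `γ` (a `(q,Q)`-ray) with `γ t = β (t + tβ)` for `t ≥ tγ`, choose `T` with
`T ≥ tγ` and `T` larger than every `t` with `dist (α 0) (α t) < r` (if `α` itself is not assumed to be a
quasi-geodesic, use `γ`: on such `t` we have `γ t = α t`, and `γ` is a quasi-geodesic with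
`γ 0 = α 0` because `dist (α 0) (α 0) = 0 < r`; so `t / q - Q ≤ dist (γ 0) (γ t) < r`, i.e.
`t < q (r + Q)`). Let `τ = |tβ| + 1` and `θ t = t` for `t ≤ T`, `θ t = 2 t - T` for `T ≤ t ≤ T + τ`,
`θ t = t + τ` for `t ≥ T + τ` (i.e. `θ t = t + min (t - T) τ` with truncated subtraction in `ℝ≥0`).
Then `|s - t| ≤ |θ s - θ t| ≤ 2 |s - t|`, so `γ ∘ θ` is a `(2q, Q)`-ray (constants depend only on
`q, Q`), it agrees with `γ` before `T`, and for `t ≥ T + τ` it equals
`γ (t + τ) = β (t + τ + tβ)` with `τ + tβ > 0`.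

`refl`: apply `of_weak` with `γ = α`, `tβ = 0`. -/

theorem Redirects.of_weak {X : Type} [MetricSpace X] {α β : ℝ≥0 → X}
    (h : ∃ q Q : ℝ, 1 ≤ q ∧ 0 ≤ Q ∧ ∀ r : ℝ, 0 < r → ∃ γ : ℝ≥0 → X, IsQG q Q γ ∧
      (∀ t : ℝ≥0, dist (α 0) (α t) < r → γ t = α t) ∧
      ∃ (tβ : ℝ) (tγ : ℝ≥0), ∀ t : ℝ≥0, tγ ≤ t →
        0 ≤ (t : ℝ) + tβ ∧ γ t = β (Real.toNNReal ((t : ℝ) + tβ))) :
    Redirects α β := by
  obtain ⟨q, Q, hq, hQ, H⟩ := h
  refine ⟨2 * q, Q, by linarith, hQ, fun r hr => ?_⟩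
  obtain ⟨γ, hγ, hag, tβ, tγ, hβ⟩ := H r hr
  obtain ⟨T, hT1, hT2⟩ : ∃ T : ℝ≥0, tγ ≤ T ∧ q * (r + Q) ≤ (T : ℝ) :=
    ⟨max tγ (Real.toNNReal (q * (r + Q))), le_max_left _ _, by
      refine le_trans (Real.le_coe_toNNReal _) ?_
      exact_mod_cast le_max_right _ _⟩
  obtain ⟨τ, hτ⟩ : ∃ τ : ℝ≥0, |tβ| + 1 = (τ : ℝ) := ⟨⟨|tβ| + 1, by positivity⟩, rfl⟩
  have hθ1 : ∀ t : ℝ≥0, t ≤ T → t + min (t - T) τ = t := by
    intro t ht
    rw [tsub_eq_zero_of_le ht]; simp
  have hθ2 : ∀ t : ℝ≥0, T + τ ≤ t → t + min (t - T) τ = t + τ := by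
    intro t ht
    rw [min_eq_right (le_tsub_of_add_le_left ht)]
  have hcoe : ∀ t : ℝ≥0, (((t + min (t - T) τ : ℝ≥0)) : ℝ)
      = t + min (max ((t : ℝ) - T) 0) τ := by
    intro t
    push_cast [NNReal.coe_sub_def]
    rfl
  have hmono : ∀ s t : ℝ≥0, dist s t ≤ dist (s + min (s - T) τ) (t + min (t - T) τ) ∧
      dist (s + min (s - T) τ) (t + min (t - T) τ) ≤ 2 * dist s t := by
    have key : ∀ s t : ℝ≥0, (s : ℝ) ≤ t →
        0 ≤ min (max ((t : ℝ) - T) 0) τ - min (max ((s : ℝ) - T) 0) τ ∧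
        min (max ((t : ℝ) - T) 0) τ - min (max ((s : ℝ) - T) 0) τ ≤ t - s := by
      intro s t hst
      have hτ0 : (0 : ℝ) ≤ τ := τ.2
      constructor
      · have : min (max ((s : ℝ) - T) 0) (τ : ℝ) ≤ min (max ((t : ℝ) - T) 0) τ :=
          min_le_min (max_le_max (by linarith) le_rfl) le_rfl
        linarith
      · rcases le_total ((s : ℝ) - T) 0 with h1 | h1 <;>
        rcases le_total ((t : ℝ) - T) 0 with h2 | h2 <;>
        simp only [h1, h2, max_eq_left, max_eq_right] <;>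
        rcases min_cases (0 : ℝ) τ with h3 | h3 <;>
        rcases min_cases ((t : ℝ) - T) τ with h4 | h4 <;>
        rcases min_cases ((s : ℝ) - T) τ with h5 | h5 <;>
        linarith [h3.1, h3.2, h4.1, h4.2, h5.1, h5.2]
    intro s t
    rw [NNReal.dist_eq, NNReal.dist_eq, hcoe, hcoe]
    rcases le_total (s : ℝ) t with hst | hst
    · obtain ⟨k1, k2⟩ := key s t hst
      rw [abs_of_nonpos (by linarith : (s : ℝ) - t ≤ 0), abs_of_nonpos (by linarith)]
      constructor <;> linarith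
    · obtain ⟨k1, k2⟩ := key t s hst
      rw [abs_of_nonneg (by linarith : (0 : ℝ) ≤ s - t), abs_of_nonneg (by linarith)]
      constructor <;> linarith
  have hq0 : (0 : ℝ) < q := by linarith
  refine ⟨fun t => γ (t + min (t - T) τ), ?_, ?_, ?_⟩
  · intro s t
    obtain ⟨m1, m2⟩ := hmono s t
    obtain ⟨g1, g2⟩ := hγ (s + min (s - T) τ) (t + min (t - T) τ)
    have hd : (0 : ℝ) ≤ dist s t := dist_nonneg
    constructor
    · have e1 : dist s t / (2 * q) ≤ dist s t / q :=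
        div_le_div_of_nonneg_left hd hq0 (by linarith)
      have e2 : dist s t / q ≤ dist (s + min (s - T) τ) (t + min (t - T) τ) / q :=
        div_le_div_of_nonneg_right m1 hq0.le
      show dist s t / (2 * q) - Q ≤ dist (γ (s + min (s - T) τ)) (γ (t + min (t - T) τ))
      linarith
    · have e3 : q * dist (s + min (s - T) τ) (t + min (t - T) τ) ≤ q * (2 * dist s t) :=
        mul_le_mul_of_nonneg_left m2 hq0.le
      show dist (γ (s + min (s - T) τ)) (γ (t + min (t - T) τ)) ≤ 2 * q * dist s t + Q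
      linarith
  · intro t ht
    have g0 : γ 0 = α 0 := hag 0 (by simpa using hr)
    have gt : γ t = α t := hag t ht
    have hlt : t ≤ T := by
      have h1 := (hγ 0 t).1
      rw [g0, gt] at h1
      have h2 : dist (0 : ℝ≥0) t = t := by
        rw [NNReal.dist_eq]; simp
      rw [h2] at h1
      have h3 : (t : ℝ) / q < r + Q := by linarith
      have h4 : (t : ℝ) < (r + Q) * q := (div_lt_iff₀ hq0).1 h3
      have h5 : (t : ℝ) ≤ T := by linarith [mul_comm (r + Q) q]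
      exact_mod_cast h5
    show γ (t + min (t - T) τ) = α t
    rw [hθ1 t hlt, gt]
  · have hb : (0 : ℝ) < τ + tβ := by
      have := neg_abs_le tβ
      linarith
    refine ⟨Real.toNNReal (τ + tβ), T + τ + 1, by simpa using hb, by positivity, ?_⟩
    intro t ht
    have ht1 : T + τ ≤ t := le_trans (le_add_of_nonneg_right zero_le_one) ht
    show γ (t + min (t - T) τ) = _
    rw [hθ2 t ht1]
    have ht2 : tγ ≤ t + τ :=
      le_trans hT1 (le_trans (le_add_of_nonneg_right zero_le) (le_trans ht1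
        (le_add_of_nonneg_right zero_le)))
    rw [(hβ _ ht2).2]
    congr 1
    apply NNReal.coe_injective
    rw [Real.coe_toNNReal _ (hβ _ ht2).1]
    push_cast
    rw [Real.coe_toNNReal _ hb.le]
    ring

theorem Redirects.refl {X : Type} [MetricSpace X] {α : ℝ≥0 → X}
    (h : ∃ q Q : ℝ, 1 ≤ q ∧ 0 ≤ Q ∧ IsQG q Q α) : Redirects α α := by
  obtain ⟨q, Q, hq, hQ, hα⟩ := h
  refine Redirects.of_weak ⟨q, Q, hq, hQ, fun r hr => ⟨α, hα, fun t _ => rfl, 0, 0,
    fun t _ => ⟨by simp, by simp⟩⟩⟩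

end QRPoset
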