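import Mathlib
import Pool.Agent.QRPoset.Weak
import Pool.Agent.QRPoset.Spiral

open scoped NNReal

namespace QRPoset

/-! ### TARGET J6: redirection in the positive direction

Plain words. `ray g s = ι (g * vt 1 ⌊s⌋₊)`.
(a) `isQG_of_path`: if `p : ℕ → GG` has `gd (p n) (p (n+1)) ≤ 1` and `m - n ≤ 9 gd (p n) (p m) + 9` for
`n ≤ m`, then `s ↦ ι (g * p ⌊s⌋₊)` is a `(9, 2)`-quasi-geodesic ray (or any fixed constants, say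
`(9, 5)`): left multiplication by `g` is an isometry (`wdist_mul_left`), `ι` preserves distances, and
`|⌊s⌋ - ⌊t⌋|` differs from `|s - t|` by at most `1`.
(b) `ray_isQG`: apply (a) to `p n = vt 1 n` (distances `|n - m|` by `len_tt_zpow`).
(c) `redirect_pos`: for `r > 0` let `N = ⌈r⌉ + 1`, `p` from `exists_spiral N`, `γ s = ι (g * p ⌊s⌋₊)`. If
`dist (ι (g * vt 1 0)) (ι (g * vt 1 ⌊s⌋₊)) = ⌊s⌋₊ < r` then `⌊s⌋₊ ≤ N`, so `γ s = ι (g * vt 1 ⌊s⌋₊)`.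
Eventually `γ s = ι (g * xc * vt 1 (L + (⌊s⌋₊ - T)))`, i.e. shift `tβ = L - T`
(`⌊s + (L - T)⌋₊ = ⌊s⌋₊ + L - T` for `s ≥ T`). Use `Redirects.of_weak`. -/

/-- The rays. -/
noncomputable def ray {X : Type} (ι : GG → X) (g : GG) (s : ℝ≥0) : X :=
  ι (g * vt 1 (⌊s⌋₊ : ℕ))

theorem isQG_of_path {X : Type} [MetricSpace X] {ι : GG → X} (h : CayleyModel SS ι) (g : GG)
    (p : ℕ → GG) (hp1 : ∀ n, gd (p n) (p (n + 1)) ≤ 1)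
    (hp2 : ∀ n m, n ≤ m → m - n ≤ 9 * gd (p n) (p m) + 9) :
    IsQG 9 5 (fun s : ℝ≥0 => ι (g * p ⌊s⌋₊)) := by
  have hd : ∀ n m, n ≤ m → gd (p n) (p m) ≤ m - n := by
    intro n m hnm
    induction m, hnm using Nat.le_induction with
    | base => simp
    | succ m hnm ih =>
      have h1 := wdist_triangle (S := SS) closure_SS (p n) (p m) (p (m + 1))
      have h2 := hp1 m
      have h3 : gd (p n) (p (m + 1)) ≤ gd (p n) (p m) + gd (p m) (p (m + 1)) := h1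
      omega
  have key : ∀ s t : ℝ≥0, s ≤ t →
      dist s t / 9 - 5 ≤ dist (ι (g * p ⌊s⌋₊)) (ι (g * p ⌊t⌋₊)) ∧
      dist (ι (g * p ⌊s⌋₊)) (ι (g * p ⌊t⌋₊)) ≤ 9 * dist s t + 5 := by
    intro s t hst
    have hfl : ⌊s⌋₊ ≤ ⌊t⌋₊ := Nat.floor_le_floor hst
    have e1 : dist (ι (g * p ⌊s⌋₊)) (ι (g * p ⌊t⌋₊)) = (gd (p ⌊s⌋₊) (p ⌊t⌋₊) : ℝ) := by
      rw [h.1, wdist_mul_left]
    have hst' : (s : ℝ) ≤ t := by exact_mod_cast hst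
    have e2 : dist s t = (t : ℝ) - s := by
      rw [NNReal.dist_eq, abs_sub_comm, abs_of_nonneg (by linarith)]
    have s1 : ((⌊s⌋₊ : ℕ) : ℝ) ≤ s := by
      have := Nat.floor_le (zero_le (a := s))
      exact_mod_cast this
    have s2 : (s : ℝ) < (⌊s⌋₊ : ℕ) + 1 := by
      have := Nat.lt_floor_add_one s
      exact_mod_cast this
    have t1 : ((⌊t⌋₊ : ℕ) : ℝ) ≤ t := by
      have := Nat.floor_le (zero_le (a := t))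
      exact_mod_cast this
    have t2 : (t : ℝ) < (⌊t⌋₊ : ℕ) + 1 := by
      have := Nat.lt_floor_add_one t
      exact_mod_cast this
    have a1 : (gd (p ⌊s⌋₊) (p ⌊t⌋₊) : ℝ) ≤ (⌊t⌋₊ : ℕ) - (⌊s⌋₊ : ℕ) := by
      have := hd _ _ hfl
      have h5 : gd (p ⌊s⌋₊) (p ⌊t⌋₊) + ⌊s⌋₊ ≤ ⌊t⌋₊ := by omega
      have h6 : ((gd (p ⌊s⌋₊) (p ⌊t⌋₊) : ℕ) : ℝ) + (⌊s⌋₊ : ℕ) ≤ (⌊t⌋₊ : ℕ) := by exact_mod_cast h5
      linarith
    have a2 : ((⌊t⌋₊ : ℕ) : ℝ) - (⌊s⌋₊ : ℕ) ≤ 9 * (gd (p ⌊s⌋₊) (p ⌊t⌋₊) : ℝ) + 9 := by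
      have := hp2 _ _ hfl
      have h5 : ⌊t⌋₊ ≤ 9 * gd (p ⌊s⌋₊) (p ⌊t⌋₊) + 9 + ⌊s⌋₊ := by omega
      have h6 : ((⌊t⌋₊ : ℕ) : ℝ) ≤ 9 * ((gd (p ⌊s⌋₊) (p ⌊t⌋₊) : ℕ) : ℝ) + 9 + (⌊s⌋₊ : ℕ) := by
        exact_mod_cast h5
      linarith
    rw [e1, e2]
    constructor <;> linarith
  intro s t
  rcases le_total s t with hst | hst
  · exact key s t hst
  · have := key t s hst
    rw [dist_comm t s, dist_comm (ι (g * p ⌊t⌋₊))] at this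
    exact this

theorem gd_vt_vt (n m : ℕ) (hnm : n ≤ m) : gd (vt 1 (n : ℤ)) (vt 1 (m : ℤ)) = m - n := by
  have h1 : (vt 1 (n : ℤ))⁻¹ * vt 1 (m : ℤ) = vt 1 ((m : ℤ) - n) := by
    ext1
    · simp
    · simp; ring
  have h2 : gd (vt 1 (n : ℤ)) (vt 1 (m : ℤ)) = len (vt 1 ((m : ℤ) - n)) := by
    rw [← h1]
    rfl
  rw [h2, len_tt_zpow]
  omega

theorem ray_isQG {X : Type} [MetricSpace X] {ι : GG → X} (h : CayleyModel SS ι) (g : GG) :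
    ∃ q Q : ℝ, 1 ≤ q ∧ 0 ≤ Q ∧ IsQG q Q (ray ι g) := by
  refine ⟨9, 5, by norm_num, by norm_num, ?_⟩
  apply isQG_of_path h g (fun n => vt 1 (n : ℤ))
  · intro n
    rw [gd_vt_vt n (n + 1) (Nat.le_succ n)]
    omega
  · intro n m hnm
    rw [gd_vt_vt n m hnm]
    omega

theorem redirect_pos {X : Type} [MetricSpace X] {ι : GG → X} (h : CayleyModel SS ι) (g : GG) :
    Redirects (ray ι g) (ray ι (g * xc)) := by
  apply Redirects.of_weak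
  refine ⟨9, 5, by norm_num, by norm_num, ?_⟩
  intro r hr
  obtain ⟨p, hp0, hp1, hp2, T, L, hp3⟩ := exists_spiral (⌈r⌉₊ + 1) (by omega)
  refine ⟨fun s : ℝ≥0 => ι (g * p ⌊s⌋₊), isQG_of_path h g p hp1 hp2, ?_, (L : ℝ) - T, (T : ℝ≥0), ?_⟩
  · intro t ht
    have e1 : dist (ray ι g 0) (ray ι g t) = ((⌊t⌋₊ : ℕ) : ℝ) := by
      rw [ray, ray, h.1, wdist_mul_left]
      have h2 : wdist SS (vt 1 ((⌊(0 : ℝ≥0)⌋₊ : ℕ) : ℤ)) (vt 1 ((⌊t⌋₊ : ℕ) : ℤ)) =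
          ⌊t⌋₊ - ⌊(0 : ℝ≥0)⌋₊ := gd_vt_vt ⌊(0 : ℝ≥0)⌋₊ ⌊t⌋₊ (by simp)
      rw [h2]
      simp
    rw [e1] at ht
    have h3 : ⌊t⌋₊ ≤ ⌈r⌉₊ + 1 := by
      have h4 : ((⌊t⌋₊ : ℕ) : ℝ) ≤ (⌈r⌉₊ : ℕ) := ht.le.trans (Nat.le_ceil r)
      have h5 : ⌊t⌋₊ ≤ ⌈r⌉₊ := by exact_mod_cast h4
      omega
    change ι (g * p ⌊t⌋₊) = ι (g * vt 1 (⌊t⌋₊ : ℕ))
    rw [hp0 _ h3]
  · intro t ht
    have ht' : (T : ℝ) ≤ t := by exact_mod_cast ht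
    have hTt : T ≤ ⌊t⌋₊ := Nat.le_floor ht
    have hnn : 0 ≤ (t : ℝ) + ((L : ℝ) - T) := by
      have : (0 : ℝ) ≤ L := Nat.cast_nonneg L
      linarith
    refine ⟨hnn, ?_⟩
    change ι (g * p ⌊t⌋₊) = ι (g * xc * vt 1 (⌊Real.toNNReal ((t : ℝ) + ((L : ℝ) - T))⌋₊ : ℕ))
    have hfl : ⌊Real.toNNReal ((t : ℝ) + ((L : ℝ) - T))⌋₊ = L + (⌊t⌋₊ - T) := by
      obtain ⟨k, hk⟩ := Nat.exists_eq_add_of_le hTt
      have hk' : ⌊t⌋₊ - T = k := by omega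
      have t1 : ((⌊t⌋₊ : ℕ) : ℝ) ≤ t := by
        have := Nat.floor_le (zero_le (a := t))
        exact_mod_cast this
      have t2 : (t : ℝ) < (⌊t⌋₊ : ℕ) + 1 := by
        have := Nat.lt_floor_add_one t
        exact_mod_cast this
      rw [hk] at t1 t2
      push_cast at t1 t2
      rw [hk', Nat.floor_eq_iff zero_le, ← NNReal.coe_le_coe, ← NNReal.coe_lt_coe,
        Real.coe_toNNReal _ hnn]
      push_cast
      constructor <;> linarith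
    rw [hfl, hp3 _ hTt, mul_assoc]

end QRPoset
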