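import Mathlib
import Pool.Agent.QRPoset.PosRay
import Pool.Agent.QRPoset.Interp
import Pool.Agent.QRPoset.NoPath

open scoped NNReal

namespace QRPoset

/-! ### TARGET J11b: no redirection in the negative direction

Plain words. Suppose `ray ι (g * xc)` can be redirected to `ray ι g` with constants `(q, Q)`. For a large
radius `r` (chosen last, as a natural number plus 1/2 or so) let `γ` be the quasi-geodesic ray;
`γ s = ray ι (g * xc) s = ι (g * xc * vt 1 ⌊s⌋₊)` whenever the distance `⌊s⌋₊` (`len_tt_zpow`) of that point from the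
origin `ι (g * xc)` of the ray is `< r`, and `γ s = ι (g * vt 1 ⌊s + tβ⌋₊)` for `s ≥ tγ`.
Discretise: for each `n : ℕ` choose `G n : GG` with `dist (γ n) (ι (G n)) ≤ 1` (`CayleyModel`), but choose
`G n = g * xc * vt 1 n` if `n < r`, and otherwise if `n ≥ tγ` choose `G n = g * vt 1 ⌊n + tβ⌋₊`. Then
`wdist (G n) (G (n+1)) ≤ q + Q + 2 ≤ M` for a natural number `M ≥ 1` depending only on `q, Q`. Interpolate
(`closure_SS`): `p'` with `p' (M n) = G n`, unit steps, `wdist (G (m / M)) (p' m) ≤ M`. Put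
`p m = g⁻¹ * p' m`. Then `m ≤ a * len (p m) + b` with `a, b` depending only on `q, Q, M`:
`dist (γ 0) (γ n) ≥ n / q - Q`, `γ 0 = ι (g * xc)`, `len (p m) = wdist g (p' m)`
`≥ wdist (g * xc) (G n) - 1 - M ≥ n/q - Q - 2 - M` with `n = m / M`, and `m < M (n + 1)`.
Take `N₀` from `no_coarse_path a b`, `r > N₀ + 1`, `A = M * N₀` (so `N₀ ≤ A`, `N₀ < r`):
`p A = xc * vt 1 N₀ = vt gc N₀`; `T = M * n` with `n` large (`n ≥ tγ`, `n ≥ r`, `n ≥ N₀`): `p T = vt 1 _`,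
`(p T).w = 1`. Contradiction. -/

theorem not_redirect {X : Type} [MetricSpace X] {ι : GG → X} (h : CayleyModel SS ι) (g : GG) :
    ¬ Redirects (ray ι (g * xc)) (ray ι g) := by
  classical
  rintro ⟨q, Q, hq, hQ, H⟩
  obtain ⟨M, hMdef⟩ : ∃ M : ℕ, M = ⌈q + Q + 2⌉₊ := ⟨_, rfl⟩
  have hM1 : q + Q + 2 ≤ M := by rw [hMdef]; exact Nat.le_ceil _
  have hM : 1 ≤ M := by
    have : (1 : ℝ) ≤ M := by linarith
    exact_mod_cast this
  have hq0 : 0 < q := by linarith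
  obtain ⟨a, ha⟩ : ∃ a : ℕ, a = ⌈(M : ℝ) * q⌉₊ := ⟨_, rfl⟩
  obtain ⟨b, hb⟩ : ∃ b : ℕ, b = ⌈(M : ℝ) * (q * (Q + 2 + M) + 1)⌉₊ := ⟨_, rfl⟩
  have ha1 : (M : ℝ) * q ≤ a := by rw [ha]; exact Nat.le_ceil _
  have hb1 : (M : ℝ) * (q * (Q + 2 + M) + 1) ≤ b := by rw [hb]; exact Nat.le_ceil _
  obtain ⟨N₀, hN₀⟩ := no_coarse_path a b
  obtain ⟨r, hr⟩ : ∃ r : ℝ, r = N₀ + 2 := ⟨_, rfl⟩
  have hr0 : 0 < r := by rw [hr]; positivity
  obtain ⟨γ, hγ, h1, tβ, tγ, -, -, h2⟩ := H r hr0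
  have hd : ∀ n : ℕ, ray ι (g * xc) (n : ℝ≥0) = ι (g * xc * vt 1 (n : ℕ)) := by
    intro n
    unfold ray
    rw [Nat.floor_natCast]
  have h00 : g * xc * vt 1 ((0 : ℕ) : ℤ) = g * xc := by
    have : vt 1 ((0 : ℕ) : ℤ) = 1 := rfl
    rw [this, mul_one]
  have hd0 : ray ι (g * xc) 0 = ι (g * xc) := by
    have := hd 0
    rw [Nat.cast_zero] at this
    rw [this, h00]
  have hdist : ∀ n : ℕ, dist (ray ι (g * xc) 0) (ray ι (g * xc) (n : ℝ≥0)) = n := by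
    intro n
    rw [hd0, hd, h.1]
    have : wdist SS (g * xc) (g * xc * vt 1 (n : ℤ)) = n := by
      have e : wdist SS (g * xc) (g * xc * vt 1 (n : ℤ)) = len (vt 1 (n : ℤ)) := by
        unfold wdist
        congr 1
        group
      rw [e, len_tt_zpow]
      simp
    rw [this]
  have hγ1 : ∀ n : ℕ, (n : ℝ) < r → γ (n : ℝ≥0) = ι (g * xc * vt 1 (n : ℕ)) := by
    intro n hn
    rw [h1 _ (by rw [hdist]; exact hn), hd]
  obtain ⟨G, hG⟩ : ∃ G : ℕ → GG, G = fun n : ℕ => if (n : ℝ) < r then g * xc * vt 1 (n : ℕ) else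
      if tγ ≤ (n : ℝ≥0) then g * vt 1 (⌊(n : ℝ≥0) + tβ⌋₊ : ℕ) else (h.2 (γ (n : ℝ≥0))).choose :=
    ⟨_, rfl⟩
  have hGd : ∀ n : ℕ, dist (γ (n : ℝ≥0)) (ι (G n)) ≤ 1 := by
    intro n
    rw [hG]
    simp only
    split_ifs with c1 c2
    · rw [hγ1 n c1, dist_self]
      norm_num
    · rw [h2 _ c2]
      unfold ray
      rw [dist_self]
      norm_num
    · exact (h.2 (γ (n : ℝ≥0))).choose_spec
  have hstep : ∀ n : ℕ, wdist SS (G n) (G (n + 1)) ≤ M := by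
    intro n
    have e1 : dist (γ (n : ℝ≥0)) (γ ((n + 1 : ℕ) : ℝ≥0)) ≤ q * 1 + Q := by
      have := (hγ (n : ℝ≥0) ((n + 1 : ℕ) : ℝ≥0)).2
      have e2 : dist (n : ℝ≥0) ((n + 1 : ℕ) : ℝ≥0) = 1 := by
        rw [NNReal.dist_eq]
        push_cast
        rw [show (n : ℝ) - (n + 1) = -1 by ring]
        norm_num
      rwa [e2] at this
    have e3 : (wdist SS (G n) (G (n + 1)) : ℝ) ≤ M := by
      rw [← h.1]
      have e4 := dist_triangle4 (ι (G n)) (γ (n : ℝ≥0)) (γ ((n + 1 : ℕ) : ℝ≥0)) (ι (G (n + 1)))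
      have e5 := hGd n
      rw [dist_comm] at e5
      have e6 := hGd (n + 1)
      linarith
    exact_mod_cast e3
  obtain ⟨p', hp1, hp2, hp3⟩ := interpolate closure_SS M hM G hstep
  have hlow : ∀ m : ℕ, m ≤ a * len (g⁻¹ * p' m) + b := by
    intro m
    obtain ⟨n, hn⟩ : ∃ n, n = m / M := ⟨_, rfl⟩
    have f1 : m < M * (n + 1) := by
      rw [hn]
      exact Nat.lt_mul_div_succ m hM
    have f2 : (m : ℝ) ≤ M * (n + 1) := by exact_mod_cast f1.le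
    have f3 : (n : ℝ) / q - Q ≤ dist (γ 0) (γ (n : ℝ≥0)) := by
      have := (hγ 0 (n : ℝ≥0)).1
      have e2 : dist (0 : ℝ≥0) (n : ℝ≥0) = n := by
        rw [NNReal.dist_eq]
        push_cast
        rw [zero_sub, abs_neg, abs_of_nonneg (Nat.cast_nonneg _)]
      rwa [e2] at this
    have f4 : γ 0 = ι (g * xc) := by
      have := hγ1 0 (by rw [Nat.cast_zero]; exact hr0)
      rw [Nat.cast_zero] at this
      rw [this, h00]
    have f5 : dist (γ 0) (γ (n : ℝ≥0)) ≤ dist (ι (g * xc)) (ι (G n)) + 1 := by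
      rw [f4]
      refine (dist_triangle _ (ι (G n)) _).trans ?_
      have := hGd n
      rw [dist_comm] at this
      linarith
    rw [h.1] at f5
    have f6 : wdist SS (g * xc) (G n) ≤ 1 + (len (g⁻¹ * p' m) + M) := by
      have k1 := wdist_triangle closure_SS (g * xc) g (G n)
      have k2 := wdist_triangle closure_SS g (p' m) (G n)
      have k3 : wdist SS (g * xc) g ≤ 1 := by
        rw [wdist_comm closure_SS]
        have : wdist SS g (g * xc) = wlen SS xc := by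
          unfold wdist
          congr 1
          group
        rw [this]
        exact wlen_gen_le (Or.inl mem_SS_xc)
      have k4 : wdist SS (p' m) (G n) ≤ M := by
        rw [wdist_comm closure_SS, hn]
        exact hp3 m
      have k5 : wdist SS g (p' m) = len (g⁻¹ * p' m) := rfl
      omega
    have f7 : (wdist SS (g * xc) (G n) : ℝ) ≤ 1 + ((len (g⁻¹ * p' m) : ℝ) + M) := by
      exact_mod_cast f6
    have f8 : (n : ℝ) / q ≤ (len (g⁻¹ * p' m) : ℝ) + (Q + 2 + M) := by linarith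
    have f9 : (n : ℝ) ≤ ((len (g⁻¹ * p' m) : ℝ) + (Q + 2 + M)) * q := (div_le_iff₀ hq0).1 f8
    have f10 : (m : ℝ) ≤ a * (len (g⁻¹ * p' m) : ℝ) + b := by
      have g1 : (M : ℝ) * (n + 1) ≤ M * (((len (g⁻¹ * p' m) : ℝ) + (Q + 2 + M)) * q + 1) :=
        mul_le_mul_of_nonneg_left (by linarith) (Nat.cast_nonneg _)
      have g2 : (M : ℝ) * q * (len (g⁻¹ * p' m) : ℝ) ≤ a * (len (g⁻¹ * p' m) : ℝ) :=
        mul_le_mul_of_nonneg_right ha1 (Nat.cast_nonneg _)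
      have g3 : (M : ℝ) * (((len (g⁻¹ * p' m) : ℝ) + (Q + 2 + M)) * q + 1) =
          (M : ℝ) * q * (len (g⁻¹ * p' m) : ℝ) + (M : ℝ) * (q * (Q + 2 + M) + 1) := by ring
      linarith
    exact_mod_cast f10
  obtain ⟨n₁, hn₁⟩ : ∃ n₁ : ℕ, n₁ = ⌈tγ⌉₊ + N₀ + 2 := ⟨_, rfl⟩
  refine hN₀ (fun m => g⁻¹ * p' m) (M * N₀) (M * n₁) N₀ (Nat.le_mul_of_pos_left _ hM)
    (Nat.mul_le_mul_left _ (by omega)) (fun n => ?_) hlow ?_ ?_
  · show wdist SS (g⁻¹ * p' n) (g⁻¹ * p' (n + 1)) ≤ 1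
    rw [wdist_mul_left]
    exact hp2 n
  · rw [hp1, hG]
    simp only
    rw [if_pos (by rw [hr]; linarith)]
    have : g⁻¹ * (g * xc * vt 1 (N₀ : ℤ)) = xc * vt 1 (N₀ : ℤ) := by group
    rw [this]
    ext1
    · simp [xc]
    · simp [xc]
  · rw [hp1, hG]
    simp only
    have hn2 : (N₀ : ℝ) + 2 ≤ (n₁ : ℝ) := by
      rw [hn₁]
      push_cast
      have : (0 : ℝ) ≤ (⌈tγ⌉₊ : ℝ) := Nat.cast_nonneg _
      linarith
    have hn3 : tγ ≤ (n₁ : ℝ≥0) := by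
      refine (Nat.le_ceil tγ).trans ?_
      exact_mod_cast (by omega : ⌈tγ⌉₊ ≤ n₁)
    rw [if_neg (by rw [hr]; linarith), if_pos hn3, inv_mul_cancel_left]
    rfl

end QRPoset
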