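import Mathlib
import Pool.Agent.QRPoset.Weak

open scoped NNReal

namespace QRPoset

/-! ### TARGET J2: transitivity

Plain words. Let `(q,Q)` be constants for `α ≼ β` and `(q',Q')` for `β ≼ δ`; put `q'' = 2 (q + q')` (or
any convenient number), `Q''` similarly. Given `r`, take `η` for `α ≼ β` and `r`:
`η` agrees with `α` inside the ball, `η t = β (t + tβ)` for `t ≥ tη`. The set `η ([0, tη])` is bounded:
its points are within `D := q tη + Q + dist (η 0) (β 0)` of `β 0`. Choose `T ≥ tη`, `T` larger than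
`q (r + Q)` (so that `η t = α t` whenever `dist (α 0) (α t) < r`, which forces `t < T`, as in
`t / q - Q ≤ dist (η 0) (η t)`), and `T` huge compared with `q', Q', D, tη`. Take `ζ` for `β ≼ δ`
with radius `r'` larger than `q (T + tβ) + Q + dist (β 0) (η tη) + ...` so that
`ζ s = β s` for all `s ≤ T + tβ` (the distances `dist (β 0) (β s)` are bounded for
`s ≤ T + tβ` because `β` is a quasi-geodesic ray by `hβ`). Define
`ξ t = η t` for `t ≤ T`, `ξ t = ζ (t + tβ)` for `t > T`. Then `ξ t = ζ (t + tβ)` for all `t ≥ tη`.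
`ξ` is a quasi-geodesic ray: for `s, t ≥ tη` use `ζ`; for `s, t ≤ T` use `η`; for
`s < tη`, `t > T`: `dist (ζ 0) (ζ (t + tβ)) ≥ (t + tβ)/q' - Q'`, `ζ 0 = β 0`, and
`dist (β 0) (η s) ≤ D`, so `dist (ξ s) (ξ t) ≥ t/q' - Q' - D ≥ t/(2 q') - Q'` as soon as
`T ≥ 2 q' D`; the upper bound:
`dist (ξ s) (ξ t) ≤ dist (η s) (η T) + dist (ζ (T + tβ)) (ζ (t + tβ))` (note
`η T = β (T + tβ) = ζ (T + tβ)`). The constants of `ξ` depend only on `q, Q, q', Q'`.
Its tail is the tail of `δ` with a shift; use `Redirects.of_weak`. -/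

theorem Redirects.trans {X : Type} [MetricSpace X] {α β δ : ℝ≥0 → X}
    (hα : ∃ q Q : ℝ, 1 ≤ q ∧ 0 ≤ Q ∧ IsQG q Q α)
    (hβ : ∃ q Q : ℝ, 1 ≤ q ∧ 0 ≤ Q ∧ IsQG q Q β)
    (hδ : ∃ q Q : ℝ, 1 ≤ q ∧ 0 ≤ Q ∧ IsQG q Q δ)
    (h₁ : Redirects α β) (h₂ : Redirects β δ) : Redirects α δ := by
  obtain ⟨q, Q, hq, hQ, H1⟩ := h₁
  obtain ⟨q', Q', hq', hQ', H2⟩ := h₂
  obtain ⟨b, B, hb, hB, hβQ⟩ := hβ
  refine ⟨2 * (q + q'), Q + Q', by linarith, by linarith, fun r hr => ?_⟩
  obtain ⟨η, hη, hηα, tβ, tη, htβ, htη, hηβ⟩ := H1 r hr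
  have hq0 : 0 < q := by linarith
  have hq'0 : 0 < q' := by linarith
  have hb0 : 0 < b := by linarith
  obtain ⟨D, hD⟩ : ∃ D : ℝ, D = dist (β 0) (η 0) + q * tη + Q := ⟨_, rfl⟩
  have hD0 : 0 ≤ D := by rw [hD]; positivity
  obtain ⟨T, hT⟩ : ∃ T : ℝ≥0, (T : ℝ) = tη + q * (r + Q) + 2 * q' * D :=
    ⟨⟨tη + q * (r + Q) + 2 * q' * D, by positivity⟩, rfl⟩
  obtain ⟨ζ, hζ, hζβ, tδ, tζ, htδ, htζ, hζδ⟩ := H2 (b * (T + tβ) + B + 1) (by positivity)
  have hqr : 0 ≤ q * (r + Q) := by positivity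
  have hqD : 0 ≤ 2 * q' * D := by positivity
  have hηT : tη ≤ T := by
    rw [← NNReal.coe_le_coe, hT]; linarith
  have hζe : ∀ s : ℝ≥0, s ≤ T + tβ → ζ s = β s := by
    intro s hs
    apply hζβ s
    have h := (hβQ 0 s).2
    have h0 : dist (0 : ℝ≥0) s = s := by
      rw [NNReal.dist_eq]; simp
    rw [h0] at h
    have hs' : (s : ℝ) ≤ T + tβ := by exact_mod_cast hs
    have : b * (s : ℝ) ≤ b * (T + tβ) := mul_le_mul_of_nonneg_left hs' hb0.le
    linarith
  -- general monotonicity of the constants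
  have hmono : ∀ (a A : ℝ) (u v : ℝ≥0) (d : ℝ), 0 < a → a ≤ 2 * (q + q') → A ≤ Q + Q' →
      dist u v / a - A ≤ d → d ≤ a * dist u v + A →
      dist u v / (2 * (q + q')) - (Q + Q') ≤ d ∧ d ≤ 2 * (q + q') * dist u v + (Q + Q') := by
    intro a A u v d ha haa hAA h1 h2
    have hd : 0 ≤ dist u v := dist_nonneg
    constructor
    · have : dist u v / (2 * (q + q')) ≤ dist u v / a := div_le_div_of_nonneg_left hd ha haa
      linarith
    · have : a * dist u v ≤ 2 * (q + q') * dist u v := mul_le_mul_of_nonneg_right haa hd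
      linarith
  obtain ⟨ξ, hξ⟩ : ∃ ξ : ℝ≥0 → X, ξ = fun t => if t ≤ T then η t else ζ (t + tβ) := ⟨_, rfl⟩
  have hξ1 : ∀ t, t ≤ T → ξ t = η t := by
    intro t ht; rw [hξ]; simp [ht]
  have hξ2 : ∀ t, tη ≤ t → ξ t = ζ (t + tβ) := by
    intro t ht
    by_cases h : t ≤ T
    · rw [hξ1 t h, hηβ t ht, hζe (t + tβ) (by gcongr)]
    · rw [hξ]; simp [h]
  have hQG : ∀ s t : ℝ≥0, s ≤ t →
      dist s t / (2 * (q + q')) - (Q + Q') ≤ dist (ξ s) (ξ t) ∧
      dist (ξ s) (ξ t) ≤ 2 * (q + q') * dist s t + (Q + Q') := by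
    intro s t hst
    by_cases h1 : t ≤ T
    · rw [hξ1 s (hst.trans h1), hξ1 t h1]
      exact hmono q Q s t _ hq0 (by linarith) (by linarith) (hη s t).1 (hη s t).2
    by_cases h2 : tη ≤ s
    · rw [hξ2 s h2, hξ2 t (h2.trans hst)]
      have hd : dist (s + tβ) (t + tβ) = dist s t := by
        rw [NNReal.dist_eq, NNReal.dist_eq]; push_cast; congr 1; ring
      have h3 := hζ (s + tβ) (t + tβ)
      rw [hd] at h3
      exact hmono q' Q' s t _ hq'0 (by linarith) (by linarith) h3.1 h3.2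
    push Not at h1 h2
    have hsT : s ≤ T := h2.le.trans hηT
    have hs' : (s : ℝ) < tη := by exact_mod_cast h2
    have ht' : (T : ℝ) < t := by exact_mod_cast h1
    have hst' : (s : ℝ) ≤ t := by exact_mod_cast hst
    have hs0 : (0 : ℝ) ≤ s := s.2
    have htβ0 : (0 : ℝ) ≤ tβ := tβ.2
    have htη0 : (0 : ℝ) ≤ tη := tη.2
    have hsT' : (s : ℝ) ≤ T := by exact_mod_cast hsT
    have hds : dist s t = t - s := by
      rw [NNReal.dist_eq, abs_sub_comm, abs_of_nonneg (by linarith)]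
    have e1 : ξ s = η s := hξ1 s hsT
    have e2 : ξ t = ζ (t + tβ) := hξ2 t (hηT.trans h1.le)
    have e3 : η T = ζ (T + tβ) := by rw [← hξ1 T le_rfl, hξ2 T hηT]
    have e0 : ζ 0 = β 0 := hζe 0 (by simp)
    rw [e1, e2, hds]
    constructor
    · -- lower bound
      have l1 := (hζ 0 (t + tβ)).1
      have l2 : dist (0 : ℝ≥0) (t + tβ) = t + tβ := by
        rw [NNReal.dist_eq]; push_cast
        rw [abs_sub_comm, sub_zero, abs_of_nonneg (by linarith)]
      rw [l2] at l1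
      have l3 := (hη 0 s).2
      have l4 : dist (0 : ℝ≥0) s = s := by
        rw [NNReal.dist_eq]; simp
      rw [l4] at l3
      have l5 : dist (ζ 0) (ζ (t + tβ)) ≤ dist (ζ 0) (η s) + dist (η s) (ζ (t + tβ)) :=
        dist_triangle _ _ _
      have l6 : dist (ζ 0) (η s) ≤ dist (β 0) (η 0) + dist (η 0) (η s) := by
        rw [e0]; exact dist_triangle _ _ _
      have l7 : q * (s : ℝ) ≤ q * tη := mul_le_mul_of_nonneg_left hs'.le hq0.le
      have l8 : ((t : ℝ) + tβ) / q' = t / q' + tβ / q' := by ring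
      have l9 : 0 ≤ (tβ : ℝ) / q' := by positivity
      have l10 : D ≤ (t : ℝ) / (2 * q') := by
        rw [le_div_iff₀ (by positivity)]
        nlinarith
      have l11 : (t : ℝ) / q' = t / (2 * q') + t / (2 * q') := by
        field_simp; ring
      have l12 : ((t : ℝ) - s) / (2 * (q + q')) ≤ t / (2 * q') := by
        have : ((t : ℝ) - s) / (2 * (q + q')) ≤ t / (2 * (q + q')) := by gcongr; linarith
        have h' : (t : ℝ) / (2 * (q + q')) ≤ t / (2 * q') := by
          apply div_le_div_of_nonneg_left t.2 (by positivity) (by linarith)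
        linarith
      linarith
    · -- upper bound
      have u1 : dist (η s) (ζ (t + tβ)) ≤ dist (η s) (η T) + dist (ζ (T + tβ)) (ζ (t + tβ)) := by
        rw [← e3]; exact dist_triangle _ _ _
      have u2 := (hη s T).2
      have u3 := (hζ (T + tβ) (t + tβ)).2
      have d1 : dist s T = T - s := by
        rw [NNReal.dist_eq, abs_sub_comm, abs_of_nonneg (by linarith)]
      have d2 : dist (T + tβ) (t + tβ) = t - T := by
        rw [NNReal.dist_eq]; push_cast
        rw [abs_sub_comm, abs_of_nonneg (by linarith)]; ring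
      rw [d1] at u2
      rw [d2] at u3
      have w1 : q * ((T : ℝ) - s) ≤ 2 * (q + q') * (T - s) :=
        mul_le_mul_of_nonneg_right (by linarith) (by linarith)
      have w2 : q' * ((t : ℝ) - T) ≤ 2 * (q + q') * (t - T) :=
        mul_le_mul_of_nonneg_right (by linarith) (by linarith)
      have w3 : 2 * (q + q') * ((T : ℝ) - s) + 2 * (q + q') * (t - T) = 2 * (q + q') * (t - s) := by
        ring
      linarith
  refine ⟨ξ, ?_, ?_, tβ + tδ, T + tζ, by positivity, by positivity, ?_⟩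
  · intro s t
    rcases le_total s t with h | h
    · exact hQG s t h
    · have := hQG t s h
      rw [dist_comm s t, dist_comm (ξ s) (ξ t)]
      exact this
  · intro t ht
    have hη0 : η 0 = α 0 := hηα 0 (by simpa using hr)
    have e : η t = α t := hηα t ht
    have h1 := (hη 0 t).1
    have h4 : dist (0 : ℝ≥0) t = t := by
      rw [NNReal.dist_eq]; simp
    rw [h4, hη0, e] at h1
    have h2 : (t : ℝ) / q < r + Q := by linarith
    rw [div_lt_iff₀ hq0] at h2
    have h3 : t ≤ T := by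
      rw [← NNReal.coe_le_coe, hT]
      have : (0 : ℝ) ≤ tη := tη.2
      nlinarith
    rw [hξ1 t h3, e]
  · intro t ht
    have h1 : T ≤ t := le_trans (by simp) ht
    have h2 : tζ ≤ t := le_trans (by simp) ht
    rw [hξ2 t (hηT.trans h1), hζδ (t + tβ) (h2.trans (by simp)), add_assoc]

end QRPoset

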