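import Mathlib
import Pool.Agent.QRPoset.Trans

/-!
# The QR-poset and its height
-/

open scoped NNReal

namespace QRPoset

/-- The preorder `≼` on quasi-geodesic rays. -/
noncomputable instance {X : Type} [MetricSpace X] : Preorder (QRay X) where
  le α β := Redirects α.1 β.1
  le_refl α := Redirects.refl α.2
  le_trans α β δ h₁ h₂ := Redirects.trans α.2 β.2 δ.2 h₁ h₂

/-- The QR-poset `P(X)`: classes of quasi-geodesic rays. -/
abbrev Poset (X : Type) [MetricSpace X] : Type := Antisymmetrization (QRay X) (· ≤ ·)

/-- The height of a poset: the supremum of the cardinalities of its finite chains. -/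
noncomputable def height (P : Type) [PartialOrder P] : ℕ∞ :=
  sSup {m : ℕ∞ | ∃ s : Finset P, IsChain (· ≤ ·) (s : Set P) ∧ m = s.card}

end QRPoset
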