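import Mathlib
import Pool.Agent.QRPoset.Hop

open scoped NNReal

namespace QRPoset

/-! ### TARGET J4b: the divergence is at most cubic

Plain words. Write `d = wdist SS`. It suffices (unfold `Div`, `divPts`) to find a constant `C` such
that for all `n` and all `x, y, o` with `d x y ≤ n` and `r = min (d o x) (d o y) > 0` there is a word
`l` with `Avoids SS o (δ r - γ) x y l` and `l.length ≤ C n³ + C`. As `δ ≤ 1/2`, `γ ≥ 2` it is enough
that all vertices of the path are at distance `≥ r/2 - 2` from `o` (or `≥ r / 2`).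
Case `r ≥ n`: a geodesic word (`exists_min_word`) from `x` to `y` works (length `≤ n`): a vertex `p` on it
has `d x p + d p y = d x y ≤ n` (subwords), so `min ≤ n / 2`, hence `d o p ≥ r - n/2 ≥ r/2`.
Case `r < n`: then `d o x, d o y < 2 n`. Put `N = 10 n`, `M = 10 n`.
(1) One of the two rays `x t^j` (`j ≥ 0`), `x t^(-j)` (`j ≥ 0`) stays at distance `≥ r/2` from `o`:
otherwise `d o (x t^i) < r/2` and `d o (x t^(-j)) < r/2` for some `i, j ≥ 0`; then
`i + j = d (x t^i) (x t^(-j)) < r` (`len_tt_zpow`) but `i ≥ d o x - d o (x t^i) > r/2` and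
`j > r/2`. So there is `e = ± 1` such that the path `x, x t^e, ..., x t^(e N)` is fine; the same for `y`
with a sign `e'`.
(2) Hops: for a geodesic word from `x` to `z` (with `d x z ≤ 12 n`, say), `conn_hop` repeated
connects `x t^(e N)` to `z t^(e N)` by a path of length `≤ 12 n * 2 (N+1)²`, all of whose vertices
have level at distance `≤ 1` from `v.k + e N` for a vertex `v` of the geodesic word. If
`d o v ≤ 5 n` then `|v.k - o.k| ≤ 5 n` (`abs_level_sub_le`), so the levels differ from `o.k` by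
at least `10 n - 5 n - 1`, and the path is at distance `≥ 5 n - 1 ≥ n / 2` from `o`
(`abs_level_sub_le`; for `n ≥ 1`, and `n ≥ 1` because `0 < r < n`). For the words
`x → x c^M` the vertices `v = x c^i` have the same level as `x`, so `|v.k - o.k| ≤ 2 n`.
(3) If `e = e'` connect `x t^(eN)` to `y t^(eN)` by (2). If `e ≠ e'` go
`x t^(eN) → x c^M t^(eN)` by (2), then `x c^M t^(eN) → x c^M t^(-eN)` by `2 N` steps `t^(∓1)`, then
`x c^M t^(-eN) → x t^(-eN) → y t^(-eN) = y t^(e'N)` by (2). The vertices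
`g = x c^M t^i` of the middle part satisfy `expo 2 g.w = expo 2 x.w + M` (as integers), and
`|expo 2 (o⁻¹ g)| ≤ d o g` (`abs_expC_le`; `expC` is a homomorphism), `|expo 2 (o⁻¹ x)| ≤ 2 n`, so
`d o g ≥ M - 2 n ≥ n`. Total length `≤ C n³ + C`. -/

lemma conn_refl' {P : GG → Prop} {x : GG} (h : P x) : Conn P 0 x x :=
  ⟨[], WordIn.nil, by simp, le_refl _, fun i _ => by simpa using h⟩

/-- a geodesic path -/
lemma conn_geo (x y : GG) : Conn (fun p => gd x p + gd p y ≤ gd x y) (gd x y) x y := by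
  obtain ⟨l, hl, hp, hlen⟩ := exists_min_word closure_SS (x⁻¹ * y)
  refine ⟨l, hl, by rw [hp]; group, hlen.le, fun i _ => ?_⟩
  have h1 : gd x (x * (l.take i).prod) ≤ (l.take i).length := by
    have : gd x (x * (l.take i).prod) = wlen SS (l.take i).prod := by
      simp only [gd, wdist]
      congr 1
      group
    rw [this]
    exact wlen_le (fun a ha => hl a (List.mem_of_mem_take ha))
  have h2 : gd (x * (l.take i).prod) y ≤ (l.drop i).length := by
    have : gd (x * (l.take i).prod) y = wlen SS (l.drop i).prod := by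
      simp only [gd, wdist]
      congr 1
      have h3 : (l.take i).prod * (l.drop i).prod = x⁻¹ * y := by
        rw [← List.prod_append, List.take_append_drop, hp]
      rw [mul_inv_rev, mul_assoc, ← h3]
      group
    rw [this]
    exact wlen_le (fun a ha => hl a (List.mem_of_mem_drop ha))
  have h3 : (l.take i).length + (l.drop i).length = l.length := by
    rw [← List.length_append, List.take_append_drop]
  have h4 : l.length = gd x y := hlen
  omega

/-- the path along the powers of a generator -/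
lemma conn_ray (x s : GG) (hs : s ∈ SS ∨ s⁻¹ ∈ SS) (K : ℕ) :
    Conn (fun g => ∃ j : ℕ, j ≤ K ∧ g = x * s ^ j) K x (x * s ^ K) := by
  refine ⟨List.replicate K s, ?_, by simp, by simp, ?_⟩
  · intro a ha
    rw [List.eq_of_mem_replicate ha]
    exact hs
  · intro i hi
    refine ⟨min i K, min_le_right _ _, ?_⟩
    rw [List.take_replicate, List.prod_replicate]

/-- repeated hops -/
lemma conn_hops (N : ℤ) : ∀ (l : List GG), WordIn SS l → ∀ z : GG,
    Conn (fun g => ∃ i : ℕ, i ≤ l.length ∧ |g.k - ((z * (l.take i).prod).k + N)| ≤ 1)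
      (l.length * (2 * (N.natAbs + 1) ^ 2)) (z * tt ^ N) (z * l.prod * tt ^ N) := by
  intro l
  induction l with
  | nil =>
    intro _ z
    have h0 : (z * (1 : GG) * tt ^ N) = z * tt ^ N := by group
    simp only [List.length_nil, Nat.zero_mul, List.prod_nil, h0]
    apply conn_refl'
    refine ⟨0, le_refl _, ?_⟩
    simp [tt_zpow]
  | cons a l ih =>
    intro hl z
    have ha := hl a List.mem_cons_self
    have hl' : WordIn SS l := fun b hb => hl b (List.mem_cons_of_mem _ hb)
    have h1 := conn_hop z a ha N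
    have h2 := ih hl' (z * a)
    have h3 : Conn (fun g => ∃ i : ℕ, i ≤ (a :: l).length ∧
        |g.k - ((z * ((a :: l).take i).prod).k + N)| ≤ 1) (2 * (N.natAbs + 1) ^ 2)
        (z * tt ^ N) (z * a * tt ^ N) := by
      refine h1.mono (fun g hg => ⟨0, Nat.zero_le _, ?_⟩) le_rfl
      simpa using hg
    have h4 : Conn (fun g => ∃ i : ℕ, i ≤ (a :: l).length ∧
        |g.k - ((z * ((a :: l).take i).prod).k + N)| ≤ 1) (l.length * (2 * (N.natAbs + 1) ^ 2))
        (z * a * tt ^ N) (z * a * l.prod * tt ^ N) := by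
      refine h2.mono (fun g hg => ?_) le_rfl
      obtain ⟨i, hi, hg⟩ := hg
      refine ⟨i + 1, by simpa using hi, ?_⟩
      rw [List.take_succ_cons, List.prod_cons, ← mul_assoc]
      exact hg
    have h5 := h3.trans h4
    have e : z * (a :: l).prod * tt ^ N = z * a * l.prod * tt ^ N := by
      rw [List.prod_cons, ← mul_assoc z a]
    rw [e]
    refine h5.mono (fun g hg => hg) ?_
    exact le_of_eq (by rw [List.length_cons]; ring)

lemma gd_tt (x : GG) (i j : ℤ) : gd (x * tt ^ i) (x * tt ^ j) = (j - i).natAbs := by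
  have h : gd (x * tt ^ i) (x * tt ^ j) = len (vt 1 (j - i)) := by
    rw [← tt_zpow]
    simp only [gd, wdist, len]
    congr 1
    rw [mul_inv_rev, zpow_sub, mul_assoc]
    have : x⁻¹ * (x * tt ^ j) = tt ^ j := by group
    rw [this]
    group
  rw [h, len_tt_zpow]

/-- one of the two rays stays away from `o` -/
lemma ray_sign (o x : GG) (r : ℕ) (hr : r ≤ gd o x) :
    ∃ e : ℤ, (e = 1 ∨ e = -1) ∧ ∀ j : ℕ, r ≤ 2 * gd o (x * tt ^ (e * j)) := by
  by_contra hcon
  push Not at hcon
  obtain ⟨i, hi⟩ := hcon 1 (Or.inl rfl)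
  obtain ⟨j, hj⟩ := hcon (-1) (Or.inr rfl)
  have h1 := gd_tt x (1 * (i : ℤ)) (-1 * (j : ℤ))
  have h2 := wdist_triangle closure_SS (x * tt ^ (1 * (i : ℤ))) o (x * tt ^ (-1 * (j : ℤ)))
  have h3 := wdist_comm closure_SS (x * tt ^ (1 * (i : ℤ))) o
  have h4 := wdist_triangle closure_SS o (x * tt ^ (1 * (i : ℤ))) x
  have h5 := wdist_triangle closure_SS o (x * tt ^ (-1 * (j : ℤ))) x
  have h6 := gd_tt x (1 * (i : ℤ)) 0
  have h7 := gd_tt x (-1 * (j : ℤ)) 0
  rw [zpow_zero, mul_one] at h6 h7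
  have e1 : (-1 * (j : ℤ) - 1 * (i : ℤ)).natAbs = i + j := by omega
  have e2 : (0 - 1 * (i : ℤ)).natAbs = i := by omega
  have e3 : (0 - -1 * (j : ℤ)).natAbs = j := by omega
  rw [e1] at h1
  rw [e2] at h6
  rw [e3] at h7
  simp only [gd] at *
  omega

lemma level_tt (g : GG) (i : ℤ) : (g * tt ^ i).k = g.k + i := by
  rw [tt_zpow]; simp

lemma level_xc (g : GG) (i : ℕ) : (g * xc ^ i).k = g.k := by
  have : (xc ^ i).k = 0 := by
    rw [xc_eq, ← map_pow]; rfl
  rw [GG.mul_k, this, add_zero]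

lemma expC_val (g : GG) : (expC g).toAdd = (expo 2 g.w).toAdd := rfl

/-- far in the direction of `c` -/
lemma far_c (o x : GG) (M : ℕ) (i : ℤ) : M ≤ gd o (x * xc ^ M * tt ^ i) + gd o x := by
  have h1 := abs_expC_le (o⁻¹ * (x * xc ^ M * tt ^ i))
  have h2 := abs_expC_le (o⁻¹ * x)
  rw [← expC_val] at h1 h2
  have h3 : expC (o⁻¹ * (x * xc ^ M * tt ^ i)) = expC (o⁻¹ * x) * expC xc ^ M * expC tt ^ i := by
    rw [← map_pow, ← map_zpow, ← map_mul, ← map_mul]
    congr 1
    group
  have h4 : expC xc = Multiplicative.ofAdd 1 := by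
    simp [expC, xc]
  have h5 : expC tt = 1 := by
    simp [expC, tt]
  rw [h3, h4, h5] at h1
  simp only [one_zpow, mul_one, toAdd_mul, toAdd_pow, toAdd_ofAdd] at h1
  have h6 : gd o (x * xc ^ M * tt ^ i) = len (o⁻¹ * (x * xc ^ M * tt ^ i)) := rfl
  have h7 : gd o x = len (o⁻¹ * x) := rfl
  rw [h6, h7]
  rw [abs_le] at h1 h2
  zify
  have h8 := h1.2
  have h9 := h2.1
  simp only [nsmul_eq_mul, mul_one] at h8
  linarith

lemma hop_far {P : GG → Prop} (o x y : GG) (n r : ℕ) (N : ℤ) (hn : r < n) (l : List GG)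
    (hl : WordIn SS l) (hxy : x * l.prod = y)
    (hv : ∀ i ≤ l.length, |(x * (l.take i).prod).k - o.k| ≤ 3 * n) (hN : N.natAbs = 10 * n)
    (hP : ∀ g, r ≤ 2 * gd o g → P g) :
    Conn P (l.length * (2 * (10 * n + 1) ^ 2)) (x * tt ^ N) (y * tt ^ N) := by
  have h1 := conn_hops N l hl x
  rw [hxy, hN] at h1
  refine h1.mono (fun g hg => ?_) le_rfl
  obtain ⟨i, hi, hg⟩ := hg
  apply hP
  have h2 := hv i hi
  have h3 := abs_level_sub_le o g
  have h4 : (N.natAbs : ℤ) = |N| := Int.natCast_natAbs N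
  have h5 : |N| = 10 * n := by rw [← h4, hN]; push_cast; ring
  have h6 : |N| ≤ |g.k - o.k| + |g.k - ((x * (l.take i).prod).k + N)| +
      |(x * (l.take i).prod).k - o.k| := by
    have e1 : N = (g.k - o.k) - (g.k - ((x * (l.take i).prod).k + N)) -
      ((x * (l.take i).prod).k - o.k) := by ring
    calc |N| = |(g.k - o.k) - (g.k - ((x * (l.take i).prod).k + N)) -
      ((x * (l.take i).prod).k - o.k)| := by rw [← e1]
      _ ≤ |(g.k - o.k) - (g.k - ((x * (l.take i).prod).k + N))| +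
        |((x * (l.take i).prod).k - o.k)| := abs_sub _ _
      _ ≤ _ := by
        have := abs_sub (g.k - o.k) (g.k - ((x * (l.take i).prod).k + N))
        linarith
  zify
  have hn' : (r : ℤ) < n := by exact_mod_cast hn
  linarith

theorem main_conn (x y o : GG) (n r : ℕ) (hn : gd x y ≤ n) (hr : r = min (gd o x) (gd o y))
    (hr0 : 0 < r) : Conn (fun g => r ≤ 2 * gd o g) (6000 * n ^ 3 + 6000) x y := by
  have hrx : r ≤ gd o x := hr ▸ min_le_left _ _
  have hry : r ≤ gd o y := hr ▸ min_le_right _ _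
  by_cases hrn : n ≤ r
  · refine (conn_geo x y).mono (fun p hp => ?_) ?_
    · have h1 := wdist_triangle closure_SS o p x
      have h2 := wdist_triangle closure_SS o p y
      have h3 := wdist_comm closure_SS p x
      simp only [gd] at *
      omega
    · have : n ≤ 6000 * n ^ 3 + 6000 := by
        rcases Nat.eq_zero_or_pos n with h | h
        · omega
        · nlinarith [Nat.pow_le_pow_right h (show 1 ≤ 3 by norm_num)]
      omega
  push Not at hrn
  have hn0 : 0 < n := by omega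
  -- distances less than `2 n`
  have hx2 : gd o x ≤ 2 * n := by
    have h1 := wdist_triangle closure_SS o y x
    have h3 := wdist_comm closure_SS y x
    simp only [gd] at *
    omega
  have hy2 : gd o y ≤ 2 * n := by
    have h1 := wdist_triangle closure_SS o x y
    simp only [gd] at *
    omega
  obtain ⟨e, he, hex⟩ := ray_sign o x r hrx
  obtain ⟨e', he', hey⟩ := ray_sign o y r hry
  -- the rays
  have ray : ∀ (z : GG) (e : ℤ), (e = 1 ∨ e = -1) → (∀ j : ℕ, r ≤ 2 * gd o (z * tt ^ (e * j))) →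
      Conn (fun g => r ≤ 2 * gd o g) (10 * n) z (z * tt ^ (e * ((10 * n : ℕ) : ℤ))) := by
    intro z e he hz
    have hs : tt ^ e ∈ SS ∨ (tt ^ e)⁻¹ ∈ SS := by
      rcases he with rfl | rfl
      · left; rw [zpow_one]; exact mem_SS_tt
      · right; rw [zpow_neg, zpow_one, inv_inv]; exact mem_SS_tt
    have h1 := conn_ray z (tt ^ e) hs (10 * n)
    have h2 : ∀ j : ℕ, (tt ^ e) ^ j = tt ^ (e * (j : ℤ)) := by
      intro j
      rw [zpow_mul, zpow_natCast]
    rw [h2] at h1
    refine h1.mono (fun g hg => ?_) le_rfl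
    obtain ⟨j, _, rfl⟩ := hg
    rw [h2]
    exact hz j
  have rx := ray x e he hex
  have ry := ray y e' he' hey
  -- from `x` to `y`
  have hxy : ∀ e : ℤ, (e = 1 ∨ e = -1) → Conn (fun g => r ≤ 2 * gd o g)
      (n * (2 * (10 * n + 1) ^ 2)) (x * tt ^ (e * ((10 * n : ℕ) : ℤ)))
      (y * tt ^ (e * ((10 * n : ℕ) : ℤ))) := by
    intro e he
    obtain ⟨l, hl, hp, hlen, hgeo⟩ := conn_geo x y
    have h1 := hop_far (P := fun g => r ≤ 2 * gd o g) o x y n r (e * ((10 * n : ℕ) : ℤ)) hrn l hl hp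
      ?_ (by rcases he with rfl | rfl <;> omega) (fun g hg => hg)
    · refine h1.mono (fun g hg => hg) ?_
      exact Nat.mul_le_mul_right _ (hlen.trans hn)
    · intro i hi
      have h2 := hgeo i hi
      have h3 := wdist_triangle closure_SS o x (x * (l.take i).prod)
      have h4 := abs_level_sub_le o (x * (l.take i).prod)
      have h5 : gd o (x * (l.take i).prod) ≤ 3 * n := by
        simp only [gd] at *
        omega
      have h6 : ((gd o (x * (l.take i).prod) : ℕ) : ℤ) ≤ 3 * n := by exact_mod_cast h5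
      linarith
  -- from `x` to `x c^M`
  have hxc : ∀ e : ℤ, (e = 1 ∨ e = -1) → Conn (fun g => r ≤ 2 * gd o g)
      (10 * n * (2 * (10 * n + 1) ^ 2)) (x * tt ^ (e * ((10 * n : ℕ) : ℤ)))
      (x * xc ^ (10 * n) * tt ^ (e * ((10 * n : ℕ) : ℤ))) := by
    intro e he
    have h1 := hop_far (P := fun g => r ≤ 2 * gd o g) o x (x * xc ^ (10 * n)) n r
      (e * ((10 * n : ℕ) : ℤ)) hrn (List.replicate (10 * n) xc) ?_ (by simp)
      ?_ (by rcases he with rfl | rfl <;> omega) (fun g hg => hg)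
    · rw [List.length_replicate] at h1
      exact h1
    · intro a ha
      rw [List.eq_of_mem_replicate ha]
      exact Or.inl mem_SS_xc
    · intro i _
      rw [List.take_replicate, List.prod_replicate, level_xc]
      have h4 := abs_level_sub_le o x
      have h6 : ((gd o x : ℕ) : ℤ) ≤ 2 * n := by exact_mod_cast hx2
      have h7 : (0 : ℤ) ≤ n := Int.natCast_nonneg n
      linarith
  -- the middle part
  have hmid : ∀ e : ℤ, (e = 1 ∨ e = -1) → Conn (fun g => r ≤ 2 * gd o g) (2 * (10 * n))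
      (x * xc ^ (10 * n) * tt ^ (e * ((10 * n : ℕ) : ℤ)))
      (x * xc ^ (10 * n) * tt ^ (-e * ((10 * n : ℕ) : ℤ))) := by
    intro e he
    have hs : tt ^ (-e) ∈ SS ∨ (tt ^ (-e))⁻¹ ∈ SS := by
      rcases he with rfl | rfl
      · right; rw [zpow_neg, zpow_one, inv_inv]; exact mem_SS_tt
      · left; rw [neg_neg, zpow_one]; exact mem_SS_tt
    have h1 := conn_ray (x * xc ^ (10 * n) * tt ^ (e * ((10 * n : ℕ) : ℤ))) (tt ^ (-e)) hs
      (2 * (10 * n))
    have h2 : ∀ j : ℕ, x * xc ^ (10 * n) * tt ^ (e * ((10 * n : ℕ) : ℤ)) * (tt ^ (-e)) ^ j =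
        x * xc ^ (10 * n) * tt ^ (e * ((10 * n : ℕ) : ℤ) + -e * (j : ℤ)) := by
      intro j
      rw [zpow_add, zpow_mul tt (-e), zpow_natCast, mul_assoc]
    rw [h2] at h1
    have h3 : e * ((10 * n : ℕ) : ℤ) + -e * ((2 * (10 * n) : ℕ) : ℤ) = -e * ((10 * n : ℕ) : ℤ) := by
      push_cast
      ring
    rw [h3] at h1
    refine h1.mono (fun g hg => ?_) le_rfl
    obtain ⟨j, _, rfl⟩ := hg
    rw [h2]
    have h4 := far_c o x (10 * n) (e * ((10 * n : ℕ) : ℤ) + -e * (j : ℤ))
    omega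
  -- the length
  have hL : 10 * n + (10 * n * (2 * (10 * n + 1) ^ 2) + (2 * (10 * n) +
      (10 * n * (2 * (10 * n + 1) ^ 2) + (n * (2 * (10 * n + 1) ^ 2) + 10 * n)))) ≤
      6000 * n ^ 3 + 6000 := by
    have h1 : n ^ 2 ≤ n ^ 3 := Nat.pow_le_pow_right hn0 (by norm_num)
    have h2 : n ≤ n ^ 3 := by
      calc n = n ^ 1 := (pow_one n).symm
        _ ≤ n ^ 3 := Nat.pow_le_pow_right hn0 (by norm_num)
    nlinarith
  by_cases hee : e = e'
  · subst hee
    have h := rx.trans ((hxy e he).trans ry.symm)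
    refine h.mono (fun g hg => hg) ?_
    have : 10 * n + (n * (2 * (10 * n + 1) ^ 2) + 10 * n) ≤
      10 * n + (10 * n * (2 * (10 * n + 1) ^ 2) + (2 * (10 * n) +
      (10 * n * (2 * (10 * n + 1) ^ 2) + (n * (2 * (10 * n + 1) ^ 2) + 10 * n)))) := by omega
    omega
  · have hee' : e' = -e := by
      rcases he with rfl | rfl <;> rcases he' with rfl | rfl <;> simp_all
    subst hee'
    have h := rx.trans ((hxc e he).trans ((hmid e he).trans ((hxc (-e) he').symm.trans
      ((hxy (-e) he').trans ry.symm))))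
    exact h.mono (fun g hg => hg) hL

theorem div_upper (γ δ : ℝ) (hδ : 0 < δ) (hδ' : δ ≤ 1 / 2) (hγ : 2 ≤ γ) :
    Dominated (Div SS γ δ) (fun n => ((n ^ 3 : ℕ) : ℕ∞)) := by
  refine ⟨6000, fun n => ?_⟩
  have key : Div SS γ δ n ≤ ((6000 * n ^ 3 + 6000 : ℕ) : ℕ∞) := by
    unfold Div
    apply sSup_le
    rintro m ⟨x, y, o, hxy, hpos, rfl⟩
    obtain ⟨l, hl, hp, hlen, hP⟩ := main_conn x y o n (min (gd o x) (gd o y)) hxy rfl hpos
    unfold divPts
    refine le_trans (sInf_le ⟨l, ⟨hl, hp, fun i hi => ?_⟩, rfl⟩) ?_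
    · have h1 := hP i hi
      have h2 : ((min (wdist SS o x) (wdist SS o y) : ℕ) : ℝ) ≤
          2 * (wdist SS o (x * (l.take i).prod) : ℝ) := by exact_mod_cast h1
      have h3 : (0 : ℝ) ≤ ((min (wdist SS o x) (wdist SS o y) : ℕ) : ℝ) := Nat.cast_nonneg _
      nlinarith
    · exact_mod_cast hlen
  refine key.trans ?_
  have h : 6000 * n ^ 3 + 6000 ≤ 6000 * (6000 * n + 6000) ^ 3 + 6000 * n + 6000 := by
    have h1 : n ^ 3 ≤ (6000 * n + 6000) ^ 3 := Nat.pow_le_pow_left (by omega) 3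
    omega
  have h' : ((6000 * n ^ 3 + 6000 : ℕ) : ℕ∞) ≤
      ((6000 * (6000 * n + 6000) ^ 3 + 6000 * n + 6000 : ℕ) : ℕ∞) := by exact_mod_cast h
  refine h'.trans (le_of_eq ?_)
  push_cast
  rfl

end QRPoset
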