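import Mathlib
import Pool.Agent.QRPoset.PosetDef
import Pool.Agent.QRPoset.NegRay

open scoped NNReal

namespace QRPoset

/-! ### TARGET J12: the poset contains a chain of order type `ℤ`

Plain words. `f i` = class of `ray ι (xc ^ i)`. `f i < f (i + 1)` by `redirect_pos`, `not_redirect`
(with `g = xc ^ i`), so `f` is strictly monotone (`strictMono_int_of_lt_succ`). For the height: the image of
`{0, .., n-1}` is a chain with `n` elements. -/

theorem exists_int_chain {X : Type} [MetricSpace X] {ι : GG → X} (h : CayleyModel SS ι) :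
    ∃ f : ℤ → Poset X, StrictMono f := by
  refine ⟨fun i => toAntisymmetrization (· ≤ ·) (⟨ray ι (xc ^ i), ray_isQG h _⟩ : QRay X), ?_⟩
  apply strictMono_int_of_lt_succ
  intro n
  rw [toAntisymmetrization_lt_toAntisymmetrization_iff, lt_iff_le_not_ge]
  constructor
  · show Redirects (ray ι (xc ^ n)) (ray ι (xc ^ (n + 1)))
    rw [zpow_add_one]
    exact redirect_pos h _
  · show ¬ Redirects (ray ι (xc ^ (n + 1))) (ray ι (xc ^ n))
    rw [zpow_add_one]
    exact not_redirect h _

theorem height_eq_top {P : Type} [PartialOrder P] (h : ∃ f : ℤ → P, StrictMono f) :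
    height P = ⊤ := by
  classical
  obtain ⟨f, hf⟩ := h
  by_contra hne
  obtain ⟨n, hn⟩ := ENat.ne_top_iff_exists.1 hne
  have hinj : Function.Injective (fun i : ℕ => f (i : ℤ)) := by
    intro i j hij
    have := hf.injective hij
    exact_mod_cast this
  have hcard : ((Finset.range (n + 1)).image (fun i : ℕ => f (i : ℤ))).card = n + 1 := by
    rw [Finset.card_image_of_injective _ hinj, Finset.card_range]
  have hle : ((n + 1 : ℕ) : ℕ∞) ≤ height P := by
    unfold height
    apply le_sSup
    refine ⟨(Finset.range (n + 1)).image (fun i : ℕ => f (i : ℤ)), ?_, by rw [hcard]⟩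
    intro x hx y hy _
    rw [Finset.mem_coe, Finset.mem_image] at hx hy
    obtain ⟨i, _, rfl⟩ := hx
    obtain ⟨j, _, rfl⟩ := hy
    rcases le_total i j with hij | hij
    · exact Or.inl (hf.monotone (by exact_mod_cast hij))
    · exact Or.inr (hf.monotone (by exact_mod_cast hij))
  rw [← hn] at hle
  have h3 : n + 1 ≤ n := by exact_mod_cast hle
  omega

/-- The vertex set itself, with the word metric, is a model of the Cayley graph. -/
theorem exists_cayleyModel {G : Type} [Group G] {S : Set G} (hS : Subgroup.closure S = ⊤) :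
    ∃ (X : Type) (_ : MetricSpace X) (ι : G → X), CayleyModel S ι := by
  let ms : MetricSpace G :=
    { dist := fun x y => (wdist S x y : ℝ)
      dist_self := fun x => by
        show ((wdist S x x : ℕ) : ℝ) = 0
        rw [wdist_self, Nat.cast_zero]
      dist_comm := fun x y => by
        show ((wdist S x y : ℕ) : ℝ) = ((wdist S y x : ℕ) : ℝ)
        rw [wdist_comm hS]
      dist_triangle := fun x y z => by
        show ((wdist S x z : ℕ) : ℝ) ≤ ((wdist S x y : ℕ) : ℝ) + ((wdist S y z : ℕ) : ℝ)
        exact_mod_cast wdist_triangle hS x y z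
      eq_of_dist_eq_zero := fun {x y} hxy => by
        have h0 : wdist S x y = 0 := by
          have h1 : ((wdist S x y : ℕ) : ℝ) = 0 := hxy
          exact_mod_cast h1
        obtain ⟨l, _, h2, h3⟩ := exists_min_word hS (x⁻¹ * y)
        have h4 : l.length = 0 := by rw [h3]; exact h0
        rw [List.length_eq_zero_iff] at h4
        rw [h4, List.prod_nil] at h2
        exact (inv_mul_eq_one.1 h2.symm) }
  refine ⟨G, ms, id, fun g h => rfl, fun x => ⟨x, ?_⟩⟩
  show ((wdist S x x : ℕ) : ℝ) ≤ 1
  rw [wdist_self, Nat.cast_zero]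
  exact zero_le_one

end QRPoset
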